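import Mathlib

set_option autoImplicit false

namespace Pool.Agent.Helper907.Lat

/-! ### Semidirect products with an abelian (additive) normal subgroup -/

/-- The semidirect product of an additive group with operators. -/
@[ext] structure SD (V G : Type) where
  v : V
  g : G

namespace SD

variable {V G : Type} [AddCommGroup V] [Group G] [DistribMulAction G V]

instance : Group (SD V G) where
  mul x y := ⟨x.v + x.g • y.v, x.g * y.g⟩
  one := ⟨0, 1⟩
  inv x := ⟨-(x.g⁻¹ • x.v), x.g⁻¹⟩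
  mul_assoc x y z := by
    apply SD.ext
    · show (x.v + x.g • y.v) + (x.g * y.g) • z.v = x.v + x.g • (y.v + y.g • z.v)
      rw [smul_add, mul_smul, add_assoc]
    · exact mul_assoc _ _ _
  one_mul x := by
    apply SD.ext
    · show (0 : V) + (1 : G) • x.v = x.v
      rw [one_smul, zero_add]
    · exact one_mul _
  mul_one x := by
    apply SD.ext
    · show x.v + x.g • (0 : V) = x.v
      rw [smul_zero, add_zero]
    · exact mul_one _
  inv_mul_cancel x := by
    apply SD.ext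
    · show -(x.g⁻¹ • x.v) + x.g⁻¹ • x.v = 0
      rw [neg_add_cancel]
    · exact inv_mul_cancel _

@[simp] lemma mul_v (x y : SD V G) : (x * y).v = x.v + x.g • y.v := rfl
@[simp] lemma mul_g (x y : SD V G) : (x * y).g = x.g * y.g := rfl
@[simp] lemma one_v : (1 : SD V G).v = 0 := rfl
@[simp] lemma one_g : (1 : SD V G).g = 1 := rfl
@[simp] lemma inv_v (x : SD V G) : (x⁻¹).v = -(x.g⁻¹ • x.v) := rfl
@[simp] lemma inv_g (x : SD V G) : (x⁻¹).g = x.g⁻¹ := rfl

instance [Finite V] [Finite G] : Finite (SD V G) :=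
  Finite.of_injective (fun x : SD V G => (x.v, x.g)) (by
    intro x y h
    exact SD.ext (Prod.ext_iff.mp h).1 (Prod.ext_iff.mp h).2)

/-- projection -/
def proj : SD V G →* G where
  toFun x := x.g
  map_one' := rfl
  map_mul' _ _ := rfl

@[simp] lemma proj_apply (x : SD V G) : proj x = x.g := rfl

lemma proj_surj : Function.Surjective (proj (V := V) (G := G)) := fun g => ⟨⟨0, g⟩, rfl⟩

/-- functoriality -/
def map {V' G' : Type} [AddCommGroup V'] [Group G'] [DistribMulAction G' V']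
    (θ : V →+ V') (π : G →* G') (h : ∀ g v, θ (g • v) = π g • θ v) : SD V G →* SD V' G' where
  toFun x := ⟨θ x.v, π x.g⟩
  map_one' := by
    apply SD.ext
    · exact map_zero θ
    · exact map_one π
  map_mul' x y := by
    apply SD.ext
    · show θ (x.v + x.g • y.v) = θ x.v + π x.g • θ y.v
      rw [map_add, h]
    · exact map_mul π _ _

lemma conj_inl (t : SD V G) (v : V) : t * ⟨v, 1⟩ * t⁻¹ = ⟨t.g • v, 1⟩ := by
  apply SD.ext
  · simp
  · simp

end SD

/-! ### Formations -/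

/-- The closure properties of a saturated formation. -/
structure Fm (F : (G : Type) → [Group G] → Prop) : Prop where
  iso : ∀ (G H : Type) [Group G] [Group H], Nonempty (G ≃* H) → F G → F H
  unit : F Unit
  quot : ∀ (G : Type) [Group G] [Finite G] (N : Subgroup G) [N.Normal], F G → F (G ⧸ N)
  inf : ∀ (G : Type) [Group G] [Finite G] (N₁ N₂ : Subgroup G) [N₁.Normal] [N₂.Normal],
    F (G ⧸ N₁) → F (G ⧸ N₂) → F (G ⧸ (N₁ ⊓ N₂))
  frat : ∀ (G : Type) [Group G] [Finite G], F (G ⧸ frattini G) → F G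

variable {F : (G : Type) → [Group G] → Prop}

lemma Fm.surj (hF : Fm F) {G H : Type} [Group G] [Group H] [Finite G] (f : G →* H)
    (hf : Function.Surjective f) (h : F G) : F H :=
  hF.iso _ _ ⟨QuotientGroup.quotientKerEquivOfSurjective f hf⟩ (hF.quot G f.ker h)

lemma Fm.ofker (hF : Fm F) {G H : Type} [Group G] [Group H] (f : G →* H)
    (hf : Function.Surjective f) (h : F H) : F (G ⧸ f.ker) :=
  hF.iso _ _ ⟨(QuotientGroup.quotientKerEquivOfSurjective f hf).symm⟩ h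

lemma Fm.ofle (hF : Fm F) {G : Type} [Group G] [Finite G] (N₁ N₂ : Subgroup G) [N₁.Normal]
    [N₂.Normal] (h : N₁ ≤ N₂) (h1 : F (G ⧸ N₁)) : F (G ⧸ N₂) :=
  hF.surj (QuotientGroup.map N₁ N₂ (MonoidHom.id G) h)
    (by
      intro x
      obtain ⟨g, rfl⟩ := QuotientGroup.mk_surjective x
      exact ⟨QuotientGroup.mk g, rfl⟩) h1

lemma Fm.ofbot (hF : Fm F) {G : Type} [Group G] (N : Subgroup G) [N.Normal]
    (h : N = ⊥) (h1 : F (G ⧸ N)) : F G := by
  subst h
  exact hF.iso _ _ ⟨QuotientGroup.quotientBot⟩ h1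

lemma Fm.sub2 (hF : Fm F) {G H₁ H₂ : Type} [Group G] [Group H₁] [Group H₂] [Finite G]
    (f₁ : G →* H₁) (f₂ : G →* H₂) (hf₁ : Function.Surjective f₁) (hf₂ : Function.Surjective f₂)
    (h₁ : F H₁) (h₂ : F H₂) (hk : ∀ x, f₁ x = 1 → f₂ x = 1 → x = 1) : F G := by
  refine hF.ofbot (f₁.ker ⊓ f₂.ker) ?_ (hF.inf G _ _ (hF.ofker f₁ hf₁ h₁) (hF.ofker f₂ hf₂ h₂))
  rw [eq_bot_iff]
  rintro x ⟨hx1, hx2⟩
  exact hk x hx1 hx2

/-- existence of the residual -/
lemma Fm.exists_res (hF : Fm F) (G : Type) [Group G] [Finite G] :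
    ∃ R : Subgroup G, ∃ _ : R.Normal, F (G ⧸ R) ∧
      ∀ (N : Subgroup G) [N.Normal], F (G ⧸ N) → R ≤ N := by
  classical
  have hne : ({N : Subgroup G | ∃ _ : N.Normal, F (G ⧸ N)}).Nonempty := by
    refine ⟨⊤, inferInstance, ?_⟩
    refine hF.iso Unit _ ⟨?_⟩ hF.unit
    haveI : Subsingleton (G ⧸ (⊤ : Subgroup G)) := QuotientGroup.subsingleton_quotient_top
    exact { toFun := fun _ => 1, invFun := fun _ => (), left_inv := fun _ => rfl,
            right_inv := fun x => Subsingleton.elim _ _, map_mul' := fun _ _ => by simp }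
  obtain ⟨R, ⟨hR, hRF⟩, hmin⟩ := (Set.toFinite _).exists_minimal hne
  refine ⟨R, hR, hRF, ?_⟩
  intro N hN hNF
  have h1 : R ⊓ N ∈ {N : Subgroup G | ∃ _ : N.Normal, F (G ⧸ N)} :=
    ⟨inferInstance, hF.inf G R N hRF hNF⟩
  exact le_inf_iff.mp (hmin h1 inf_le_left) |>.2

/-- saturation criterion -/
lemma Fm.satur (hF : Fm F) (G : Type) [Group G] [Finite G]
    (h : ∀ T : Subgroup G, IsCoatom T → ∃ (K : Type) (_ : Group K) (f : G →* K),
      Function.Surjective f ∧ F K ∧ ∀ x, f x = 1 → x ∈ T) : F G := by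
  obtain ⟨R, hR, hRF, hmin⟩ := hF.exists_res G
  apply hF.frat
  refine hF.ofle R _ ?_ hRF
  rw [frattini, Order.radical]
  refine le_iInf₂ (fun T hT => ?_)
  obtain ⟨K, hK, f, hf, hFK, hker⟩ := h T hT
  refine le_trans (hmin f.ker (hF.ofker f hf hFK)) ?_
  intro x hx
  exact hker x hx

/-- the fibre product construction -/
lemma Fm.fiber (hF : Fm F) {H G S : Type} [Group H] [Finite H] [Group G] [AddCommGroup S]
    [DistribMulAction G S] (A : Subgroup H) [A.Normal] (π : H →* G)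
    (hπ : Function.Surjective π) (θ : A → S) (hθ : ∀ a b, θ (a * b) = θ a + θ b)
    (hθs : Function.Surjective θ)
    (heq : ∀ (h : H) (a : A) (b : A), (b : H) = h * a * h⁻¹ → θ b = π h • θ a)
    (hH : F H) : F (SD S G) := by
  let Y : Subgroup (H × H) :=
    { carrier := {z | z.1 * z.2⁻¹ ∈ A}
      one_mem' := by simp [A.one_mem]
      mul_mem' := by
        rintro ⟨x, y⟩ ⟨x', y'⟩ h1 h2
        show (x * x') * (y * y')⁻¹ ∈ A
        have : (x * x') * (y * y')⁻¹ = (x * y⁻¹) * (y * (x' * y'⁻¹) * y⁻¹) := by group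
        rw [this]
        exact A.mul_mem h1 ((inferInstance : A.Normal).conj_mem _ h2 y)
      inv_mem' := by
        rintro ⟨x, y⟩ h1
        show x⁻¹ * (y⁻¹)⁻¹ ∈ A
        have : x⁻¹ * (y⁻¹)⁻¹ = x⁻¹ * (x * y⁻¹)⁻¹ * (x⁻¹)⁻¹ := by group
        rw [this]
        exact (inferInstance : A.Normal).conj_mem _ (A.inv_mem h1) x⁻¹ }
  have hY : F Y := by
    refine hF.sub2 (G := Y) (H₁ := H) (H₂ := H) ((MonoidHom.fst H H).comp Y.subtype)
      ((MonoidHom.snd H H).comp Y.subtype) ?_ ?_ hH hH ?_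
    · intro x
      exact ⟨⟨(x, x), by show x * x⁻¹ ∈ A; simp [A.one_mem]⟩, rfl⟩
    · intro x
      exact ⟨⟨(x, x), by show x * x⁻¹ ∈ A; simp [A.one_mem]⟩, rfl⟩
    · rintro ⟨⟨x, y⟩, h⟩ h1 h2
      apply Subtype.ext
      exact Prod.ext h1 h2
  let f : Y →* SD S G :=
    { toFun := fun z => ⟨θ ⟨z.1.1 * z.1.2⁻¹, z.2⟩, π z.1.2⟩
      map_one' := by
        apply SD.ext
        · show θ _ = 0
          have h0 : θ 1 = 0 := by
            have := hθ 1 1
            rw [mul_one] at this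
            exact left_eq_add.mp this
          rw [← h0]
          congr 1
          apply Subtype.ext
          simp
        · exact map_one π
      map_mul' := by
        rintro ⟨⟨x, y⟩, h1⟩ ⟨⟨x', y'⟩, h2⟩
        apply SD.ext
        · show θ ⟨(x * x') * (y * y')⁻¹, _⟩ = θ ⟨x * y⁻¹, _⟩ + π y • θ ⟨x' * y'⁻¹, _⟩
          have h3 : y * (x' * y'⁻¹) * y⁻¹ ∈ A := (inferInstance : A.Normal).conj_mem _ h2 y
          rw [← heq y ⟨x' * y'⁻¹, h2⟩ ⟨y * (x' * y'⁻¹) * y⁻¹, h3⟩ rfl, ← hθ]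
          congr 1
          apply Subtype.ext
          show (x * x') * (y * y')⁻¹ = (x * y⁻¹) * (y * (x' * y'⁻¹) * y⁻¹)
          group
        · exact map_mul π _ _ }
  refine hF.surj f ?_ hY
  rintro ⟨s, g⟩
  obtain ⟨a, rfl⟩ := hθs s
  obtain ⟨h, rfl⟩ := hπ g
  refine ⟨⟨(a * h, h), by show (a : H) * h * h⁻¹ ∈ A; simp⟩, ?_⟩
  apply SD.ext
  · show θ ⟨(a : H) * h * h⁻¹, _⟩ = θ a
    congr 1
    apply Subtype.ext
    simp
  · rfl

/-- central subgroups -/
lemma Fm.central (hF : Fm F) {H : Type} [Group H] [Finite H] (A : Subgroup H)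
    (hA : A ≤ Subgroup.center H) (hH : F H) : F A := by
  haveI hAn : A.Normal := ⟨fun a ha g => by
    have := Subgroup.mem_center_iff.mp (hA ha) g
    rw [this, mul_inv_cancel_right]; exact ha⟩
  let Y : Subgroup (H × H) :=
    { carrier := {z | z.1 * z.2⁻¹ ∈ A}
      one_mem' := by simp [A.one_mem]
      mul_mem' := by
        rintro ⟨x, y⟩ ⟨x', y'⟩ h1 h2
        show (x * x') * (y * y')⁻¹ ∈ A
        have : (x * x') * (y * y')⁻¹ = (x * y⁻¹) * (y * (x' * y'⁻¹) * y⁻¹) := by group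
        rw [this]
        exact A.mul_mem h1 (hAn.conj_mem _ h2 y)
      inv_mem' := by
        rintro ⟨x, y⟩ h1
        show x⁻¹ * (y⁻¹)⁻¹ ∈ A
        have : x⁻¹ * (y⁻¹)⁻¹ = x⁻¹ * (x * y⁻¹)⁻¹ * (x⁻¹)⁻¹ := by group
        rw [this]
        exact hAn.conj_mem _ (A.inv_mem h1) x⁻¹ }
  have hY : F Y := by
    refine hF.sub2 (G := Y) (H₁ := H) (H₂ := H) ((MonoidHom.fst H H).comp Y.subtype)
      ((MonoidHom.snd H H).comp Y.subtype) ?_ ?_ hH hH ?_
    · intro x
      exact ⟨⟨(x, x), by show x * x⁻¹ ∈ A; simp [A.one_mem]⟩, rfl⟩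
    · intro x
      exact ⟨⟨(x, x), by show x * x⁻¹ ∈ A; simp [A.one_mem]⟩, rfl⟩
    · rintro ⟨⟨x, y⟩, h⟩ h1 h2
      apply Subtype.ext
      exact Prod.ext h1 h2
  let f : Y →* A :=
    { toFun := fun z => ⟨z.1.1 * z.1.2⁻¹, z.2⟩
      map_one' := by
        apply Subtype.ext
        simp
      map_mul' := by
        rintro ⟨⟨x, y⟩, h1⟩ ⟨⟨x', y'⟩, h2⟩
        apply Subtype.ext
        show (x * x') * (y * y')⁻¹ = (x * y⁻¹) * (x' * y'⁻¹)
        have h3 : y * (x' * y'⁻¹) = (x' * y'⁻¹) * y := Subgroup.mem_center_iff.mp (hA h2) y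
        calc (x * x') * (y * y')⁻¹ = (x * y⁻¹) * (y * (x' * y'⁻¹)) * y⁻¹ := by group
          _ = (x * y⁻¹) * (x' * y'⁻¹) := by rw [h3]; group }
  refine hF.surj f ?_ hY
  rintro ⟨a, ha⟩
  exact ⟨⟨(a, 1), by show a * 1⁻¹ ∈ A; simpa using ha⟩, Subtype.ext (by
    show a * 1⁻¹ = a
    simp)⟩

end Pool.Agent.Helper907.Lat
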