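import Mathlib
import Pool.Agent.Helper907.LatA

set_option autoImplicit false

namespace Pool.Agent.Helper907.Lat

variable {F : (G : Type) → [Group G] → Prop}

/-! ### `F`-subnormal subgroups -/

/-- The set of `F`-subnormal subgroups, as in the frozen statement. -/
def TT (F : (G : Type) → [Group G] → Prop) (G : Type) [Group G] : Set (Subgroup G) :=
  {H : Subgroup G | ∀ S : Set (Subgroup G), ⊤ ∈ S →
              (∀ K ∈ S, ∀ L : Subgroup G, L < K →
                (∀ M : Subgroup G, L ≤ M → M ≤ K → M = L ∨ M = K) →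
                (∃ N : Subgroup K, ∃ _ : N.Normal, F (K ⧸ N) ∧ N ≤ L.subgroupOf K) →
                L ∈ S) →
              H ∈ S}

/-- `L` contains the `F`-residual of `K`. -/
def Fn1 (F : (G : Type) → [Group G] → Prop) {G : Type} [Group G] (K L : Subgroup G) : Prop :=
  ∃ (Q : Type) (_ : Group Q) (f : K →* Q), Function.Surjective f ∧ F Q ∧
    ∀ x : K, f x = 1 → (x : G) ∈ L

lemma Fn1_iff (hF : Fm F) {G : Type} [Group G] (K L : Subgroup G) :
    Fn1 F K L ↔ (∃ N : Subgroup K, ∃ _ : N.Normal, F (K ⧸ N) ∧ N ≤ L.subgroupOf K) := by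
  constructor
  · rintro ⟨Q, hQ, f, hf, hFQ, hker⟩
    refine ⟨f.ker, inferInstance, hF.ofker f hf hFQ, ?_⟩
    intro x hx
    exact Subgroup.mem_subgroupOf.mpr (hker x hx)
  · rintro ⟨N, hN, hFN, hle⟩
    refine ⟨K ⧸ N, inferInstance, QuotientGroup.mk' N, QuotientGroup.mk'_surjective N, hFN, ?_⟩
    intro x hx
    exact Subgroup.mem_subgroupOf.mp (hle ((QuotientGroup.eq_one_iff x).mp hx))

lemma TT_top {G : Type} [Group G] : (⊤ : Subgroup G) ∈ TT F G := fun _ h _ => h

lemma TT_step (hF : Fm F) {G : Type} [Group G] {K L : Subgroup G} (hK : K ∈ TT F G) (hlt : L < K)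
    (hcov : ∀ M : Subgroup G, L ≤ M → M ≤ K → M = L ∨ M = K) (hN : Fn1 F K L) :
    L ∈ TT F G := by
  intro S hS hstep
  exact hstep K (hK S hS hstep) L hlt hcov ((Fn1_iff hF K L).mp hN)

/-- induction principle -/
lemma TT_ind (hF : Fm F) {G : Type} [Group G] (P : Subgroup G → Prop) (h0 : P ⊤)
    (h1 : ∀ K L : Subgroup G, P K → L < K → (∀ M : Subgroup G, L ≤ M → M ≤ K → M = L ∨ M = K) →
      Fn1 F K L → P L) {H : Subgroup G} (hH : H ∈ TT F G) : P H :=
  hH {K | P K} h0 (fun K hK L hlt hcov hN => h1 K L hK hlt hcov ((Fn1_iff hF K L).mpr hN))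

/-- a subgroup in `F`: all its maximal subgroups are F-subnormal -/
lemma TT_step' (hF : Fm F) {G : Type} [Group G] {K L : Subgroup G} (hK : K ∈ TT F G)
    (hlt : L < K) (hcov : ∀ M : Subgroup G, L ≤ M → M ≤ K → M = L ∨ M = K) (hN : F K) :
    L ∈ TT F G :=
  TT_step hF hK hlt hcov ⟨K, inferInstance, MonoidHom.id K, fun x => ⟨x, rfl⟩, hN,
    fun x hx => by
      have : x = 1 := hx
      rw [this]; exact L.one_mem⟩

lemma TT_map (hF : Fm F) {G : Type} [Group G] (e : G ≃* G) {H : Subgroup G} (hH : H ∈ TT F G) :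
    H.map e.toMonoidHom ∈ TT F G := by
  refine TT_ind hF (fun K => K.map e.toMonoidHom ∈ TT F G) ?_ ?_ hH
  · have : (⊤ : Subgroup G).map e.toMonoidHom = ⊤ :=
      Subgroup.map_top_of_surjective _ e.surjective
    show (⊤ : Subgroup G).map e.toMonoidHom ∈ TT F G
    rw [this]
    exact TT_top
  · intro K L hK hlt hcov ⟨Q, hQ, f, hf, hFQ, hker⟩
    have hinj : Function.Injective e.toMonoidHom := e.injective
    refine TT_step hF hK ?_ ?_ ?_
    · exact (Subgroup.map_lt_map_iff_of_injective hinj).mpr hlt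
    · intro M h1 h2
      have h3 : (M.comap e.toMonoidHom).map e.toMonoidHom = M :=
        Subgroup.map_comap_eq_self_of_surjective e.surjective M
      rcases hcov (M.comap e.toMonoidHom) (Subgroup.map_le_iff_le_comap.mp h1) (by
        intro x hx
        obtain ⟨y, hy, hyx⟩ := h2 hx
        have : y = x := hinj hyx
        rw [← this]; exact hy) with h | h
      · left; rw [← h3, h]
      · right; rw [← h3, h]
    · let ek : K.map e.toMonoidHom ≃* K := (K.equivMapOfInjective e.toMonoidHom hinj).symm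
      refine ⟨Q, hQ, f.comp ek.toMonoidHom, hf.comp ek.surjective, hFQ, ?_⟩
      intro x hx
      have h1 := hker _ hx
      refine ⟨(ek x : G), h1, ?_⟩
      have h2 : (K.equivMapOfInjective e.toMonoidHom hinj) (ek x) = x :=
        MulEquiv.apply_symm_apply _ _
      have h3 := congrArg (fun z : K.map e.toMonoidHom => (z : G)) h2
      have h4 := Subgroup.coe_equivMapOfInjective_apply K e.toMonoidHom hinj (ek x)
      rw [← h4]
      exact h3

/-! ### Invariant subgroups of modules -/

/-- invariant subgroups -/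
structure ISub (G V : Type) [Group G] [AddCommGroup V] [DistribMulAction G V] where
  c : AddSubgroup V
  inv : ∀ (g : G) (v : V), v ∈ c → g • v ∈ c

namespace ISub

variable {G V : Type} [Group G] [AddCommGroup V] [DistribMulAction G V]

lemma ext' {U U' : ISub G V} (h : U.c = U'.c) : U = U' := by
  cases U; cases U'; simp only at h; subst h; rfl

/-- the underlying type -/
def Ty (U : ISub G V) : Type := ↥U.c

instance (U : ISub G V) : AddCommGroup U.Ty := inferInstanceAs (AddCommGroup ↥U.c)

instance (U : ISub G V) [Finite V] : Finite U.Ty := inferInstanceAs (Finite ↥U.c)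

/-- the inclusion -/
def ι (U : ISub G V) : U.Ty →+ V := U.c.subtype

lemma ι_inj (U : ISub G V) : Function.Injective U.ι := Subtype.val_injective

lemma ι_mem (U : ISub G V) (x : U.Ty) : U.ι x ∈ U.c := x.2

/-- constructor -/
def mk' (U : ISub G V) (v : V) (h : v ∈ U.c) : U.Ty := ⟨v, h⟩

@[simp] lemma ι_mk' (U : ISub G V) (v : V) (h : v ∈ U.c) : U.ι (U.mk' v h) = v := rfl

instance (U : ISub G V) : DistribMulAction G U.Ty where
  smul g x := U.mk' (g • U.ι x) (U.inv g _ (U.ι_mem x))
  one_smul x := U.ι_inj (one_smul G (U.ι x))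
  mul_smul g h x := U.ι_inj (mul_smul g h (U.ι x))
  smul_zero g := U.ι_inj (smul_zero g)
  smul_add g x y := U.ι_inj (smul_add g (U.ι x) (U.ι y))

@[simp] lemma ι_smul (U : ISub G V) (g : G) (x : U.Ty) : U.ι (g • x) = g • U.ι x := rfl

/-- the quotient -/
def Qt (U : ISub G V) : Type := V ⧸ U.c

instance (U : ISub G V) : AddCommGroup U.Qt := inferInstanceAs (AddCommGroup (V ⧸ U.c))

instance (U : ISub G V) [Finite V] : Finite U.Qt := inferInstanceAs (Finite (V ⧸ U.c))

/-- the quotient map -/
def π (U : ISub G V) : V →+ U.Qt := QuotientAddGroup.mk' U.c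

lemma π_surj (U : ISub G V) : Function.Surjective U.π := QuotientAddGroup.mk'_surjective U.c

lemma π_eq_zero (U : ISub G V) (v : V) : U.π v = 0 ↔ v ∈ U.c :=
  QuotientAddGroup.eq_zero_iff v

lemma π_eq (U : ISub G V) (v w : V) : U.π v = U.π w ↔ v - w ∈ U.c := by
  rw [← π_eq_zero, map_sub, sub_eq_zero]

/-- the map on the quotient -/
def qmap (U : ISub G V) (g : G) : U.Qt →+ U.Qt :=
  QuotientAddGroup.map U.c U.c (DistribSMul.toAddMonoidHom V g) (fun v hv => U.inv g v hv)

lemma qmap_π (U : ISub G V) (g : G) (v : V) : U.qmap g (U.π v) = U.π (g • v) := rfl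

instance (U : ISub G V) : DistribMulAction G U.Qt where
  smul g x := U.qmap g x
  one_smul x := by
    obtain ⟨v, rfl⟩ := U.π_surj x
    show U.qmap 1 (U.π v) = U.π v
    rw [qmap_π, one_smul]
  mul_smul g h x := by
    obtain ⟨v, rfl⟩ := U.π_surj x
    show U.qmap (g * h) (U.π v) = U.qmap g (U.qmap h (U.π v))
    rw [qmap_π, qmap_π, qmap_π, mul_smul]
  smul_zero g := map_zero (U.qmap g)
  smul_add g x y := map_add (U.qmap g) x y

lemma smul_π (U : ISub G V) (g : G) (v : V) : g • U.π v = U.π (g • v) := rfl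

end ISub

section irred

variable {X V : Type} [Group X] [AddCommGroup V] [DistribMulAction X V]

/-- a proper invariant subgroup which is maximal -/
def IMax (V₀ : ISub X V) : Prop :=
  V₀.c ≠ ⊤ ∧ ∀ U : ISub X V, V₀.c ≤ U.c → U.c = V₀.c ∨ U.c = ⊤

/-- A normal `p`-subgroup acts trivially on irreducible quotients in characteristic `p`. -/
lemma normal_p_trivial [Finite V] [Finite X] (p : ℕ) [hp : Fact p.Prime] (hV : ∀ v : V, p • v = 0)
    (B : Subgroup X) [hB : B.Normal] (hBp : IsPGroup p B) (V₀ : ISub X V) (hmax : IMax V₀) :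
    ∀ b ∈ B, ∀ v : V, b • v - v ∈ V₀.c := by
  classical
  obtain ⟨hne, hmax⟩ := hmax
  -- the set of vectors fixed modulo `V₀`
  let U : ISub X V :=
    { c := { carrier := {v | ∀ b ∈ B, b • v - v ∈ V₀.c}
             zero_mem' := by
               intro b _
               rw [smul_zero, sub_zero]; exact V₀.c.zero_mem
             add_mem' := by
               intro v w hv hw b hb
               have : b • (v + w) - (v + w) = (b • v - v) + (b • w - w) := by
                 rw [smul_add]; abel
               rw [this]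
               exact V₀.c.add_mem (hv b hb) (hw b hb)
             neg_mem' := by
               intro v hv b hb
               have : b • (-v) - (-v) = -(b • v - v) := by
                 rw [smul_neg]; abel
               rw [this]
               exact V₀.c.neg_mem (hv b hb) }
      inv := by
        intro x v hv b hb
        have h1 : x⁻¹ * b * x ∈ B := by
          have := hB.conj_mem b hb x⁻¹
          rwa [inv_inv] at this
        have h2 := V₀.inv x _ (hv _ h1)
        have h3 : x • ((x⁻¹ * b * x) • v - v) = b • (x • v) - x • v := by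
          rw [smul_sub, smul_smul, smul_smul]
          congr 2
          group
        rw [h3] at h2
        exact h2 }
  have hle : V₀.c ≤ U.c := by
    intro v hv b _
    exact V₀.c.sub_mem (V₀.inv b v hv) hv
  -- a nonzero fixed point in the quotient
  have hQne : Nontrivial V₀.Qt := by
    by_contra hcon
    rw [not_nontrivial_iff_subsingleton] at hcon
    apply hne
    rw [eq_top_iff]
    intro v _
    rw [← ISub.π_eq_zero]
    exact Subsingleton.elim _ _
  have hQp : ∀ x : V₀.Qt, p • x = 0 := by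
    intro x
    obtain ⟨v, rfl⟩ := V₀.π_surj x
    rw [← map_nsmul, hV, map_zero]
  have hcard : p ∣ Nat.card V₀.Qt := by
    obtain ⟨x, hx⟩ := exists_ne (0 : V₀.Qt)
    have h1 : addOrderOf x = p := addOrderOf_eq_prime (hQp x) hx
    rw [← h1]
    exact addOrderOf_dvd_natCard x
  have hfix0 : (0 : V₀.Qt) ∈ MulAction.fixedPoints B V₀.Qt := by
    intro b
    exact smul_zero (b : X)
  obtain ⟨y, hy, hy0⟩ := hBp.exists_fixed_point_of_prime_dvd_card_of_fixed_point V₀.Qt hcard hfix0
  obtain ⟨v, rfl⟩ := V₀.π_surj y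
  have hvU : v ∈ U.c := by
    intro b hb
    have h1 := hy ⟨b, hb⟩
    have h2 : b • V₀.π v = V₀.π v := h1
    rw [ISub.smul_π, ISub.π_eq] at h2
    exact h2
  have hvV : v ∉ V₀.c := by
    intro h
    exact hy0 ((V₀.π_eq_zero v).mpr h).symm
  rcases hmax U hle with h | h
  · exact absurd (h ▸ hvU) hvV
  · intro b hb v
    have : v ∈ U.c := by rw [h]; trivial
    exact this b hb

/-- existence of a maximal invariant subgroup above a given one -/
lemma exists_IMax [Finite V] (U₀ : ISub X V) (h : U₀.c ≠ ⊤) :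
    ∃ V₀ : ISub X V, U₀.c ≤ V₀.c ∧ IMax V₀ := by
  classical
  have hne : ({C : AddSubgroup V | C ≠ ⊤ ∧ U₀.c ≤ C ∧ ∀ (g : X) (v : V), v ∈ C → g • v ∈ C}).Nonempty :=
    ⟨U₀.c, h, le_rfl, U₀.inv⟩
  obtain ⟨C, ⟨hC1, hC2, hC3⟩, hmax⟩ := (Set.toFinite _).exists_maximal hne
  refine ⟨⟨C, hC3⟩, hC2, hC1, ?_⟩
  intro U hU
  by_cases hUt : U.c = ⊤
  · right; exact hUt
  · left
    have h1 : U.c ∈ {C : AddSubgroup V | C ≠ ⊤ ∧ U₀.c ≤ C ∧ ∀ (g : X) (v : V), v ∈ C → g • v ∈ C} :=
      ⟨hUt, hC2.trans hU, U.inv⟩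
    exact le_antisymm (hmax h1 hU) hU

/-- a coatom of `SD V X` not containing `V` meets `V` in a maximal invariant subgroup -/
lemma coatom_inter (T : Subgroup (SD V X)) (hT : IsCoatom T) (h : ∃ v : V, (⟨v, 1⟩ : SD V X) ∉ T) :
    ∃ V₀ : ISub X V, (∀ v, v ∈ V₀.c ↔ (⟨v, 1⟩ : SD V X) ∈ T) ∧ IMax V₀ := by
  classical
  -- invariant subgroups give normal subgroups
  have key : ∀ U : ISub X V, (∃ u ∈ U.c, (⟨u, 1⟩ : SD V X) ∉ T) →
      ∀ z : SD V X, ∃ t ∈ T, ∃ u ∈ U.c, z = t * ⟨u, 1⟩ := by
    intro U ⟨u, hu, huT⟩ z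
    let K : Subgroup (SD V X) :=
      { carrier := {z | ∃ t ∈ T, ∃ u ∈ U.c, z = t * ⟨u, 1⟩}
        one_mem' := ⟨1, T.one_mem, 0, U.c.zero_mem, by
          apply SD.ext <;> simp⟩
        mul_mem' := by
          rintro _ _ ⟨t, ht, u, hu, rfl⟩ ⟨t', ht', u', hu', rfl⟩
          refine ⟨t * t', T.mul_mem ht ht', t'.g⁻¹ • u + u', U.c.add_mem (U.inv _ _ hu) hu', ?_⟩
          apply SD.ext
          · simp only [SD.mul_v, SD.mul_g, mul_one, smul_add, smul_smul]
            rw [mul_assoc, mul_inv_cancel, mul_one]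
            abel
          · simp
        inv_mem' := by
          rintro _ ⟨t, ht, u, hu, rfl⟩
          refine ⟨t⁻¹, T.inv_mem ht, -(t.g • u), U.c.neg_mem (U.inv _ _ hu), ?_⟩
          apply SD.ext
          · simp only [SD.mul_v, SD.mul_g, SD.inv_v, SD.inv_g, mul_one, smul_add, smul_neg,
              smul_smul, inv_mul_cancel, one_smul]
            abel
          · simp }
    have hTK : T ≤ K := fun t ht => ⟨t, ht, 0, U.c.zero_mem, by apply SD.ext <;> simp⟩
    have huK : (⟨u, 1⟩ : SD V X) ∈ K := ⟨1, T.one_mem, u, hu, by simp⟩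
    have hlt : T < K := lt_of_le_of_ne hTK (fun heq => huT (by rw [heq]; exact huK))
    have hK : K = ⊤ := hT.2 K hlt
    have : z ∈ K := by rw [hK]; trivial
    exact this
  obtain ⟨v₁, hv₁⟩ := h
  let Utop : ISub X V := ⟨⊤, fun _ _ _ => trivial⟩
  have hproj : ∀ x : X, ∃ t ∈ T, t.g = x := by
    intro x
    obtain ⟨t, ht, u, -, hz⟩ := key Utop ⟨v₁, trivial, hv₁⟩ ⟨0, x⟩
    refine ⟨t, ht, ?_⟩
    have := congrArg SD.g hz
    simpa using this.symm
  let V₀ : ISub X V :=
    { c := { carrier := {v | (⟨v, 1⟩ : SD V X) ∈ T}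
             zero_mem' := T.one_mem
             add_mem' := by
               intro v w hv hw
               have := T.mul_mem hv hw
               have h2 : (⟨v, 1⟩ : SD V X) * ⟨w, 1⟩ = ⟨v + w, 1⟩ := by
                 apply SD.ext <;> simp
               rw [h2] at this
               exact this
             neg_mem' := by
               intro v hv
               have := T.inv_mem hv
               have h2 : (⟨v, 1⟩ : SD V X)⁻¹ = ⟨-v, 1⟩ := by
                 apply SD.ext <;> simp
               rw [h2] at this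
               exact this }
      inv := by
        intro x v hv
        obtain ⟨t, ht, rfl⟩ := hproj x
        have := T.mul_mem (T.mul_mem ht hv) (T.inv_mem ht)
        rw [SD.conj_inl] at this
        exact this }
  refine ⟨V₀, fun v => Iff.rfl, ?_, ?_⟩
  · intro htop
    apply hv₁
    have : v₁ ∈ V₀.c := by rw [htop]; trivial
    exact this
  · intro U hU
    by_cases hUT : ∃ u ∈ U.c, (⟨u, 1⟩ : SD V X) ∉ T
    · right
      rw [eq_top_iff]
      intro v _
      obtain ⟨t, ht, u, hu, hz⟩ := key U hUT ⟨v, 1⟩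
      have h1 : t.g = 1 := by
        have := congrArg SD.g hz
        simpa using this.symm
      have h2 : v = t.v + u := by
        have := congrArg SD.v hz
        simp only [SD.mul_v, h1, one_smul] at this
        exact this
      have h3 : t.v ∈ V₀.c := by
        show (⟨t.v, 1⟩ : SD V X) ∈ T
        have : (⟨t.v, 1⟩ : SD V X) = t := by
          apply SD.ext
          · rfl
          · exact h1.symm
        rw [this]; exact ht
      rw [h2]
      exact U.c.add_mem (hU h3) hu
    · left
      push Not at hUT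
      exact le_antisymm (fun u hu => hUT u hu) hU

end irred

end Pool.Agent.Helper907.Lat
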