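import Mathlib
import Pool.Agent.Helper907.LatB

set_option autoImplicit false

namespace Pool.Agent.Helper907.Lat

variable {F : (G : Type) → [Group G] → Prop}

/-- functions with values in `ZMod n`, on which a group acting on `Ω` acts -/
abbrev Fn (n : ℕ) (Ω : Type) : Type := Ω → ZMod n

namespace Fn

variable {n : ℕ} {Ω G : Type} [Group G] [MulAction G Ω]

lemma add_apply (f f' : Fn n Ω) (x : Ω) : (f + f') x = f x + f' x := rfl
lemma sub_apply (f f' : Fn n Ω) (x : Ω) : (f - f') x = f x - f' x := rfl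
lemma neg_apply (f : Fn n Ω) (x : Ω) : (-f) x = - f x := rfl
lemma zero_apply (x : Ω) : (0 : Fn n Ω) x = 0 := rfl
lemma nsmul_apply (k : ℕ) (f : Fn n Ω) (x : Ω) : (k • f) x = k • f x := rfl

instance : DistribMulAction G (Fn n Ω) where
  smul g f := fun x => f (g⁻¹ • x)
  one_smul f := by
    ext x
    show f ((1 : G)⁻¹ • x) = f x
    rw [inv_one, one_smul]
  mul_smul g h f := by
    ext x
    show f ((g * h)⁻¹ • x) = f (h⁻¹ • g⁻¹ • x)
    rw [mul_inv_rev, mul_smul]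
  smul_zero g := rfl
  smul_add g f f' := rfl

lemma smul_apply (g : G) (f : Fn n Ω) (x : Ω) : (g • f) x = f (g⁻¹ • x) := rfl

end Fn

lemma castHom_eq_zero {p : ℕ} [hp : Fact p.Prime] (a : ZMod (p ^ 2)) :
    ZMod.castHom (dvd_pow_self p (two_ne_zero)) (ZMod p) a = 0 ↔ (p : ZMod (p ^ 2)) * a = 0 := by
  have : NeZero (p ^ 2) := ⟨pow_ne_zero _ hp.out.ne_zero⟩
  obtain ⟨k, rfl⟩ : ∃ k : ℕ, (k : ZMod (p ^ 2)) = a := ⟨a.val, ZMod.natCast_zmod_val a⟩
  rw [map_natCast, ZMod.natCast_eq_zero_iff, ← Nat.cast_mul, ZMod.natCast_eq_zero_iff, pow_two]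
  exact ⟨fun h => Nat.mul_dvd_mul_left p h, fun h => Nat.dvd_of_mul_dvd_mul_left hp.out.pos h⟩

lemma exists_mu {G : Type} [Group G] [Finite G] {p : ℕ} [hp : Fact p.Prime] (c : G)
    (hc : orderOf c = p) : ∃ μ : G → ZMod p, ∀ x, μ (x * c) = μ x + 1 := by
  classical
  have h1 : ∀ x : G, ∃ k : ℤ, c ^ k = (Quotient.out (QuotientGroup.mk x : G ⧸ Subgroup.zpowers c))⁻¹ * x := by
    intro x
    have h2 : (QuotientGroup.mk (Quotient.out (QuotientGroup.mk x : G ⧸ Subgroup.zpowers c)) :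
        G ⧸ Subgroup.zpowers c) = QuotientGroup.mk x := Quotient.out_eq _
    rw [QuotientGroup.eq] at h2
    exact Subgroup.mem_zpowers_iff.mp h2
  choose k hk using h1
  refine ⟨fun x => (k x : ZMod p), ?_⟩
  intro x
  have h3 : (QuotientGroup.mk (x * c) : G ⧸ Subgroup.zpowers c) = QuotientGroup.mk x := by
    rw [eq_comm, QuotientGroup.eq, inv_mul_cancel_left]
    exact Subgroup.mem_zpowers c
  have h4 : c ^ (k (x * c)) = c ^ (k x + 1) := by
    rw [hk, h3, zpow_add, hk, zpow_one, mul_assoc]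
  have h5 := zpow_eq_zpow_iff_modEq.mp h4
  rw [hc] at h5
  have h6 := (ZMod.intCast_eq_intCast_iff _ _ _).mpr h5
  show ((k (x * c) : ℤ) : ZMod p) = (k x : ZMod p) + 1
  rw [h6]
  push_cast
  rfl

/-- a non-split extension and a minimal supplement in it -/
lemma exists_frat_ext (hF : Fm F) (G : Type) [Group G] [Finite G] (hG : F G) (p : ℕ)
    [hp : Fact p.Prime] (hdvd : p ∣ Nat.card G) :
    ∃ (H : Type) (_ : Group H) (_ : Finite H) (A : Subgroup H) (_ : A.Normal),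
      F H ∧ A ≠ ⊥ ∧ (∀ a ∈ A, ∀ b ∈ A, a * b = b * a) ∧ (∀ a ∈ A, a ^ p = 1) := by
  classical
  have : NeZero (p ^ 2) := ⟨pow_ne_zero _ hp.out.ne_zero⟩
  obtain ⟨c, hc⟩ := exists_prime_orderOf_dvd_card' p hdvd
  obtain ⟨μ, hμ⟩ := exists_mu c hc
  let ch := ZMod.castHom (dvd_pow_self p (two_ne_zero)) (ZMod p)
  let E : Subgroup (SD (Fn (p ^ 2) G) G) :=
    { carrier := {z | (∀ x, z.v (x * c) = z.v x) ∧ ∀ x, ch (z.v x) = μ x - μ (z.g⁻¹ * x)}
      one_mem' := by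
        refine ⟨fun x => rfl, fun x => ?_⟩
        rw [SD.one_g, inv_one, one_mul, sub_self, SD.one_v]
        exact map_zero ch
      mul_mem' := by
        rintro z z' ⟨h1, h2⟩ ⟨h3, h4⟩
        refine ⟨fun x => ?_, fun x => ?_⟩
        · show z.v (x * c) + z'.v (z.g⁻¹ * (x * c)) = z.v x + z'.v (z.g⁻¹ * x)
          rw [h1, ← mul_assoc, h3]
        · show ch (z.v x + z'.v (z.g⁻¹ * x)) = μ x - μ ((z.g * z'.g)⁻¹ * x)
          rw [map_add, h2, h4, mul_inv_rev, mul_assoc]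
          ring
      inv_mem' := by
        rintro z ⟨h1, h2⟩
        refine ⟨fun x => ?_, fun x => ?_⟩
        · show - z.v ((z.g⁻¹)⁻¹ * (x * c)) = - z.v ((z.g⁻¹)⁻¹ * x)
          rw [← mul_assoc, h1]
        · show ch (- z.v ((z.g⁻¹)⁻¹ * x)) = μ x - μ ((z.g⁻¹)⁻¹ * x)
          rw [map_neg, h2, inv_inv, inv_mul_cancel_left]
          ring }
  -- minimal supplement
  have hne : ({H : Subgroup (SD (Fn (p ^ 2) G) G) | H ≤ E ∧ ∀ g, ∃ h ∈ H, h.g = g}).Nonempty := by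
    refine ⟨E, le_rfl, ?_⟩
    intro g
    refine ⟨⟨fun x => ((μ x - μ (g⁻¹ * x)).val : ZMod (p ^ 2)), g⟩, ⟨fun x => ?_, fun x => ?_⟩, rfl⟩
    · show ((μ (x * c) - μ (g⁻¹ * (x * c))).val : ZMod (p ^ 2)) = ((μ x - μ (g⁻¹ * x)).val : ZMod (p ^ 2))
      rw [← mul_assoc, hμ, hμ, add_sub_add_right_eq_sub]
    · show ch ((μ x - μ (g⁻¹ * x)).val : ZMod (p ^ 2)) = μ x - μ (g⁻¹ * x)
      rw [map_natCast, ZMod.natCast_zmod_val]
  obtain ⟨H₀, ⟨hH₀E, hH₀g⟩, hmin⟩ := (Set.toFinite _).exists_minimal hne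
  let π₀ : H₀ →* G := SD.proj.comp H₀.subtype
  have hπ₀ : Function.Surjective π₀ := by
    intro g
    obtain ⟨h, hh, hg⟩ := hH₀g g
    exact ⟨⟨h, hh⟩, hg⟩
  have hpow : ∀ h ∈ H₀, h.g = c → ∀ k : ℕ, (h ^ k).v 1 = (k : ZMod (p ^ 2)) * h.v 1 := by
    intro h hh hg k
    induction k with
    | zero => simp
    | succ k ih =>
      have hps : h ^ (k + 1) = h * h ^ k := pow_succ' h k
      rw [hps]
      show h.v 1 + (h ^ k).v (h.g⁻¹ * 1) = _
      have h1 := (hH₀E (H₀.pow_mem hh k)).1 (c⁻¹)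
      rw [inv_mul_cancel] at h1
      rw [hg, mul_one, ← h1, ih]
      push_cast
      ring
  refine ⟨H₀, inferInstance, inferInstance, π₀.ker, inferInstance, ?_, ?_, ?_, ?_⟩
  · -- membership in F
    refine hF.satur H₀ ?_
    intro T hT
    refine ⟨G, inferInstance, π₀, hπ₀, hG, ?_⟩
    by_contra hcon
    push Not at hcon
    obtain ⟨x, hx, hxT⟩ := hcon
    have h1 : T ⊔ π₀.ker = ⊤ := by
      apply hT.2
      refine lt_of_le_of_ne le_sup_left ?_
      intro heq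
      apply hxT
      rw [heq]
      exact (le_sup_right : π₀.ker ≤ T ⊔ π₀.ker) hx
    have h2 : T.map π₀ = ⊤ := by
      have h3 : (T ⊔ π₀.ker).map π₀ = ⊤ := by
        rw [h1]; exact Subgroup.map_top_of_surjective _ hπ₀
      rw [Subgroup.map_sup] at h3
      have h4 : π₀.ker.map π₀ = ⊥ := by
        rw [Subgroup.map_eq_bot_iff]
      rw [h4, sup_bot_eq] at h3
      exact h3
    have h3 : T.map H₀.subtype ∈ {H : Subgroup (SD (Fn (p ^ 2) G) G) | H ≤ E ∧ ∀ g, ∃ h ∈ H, h.g = g} := by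
      refine ⟨(Subgroup.map_subtype_le T).trans hH₀E, ?_⟩
      intro g
      have : g ∈ T.map π₀ := by rw [h2]; trivial
      obtain ⟨t, ht, htg⟩ := this
      exact ⟨t, ⟨t, ht, rfl⟩, htg⟩
    have h4 := hmin h3 (Subgroup.map_subtype_le T)
    apply hT.1
    rw [eq_top_iff]
    rintro ⟨y, hy⟩ _
    obtain ⟨z, hz, hzy⟩ := h4 hy
    have : z = ⟨y, hy⟩ := Subtype.ext hzy
    rw [← this]; exact hz
  · intro hbot
    obtain ⟨h, hh, hg⟩ := hH₀g c
    have h1 : (⟨h, hh⟩ : H₀) ^ p ∈ π₀.ker := by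
      rw [MonoidHom.mem_ker, map_pow]
      show h.g ^ p = 1
      rw [hg, ← hc]; exact pow_orderOf_eq_one c
    rw [hbot, Subgroup.mem_bot] at h1
    have h2 : h ^ p = 1 := congrArg Subtype.val h1
    have h3 := hpow h hh hg p
    rw [h2] at h3
    have h4 : (p : ZMod (p ^ 2)) * h.v 1 = 0 := h3.symm
    rw [← castHom_eq_zero] at h4
    have h5 := (hH₀E hh).2 1
    have h6 : ch (h.v 1) = 0 := h4
    rw [h6, hg, mul_one] at h5
    have h7 := hμ c⁻¹
    rw [inv_mul_cancel] at h7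
    rw [h7] at h5
    have : (0 : ZMod p) = 1 := by
      rw [h5]; ring
    exact zero_ne_one this
  · rintro ⟨a, ha⟩ ha1 ⟨b, hb⟩ hb1
    have h1 : a.g = 1 := ha1
    have h2 : b.g = 1 := hb1
    apply Subtype.ext
    apply SD.ext
    · show a.v + a.g • b.v = b.v + b.g • a.v
      rw [h1, h2, one_smul, one_smul, add_comm]
    · show a.g * b.g = b.g * a.g
      rw [h1, h2]
  · rintro ⟨a, ha⟩ ha1
    have h1 : a.g = 1 := ha1
    have h2 : ∀ x, (p : ZMod (p ^ 2)) * a.v x = 0 := by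
      intro x
      rw [← castHom_eq_zero]
      have := (hH₀E ha).2 x
      rw [h1, inv_one, one_mul, sub_self] at this
      exact this
    have h3 : ∀ k : ℕ, (a ^ k).g = 1 ∧ ∀ x, (a ^ k).v x = (k : ZMod (p ^ 2)) * a.v x := by
      intro k
      induction k with
      | zero => exact ⟨rfl, fun x => by simp⟩
      | succ k ih =>
        have hps : a ^ (k + 1) = a * a ^ k := pow_succ' a k
        refine ⟨?_, fun x => ?_⟩
        · rw [hps, SD.mul_g, ih.1, h1, mul_one]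
        · rw [hps]
          show a.v x + (a ^ k).v (a.g⁻¹ * x) = _
          rw [h1, inv_one, one_mul, ih.2]
          push_cast
          ring
    apply Subtype.ext
    show a ^ p = 1
    apply SD.ext
    · ext x
      rw [(h3 p).2, h2]
      rfl
    · exact (h3 p).1

end Pool.Agent.Helper907.Lat
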