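import Mathlib
import Pool.Agent.Helper907.LatC

set_option autoImplicit false

namespace Pool.Agent.Helper907.Lat

variable {F : (G : Type) → [Group G] → Prop}

/-- the affine action -/
instance SD.affine {V G : Type} [AddCommGroup V] [Group G] [DistribMulAction G V] :
    MulAction (SD V G) V where
  smul x v := x.v + x.g • v
  one_smul v := by
    show (0 : V) + (1 : G) • v = v
    rw [one_smul, zero_add]
  mul_smul x y v := by
    show (x.v + x.g • y.v) + (x.g * y.g) • v = x.v + x.g • (y.v + y.g • v)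
    rw [smul_add, mul_smul, add_assoc]

lemma SD.affine_apply {V G : Type} [AddCommGroup V] [Group G] [DistribMulAction G V]
    (x : SD V G) (v : V) : x • v = x.v + x.g • v := rfl

open Classical in
/-- delta functions -/
noncomputable def dl {n : ℕ} {Ω : Type} (a : Ω) : Fn n Ω := fun x => if x = a then 1 else 0

lemma dl_self {n : ℕ} {Ω : Type} (a : Ω) : (dl a : Fn n Ω) a = 1 := if_pos rfl

lemma dl_ne {n : ℕ} {Ω : Type} {a x : Ω} (h : x ≠ a) : (dl a : Fn n Ω) x = 0 := if_neg h

lemma smul_dl {n : ℕ} {Ω G : Type} [Group G] [MulAction G Ω] (g : G) (a : Ω) :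
    g • (dl a : Fn n Ω) = dl (g • a) := by
  ext x
  rw [Fn.smul_apply]
  by_cases h : x = g • a
  · subst h
    rw [inv_smul_smul, dl_self, dl_self]
  · rw [dl_ne h, dl_ne]
    intro h2
    apply h
    rw [← h2, smul_inv_smul]

/-- the sum of the values -/
def eps {n : ℕ} {Ω : Type} [Fintype Ω] : Fn n Ω →+ ZMod n where
  toFun f := ∑ x, f x
  map_zero' := by
    show ∑ x : Ω, (0 : ZMod n) = 0
    simp
  map_add' f f' := by
    show ∑ x : Ω, (f x + f' x) = _
    exact Finset.sum_add_distrib

lemma eps_apply {n : ℕ} {Ω : Type} [Fintype Ω] (f : Fn n Ω) : eps f = ∑ x, f x := rfl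

lemma eps_smul {n : ℕ} {Ω G : Type} [Fintype Ω] [Group G] [MulAction G Ω] (g : G) (f : Fn n Ω) :
    eps (g • f) = eps f := by
  rw [eps_apply, eps_apply]
  exact Fintype.sum_equiv (MulAction.toPerm g⁻¹) _ _ (fun x => rfl)

lemma eps_dl {n : ℕ} {Ω : Type} [Fintype Ω] (a : Ω) : eps (dl a : Fn n Ω) = 1 := by
  rw [eps_apply, Finset.sum_eq_single a]
  · exact dl_self a
  · intro b _ hb
    exact dl_ne hb
  · intro h; exact absurd (Finset.mem_univ a) h

lemma fn_exp {p : ℕ} {Ω : Type} (f : Fn p Ω) : p • f = 0 := by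
  ext x
  rw [Fn.nsmul_apply]
  simp

lemma fn_decomp {p : ℕ} [NeZero p] {Ω : Type} [Fintype Ω] (f : Fn p Ω) (o : Ω) :
    f = ∑ a : Ω, (f a).val • (dl a - dl o : Fn p Ω) + (eps f).val • dl o := by
  classical
  have hap : ∀ (s : Finset Ω) (φ : Ω → Fn p Ω) (x : Ω), (∑ a ∈ s, φ a) x = ∑ a ∈ s, φ a x := by
    intro s φ x
    exact Finset.sum_apply x s φ
  ext x
  rw [Fn.add_apply, hap]
  have h1 : ∀ a : Ω, ((f a).val • (dl a - dl o : Fn p Ω)) x
      = f a * (dl a : Fn p Ω) x - f a * (dl o : Fn p Ω) x := by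
    intro a
    rw [Fn.nsmul_apply, Fn.sub_apply, nsmul_eq_mul, ZMod.natCast_zmod_val]
    ring
  rw [Finset.sum_congr rfl (fun a _ => h1 a), Finset.sum_sub_distrib, ← Finset.sum_mul,
    Fn.nsmul_apply, nsmul_eq_mul, ZMod.natCast_zmod_val, eps_apply]
  have h2 : ∑ a : Ω, f a * (dl a : Fn p Ω) x = f x := by
    rw [Finset.sum_eq_single x]
    · rw [dl_self, mul_one]
    · intro b _ hb
      rw [dl_ne (Ne.symm hb), mul_zero]
    · intro h; exact absurd (Finset.mem_univ x) h
  rw [h2]
  ring

/-- the kernel of the projection is an elementary abelian group -/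
lemma ker_proj_isPGroup {V G : Type} [AddCommGroup V] [Group G] [DistribMulAction G V] (p : ℕ)
    (hV : ∀ v : V, p • v = 0) : IsPGroup p (SD.proj (V := V) (G := G)).ker := by
  rintro ⟨⟨v, g⟩, hg⟩
  have hg1 : g = 1 := hg
  subst hg1
  refine ⟨1, ?_⟩
  apply Subtype.ext
  show (⟨v, 1⟩ : SD V G) ^ (p ^ 1) = 1
  have : ∀ k : ℕ, (⟨v, 1⟩ : SD V G) ^ k = ⟨k • v, 1⟩ := by
    intro k
    induction k with
    | zero => 
      rw [pow_zero, zero_smul]; rfl
    | succ k ih =>
      rw [pow_succ, ih]
      apply SD.ext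
      · simp [succ_nsmul]
      · simp
  rw [this, pow_one, hV]
  rfl

lemma card_dvd_of_exp {V : Type} [AddCommGroup V] [Finite V] [Nontrivial V] (p : ℕ)
    [hp : Fact p.Prime] (hV : ∀ v : V, p • v = 0) : p ∣ Nat.card V := by
  obtain ⟨x, hx⟩ := exists_ne (0 : V)
  have h1 : addOrderOf x = p := addOrderOf_eq_prime (hV x) hx
  rw [← h1]
  exact addOrderOf_dvd_natCard x

lemma cp_mem_of_SD (hF : Fm F) {V G : Type} [AddCommGroup V] [Group G] [DistribMulAction G V]
    [Finite V] [Finite G] [Nontrivial V] (p : ℕ) [hp : Fact p.Prime] (hV : ∀ v : V, p • v = 0)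
    (hX : F (SD V G)) : F (Multiplicative (ZMod p)) := by
  classical
  have : NeZero p := ⟨hp.out.ne_zero⟩
  have := Fintype.ofFinite V
  let Δ : ISub (SD V G) (Fn p V) :=
    { c := (eps (n := p) (Ω := V)).ker
      inv := by
        intro g v hv
        rw [AddMonoidHom.mem_ker] at hv ⊢
        rw [eps_smul, hv] }
  have hΔexp : ∀ v : Δ.Ty, p • v = 0 := by
    intro v
    apply Δ.ι_inj
    rw [map_nsmul, fn_exp, map_zero]
  let d : V → Δ.Ty := fun a => Δ.mk' (dl a - dl 0) (by
    rw [AddMonoidHom.mem_ker, map_sub, eps_dl, eps_dl, sub_self])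
  have hd : ∀ a, Δ.ι (d a) = dl a - dl 0 := fun a => rfl
  have hdec : ∀ f : Δ.Ty, f = ∑ a : V, ((Δ.ι f) a).val • d a := by
    intro f
    apply Δ.ι_inj
    rw [map_sum]
    have h1 := fn_decomp (Δ.ι f) 0
    have h2 : eps (Δ.ι f) = 0 := Δ.ι_mem f
    rw [h2, ZMod.val_zero, zero_smul, add_zero] at h1
    rw [Finset.sum_congr rfl (fun a _ => by rw [map_nsmul, hd])]
    exact h1
  let B : Subgroup (SD V G) := (SD.proj (V := V) (G := G)).ker
  have hBp : IsPGroup p B := ker_proj_isPGroup p hV
  have hY : F (SD Δ.Ty (SD V G)) := by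
    refine hF.satur _ ?_
    intro T hT
    by_cases h : ∃ v : Δ.Ty, (⟨v, 1⟩ : SD Δ.Ty (SD V G)) ∉ T
    · obtain ⟨V₀, hV₀T, hmax⟩ := coatom_inter T hT h
      have htriv := normal_p_trivial p hΔexp B hBp V₀ hmax
      -- the hom
      have hadd : ∀ a b : V, V₀.π (d (a + b)) = V₀.π (d a) + V₀.π (d b) := by
        intro a b
        have h1 : (⟨a, 1⟩ : SD V G) • d b - d b ∈ V₀.c := htriv _ rfl _
        have h2 : (⟨a, 1⟩ : SD V G) • d b = d (a + b) - d a := by
          apply Δ.ι_inj
          rw [ISub.ι_smul, hd, map_sub, hd, hd, smul_sub, smul_dl, smul_dl, SD.affine_apply,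
            SD.affine_apply]
          simp
        rw [h2] at h1
        have h3 := (V₀.π_eq_zero _).mpr h1
        rw [map_sub, map_sub, sub_eq_zero, sub_eq_iff_eq_add] at h3
        rw [h3, add_comm]
      let θ : V →+ V₀.Qt := AddMonoidHom.mk' (fun a => V₀.π (d a)) hadd
      have hS : F (SD V₀.Qt (SD V G)) := by
        refine hF.fiber (H := SD V G) (G := SD V G) B (MonoidHom.id _) (fun x => ⟨x, rfl⟩)
          (fun b => θ b.1.v) ?_ ?_ ?_ hX
        · rintro ⟨⟨a, ga⟩, ha⟩ ⟨⟨b, gb⟩, hb⟩
          have h1 : ga = 1 := ha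
          subst h1
          show θ (a + (1 : G) • b) = θ a + θ b
          rw [one_smul, map_add]
        · intro q
          obtain ⟨f, rfl⟩ := V₀.π_surj q
          refine ⟨⟨⟨∑ a : V, ((Δ.ι f) a).val • a, 1⟩, rfl⟩, ?_⟩
          show θ (∑ a : V, ((Δ.ι f) a).val • a) = V₀.π f
          rw [map_sum]
          conv_rhs => rw [hdec f, map_sum]
          refine Finset.sum_congr rfl (fun a _ => ?_)
          rw [map_nsmul, map_nsmul]
          rfl
        · rintro h ⟨⟨a, ga⟩, ha⟩ ⟨⟨b, gb⟩, hb⟩ hab
          have h1 : ga = 1 := ha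
          subst h1
          have h2 : (⟨b, gb⟩ : SD V G) = ⟨h.g • a, 1⟩ := by
            rw [← SD.conj_inl]; exact hab
          have h3 : b = h.g • a := congrArg SD.v h2
          show V₀.π (d b) = h • V₀.π (d a)
          rw [ISub.smul_π, h3]
          have h4 : (⟨h.v, 1⟩ : SD V G) • d (h.g • a) - d (h.g • a) ∈ V₀.c := htriv _ rfl _
          have h5 : (⟨h.v, 1⟩ : SD V G) • d (h.g • a) = h • d a := by
            apply Δ.ι_inj
            rw [ISub.ι_smul, ISub.ι_smul, hd, hd, smul_sub, smul_sub, smul_dl, smul_dl, smul_dl,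
              smul_dl]
            simp only [SD.affine_apply, one_smul, smul_zero, add_zero]
          rw [h5] at h4
          exact ((V₀.π_eq _ _).mpr h4).symm
      refine ⟨SD V₀.Qt (SD V G), inferInstance,
        SD.map V₀.π (MonoidHom.id _) (fun g v => rfl), ?_, hS, ?_⟩
      · rintro ⟨q, x⟩
        obtain ⟨f, rfl⟩ := V₀.π_surj q
        exact ⟨⟨f, x⟩, rfl⟩
      · rintro ⟨f, x⟩ hx
        have h1 : V₀.π f = 0 := congrArg SD.v hx
        have h2 : x = 1 := congrArg SD.g hx
        subst h2
        exact (hV₀T f).mp ((V₀.π_eq_zero f).mp h1)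
    · push Not at h
      refine ⟨SD V G, inferInstance, SD.proj, SD.proj_surj, hX, ?_⟩
      rintro ⟨v, g⟩ hg
      have hg1 : g = 1 := hg
      subst hg1
      exact h v
  -- the constant function
  let one : Δ.Ty := Δ.mk' (fun _ => 1 : Fn p V) (by
    show eps (fun _ => 1 : Fn p V) = 0
    rw [eps_apply]
    show ∑ x : V, (1 : ZMod p) = 0
    rw [Finset.sum_const, Finset.card_univ, nsmul_eq_mul, mul_one, ← Nat.card_eq_fintype_card,
      ZMod.natCast_eq_zero_iff]
    exact card_dvd_of_exp p hV)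
  have hone : ∀ x : SD V G, x • one = one := fun x => Δ.ι_inj rfl
  have hone0 : one ≠ 0 := by
    intro h
    have h1 := congrArg Δ.ι h
    have h2 : (1 : ZMod p) = 0 := congrFun h1 0
    exact one_ne_zero h2
  let z : SD Δ.Ty (SD V G) := ⟨one, 1⟩
  have hz : z ∈ Subgroup.center (SD Δ.Ty (SD V G)) := by
    rw [Subgroup.mem_center_iff]
    rintro ⟨f, x⟩
    apply SD.ext
    · show f + x • one = one + (1 : SD V G) • f
      rw [hone, one_smul, add_comm]
    · show x * 1 = 1 * x
      rw [mul_one, one_mul]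
  have hzle : Subgroup.zpowers z ≤ Subgroup.center _ := by
    rw [Subgroup.zpowers_le]; exact hz
  have hzord : orderOf z = p := by
    apply orderOf_eq_prime
    · have : ∀ k : ℕ, z ^ k = ⟨k • one, 1⟩ := by
        intro k
        induction k with
        | zero => rw [pow_zero, zero_smul]; rfl
        | succ k ih =>
          rw [pow_succ, ih]
          apply SD.ext
          · show k • one + (1 : SD V G) • one = (k + 1) • one
            rw [one_smul, succ_nsmul]
          · exact mul_one _
      rw [this, hΔexp]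
      rfl
    · intro h
      exact hone0 (congrArg SD.v h)
  have hFz := hF.central (Subgroup.zpowers z) hzle hY
  have hc1 : Nat.card (Subgroup.zpowers z) = p := by rw [Nat.card_zpowers, hzord]
  have hc2 : Nat.card (Multiplicative (ZMod p)) = p := by
    rw [Nat.card_congr Multiplicative.toAdd, Nat.card_zmod]
  exact hF.iso _ _ ⟨mulEquivOfPrimeCardEq hc1 hc2⟩ hFz

/-- primes dividing the order of a group in a saturated formation -/
lemma cp_mem (hF : Fm F) (G : Type) [Group G] [Finite G] (hG : F G) (p : ℕ)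
    [hp : Fact p.Prime] (hdvd : p ∣ Nat.card G) : F (Multiplicative (ZMod p)) := by
  obtain ⟨H, hH, hHf, A, hA, hFH, hAne, hAc, hAp⟩ := exists_frat_ext hF G hG p hdvd
  letI : CommGroup A := { (inferInstance : Group A) with
    mul_comm := fun a b => Subtype.ext (hAc a.1 a.2 b.1 b.2) }
  letI act : DistribMulAction H (Additive A) :=
    { smul := fun h a => Additive.ofMul ⟨h * a.toMul.1 * h⁻¹, hA.conj_mem _ a.toMul.2 h⟩
      one_smul := by
        intro a
        apply Additive.toMul.injective
        apply Subtype.ext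
        show 1 * a.toMul.1 * 1⁻¹ = a.toMul.1
        simp
      mul_smul := by
        intro g h a
        apply Additive.toMul.injective
        apply Subtype.ext
        show (g * h) * a.toMul.1 * (g * h)⁻¹ = g * (h * a.toMul.1 * h⁻¹) * g⁻¹
        group
      smul_zero := by
        intro g
        apply Additive.toMul.injective
        apply Subtype.ext
        show g * 1 * g⁻¹ = 1
        simp
      smul_add := by
        intro g a b
        apply Additive.toMul.injective
        apply Subtype.ext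
        show g * (a.toMul.1 * b.toMul.1) * g⁻¹ = (g * a.toMul.1 * g⁻¹) * (g * b.toMul.1 * g⁻¹)
        group }
  have hX : F (SD (Additive A) H) := by
    refine hF.fiber (H := H) (G := H) A (MonoidHom.id H) (fun x => ⟨x, rfl⟩)
      (fun a => Additive.ofMul a) (fun a b => rfl) (fun a => ⟨a.toMul, rfl⟩) ?_ hFH
    intro h a b hab
    apply Additive.toMul.injective
    apply Subtype.ext
    exact hab
  have hnt : Nontrivial (Additive A) := by
    have : Nontrivial A := (Subgroup.nontrivial_iff_ne_bot A).mpr hAne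
    exact inferInstance
  refine cp_mem_of_SD hF (V := Additive A) (G := H) p ?_ hX
  intro v
  apply Additive.toMul.injective
  apply Subtype.ext
  exact hAp v.toMul.1 v.toMul.2

end Pool.Agent.Helper907.Lat
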