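import Mathlib
import Pool.Agent.Helper907.LatD

set_option autoImplicit false

namespace Pool.Agent.Helper907.Lat

variable {F : (G : Type) → [Group G] → Prop}

/-- If every maximal invariant subgroup is the kernel of an invariant functional, the semidirect
product is in the class. -/
lemma head_trivial (hF : Fm F) {V X : Type} [AddCommGroup V] [Group X] [DistribMulAction X V]
    [Finite V] [Finite X] (p : ℕ) [hp : Fact p.Prime] (lam : V →+ ZMod p)
    (hinv : ∀ (x : X) (v : V), lam (x • v) = lam v) (v₀ : V) (hv₀ : lam v₀ ≠ 0)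
    (hmax : ∀ V₀ : ISub X V, IMax V₀ → ∀ v, lam v = 0 → v ∈ V₀.c)
    (hX : F X) (hC : F (Multiplicative (ZMod p))) : F (SD V X) := by
  classical
  have : NeZero p := ⟨hp.out.ne_zero⟩
  have hprod : F (Multiplicative (ZMod p) × X) :=
    hF.sub2 (MonoidHom.fst _ _) (MonoidHom.snd _ _) (fun x => ⟨(x, 1), rfl⟩)
      (fun x => ⟨(1, x), rfl⟩) hC hX (fun x h1 h2 => Prod.ext h1 h2)
  refine hF.satur _ ?_
  intro T hT
  by_cases h : ∃ v : V, (⟨v, 1⟩ : SD V X) ∉ T
  · obtain ⟨V₀, hV₀T, hm⟩ := coatom_inter T hT h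
    let f : SD V X →* (Multiplicative (ZMod p) × X) :=
      { toFun := fun x => (Multiplicative.ofAdd (lam x.v), x.g)
        map_one' := by
          rw [SD.one_v, map_zero]
          rfl
        map_mul' := by
          intro x y
          rw [SD.mul_v, map_add, hinv]
          rfl }
    refine ⟨_, inferInstance, f, ?_, hprod, ?_⟩
    · rintro ⟨a, x⟩
      refine ⟨⟨((a.toAdd * (lam v₀)⁻¹).val) • v₀, x⟩, ?_⟩
      have h1 : lam (((a.toAdd * (lam v₀)⁻¹).val) • v₀) = a.toAdd := by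
        rw [map_nsmul, nsmul_eq_mul, ZMod.natCast_zmod_val, mul_assoc, inv_mul_cancel₀ hv₀, mul_one]
      exact Prod.ext (congrArg Multiplicative.ofAdd h1) rfl
    · rintro ⟨v, x⟩ hx
      have h1 : lam v = 0 := congrArg (fun z => (z.1).toAdd) hx
      have h2 : x = 1 := congrArg Prod.snd hx
      subst h2
      exact (hV₀T v).mp (hmax V₀ hm v h1)
  · push Not at h
    refine ⟨X, inferInstance, SD.proj, SD.proj_surj, hX, ?_⟩
    rintro ⟨v, g⟩ hg
    have hg1 : g = 1 := hg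
    subst hg1
    exact h v

/-- the projective cover of the trivial module -/
lemma exists_Q (hF : Fm F) {G : Type} [Group G] [Finite G] (hG : F G) (p : ℕ)
    [hp : Fact p.Prime] (hC : F (Multiplicative (ZMod p)))
    (hN : ∀ N : Subgroup G, N.Normal → N ≠ ⊥ → p ∣ Nat.card N) :
    ∃ Q : ISub G (Fn p G), F (SD Q.Ty G) ∧ ∀ g : G, (∀ q : Q.Ty, g • q = q) → g = 1 := by
  classical
  have : NeZero p := ⟨hp.out.ne_zero⟩
  have := Fintype.ofFinite G
  have hne : ({C : AddSubgroup (Fn p G) | (∀ (g : G) (v : Fn p G), v ∈ C → g • v ∈ C) ∧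
      ∃ q ∈ C, eps q ≠ 0}).Nonempty :=
    ⟨⊤, fun _ _ _ => trivial, dl 1, trivial, by rw [eps_dl]; exact one_ne_zero⟩
  obtain ⟨C, ⟨hC1, q₀, hq₀, hq₀e⟩, hmin⟩ := (Set.toFinite _).exists_minimal hne
  let Q : ISub G (Fn p G) := ⟨C, hC1⟩
  refine ⟨Q, ?_, ?_⟩
  · refine head_trivial hF p ((eps (n := p) (Ω := G)).comp Q.ι) ?_ (Q.mk' q₀ hq₀) hq₀e ?_ hG hC
    · intro g q
      show eps (Q.ι (g • q)) = eps (Q.ι q)
      rw [ISub.ι_smul, eps_smul]
    · intro V₀ hm q hq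
      have hsmall : ∀ w ∈ V₀.c, eps (Q.ι w) = 0 := by
        by_contra hcon
        push Not at hcon
        obtain ⟨w, hw, hwe⟩ := hcon
        have h1 : V₀.c.map Q.ι ∈ {C : AddSubgroup (Fn p G) |
            (∀ (g : G) (v : Fn p G), v ∈ C → g • v ∈ C) ∧ ∃ q ∈ C, eps q ≠ 0} := by
          refine ⟨?_, Q.ι w, ⟨w, hw, rfl⟩, hwe⟩
          rintro g _ ⟨u, hu, rfl⟩
          exact ⟨g • u, V₀.inv g u hu, rfl⟩
        have h2 : V₀.c.map Q.ι ≤ C := by
          rintro _ ⟨u, hu, rfl⟩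
          exact Q.ι_mem u
        have h3 := hmin h1 h2
        apply hm.1
        rw [eq_top_iff]
        intro u _
        obtain ⟨u', hu', hu'e⟩ := h3 (Q.ι_mem u)
        rw [← Q.ι_inj hu'e]
        exact hu'
      let K : ISub G Q.Ty :=
        { c := ((eps (n := p) (Ω := G)).comp Q.ι).ker
          inv := by
            intro g v hv
            rw [AddMonoidHom.mem_ker] at hv ⊢
            show eps (Q.ι (g • v)) = 0
            rw [ISub.ι_smul, eps_smul]
            exact hv }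
      rcases hm.2 K (fun w hw => hsmall w hw) with h | h
      · rw [← h]; exact hq
      · exfalso
        apply hq₀e
        have : Q.mk' q₀ hq₀ ∈ K.c := by rw [h]; trivial
        exact this
  · intro g hg
    let K : Subgroup G :=
      { carrier := {g | ∀ q : Q.Ty, g • q = q}
        one_mem' := fun q => one_smul G q
        mul_mem' := by
          intro a b ha hb q
          rw [mul_smul, hb, ha]
        inv_mem' := by
          intro a ha q
          rw [inv_smul_eq_iff, ha] }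
    have hKn : K.Normal := by
      refine ⟨?_⟩
      intro n hn g q
      rw [mul_smul, mul_smul, hn, smul_inv_smul]
    by_contra hg1
    have hKne : K ≠ ⊥ := by
      intro h
      have : g ∈ K := hg
      rw [h, Subgroup.mem_bot] at this
      exact hg1 this
    have hdvd := hN K hKn hKne
    apply hq₀e
    have hq₀K : ∀ k ∈ K, ∀ x : G, q₀ (x * k) = q₀ x := by
      intro k hk x
      have h1 : x * k * x⁻¹ ∈ K := hKn.conj_mem k hk x
      have h2 := congrArg Q.ι (h1 (Q.mk' q₀ hq₀))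
      have h3 : (x * k * x⁻¹) • q₀ = q₀ := h2
      have h4 := congrFun h3 (x * k)
      rw [Fn.smul_apply] at h4
      rw [← h4]
      congr 1
      simp [mul_assoc]
    rw [eps_apply, ← Finset.sum_fiberwise Finset.univ (fun x : G => (QuotientGroup.mk x : G ⧸ K))]
    apply Finset.sum_eq_zero
    intro j _
    obtain ⟨x₀, rfl⟩ := QuotientGroup.mk_surjective j
    have h5 : ∑ i ∈ Finset.univ.filter (fun i : G => (QuotientGroup.mk i : G ⧸ K) = QuotientGroup.mk x₀),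
        q₀ i = ∑ k : K, q₀ (x₀ * (k : G)) := by
      symm
      refine Finset.sum_bij (fun (k : K) _ => x₀ * (k : G)) ?_ ?_ ?_ ?_
      · intro k _
        rw [Finset.mem_filter]
        refine ⟨Finset.mem_univ _, ?_⟩
        rw [eq_comm, QuotientGroup.eq, inv_mul_cancel_left]
        exact k.2
      · intro a _ b _ hab
        exact Subtype.ext (mul_left_cancel hab)
      · intro b hb
        rw [Finset.mem_filter] at hb
        have h6 := hb.2
        rw [eq_comm, QuotientGroup.eq] at h6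
        exact ⟨⟨x₀⁻¹ * b, h6⟩, Finset.mem_univ _, mul_inv_cancel_left _ _⟩
      · intro k _
        rfl
    rw [h5, Finset.sum_congr rfl (fun (k : K) _ => hq₀K k k.2 x₀), Finset.sum_const,
      Finset.card_univ, ← Nat.card_eq_fintype_card, nsmul_eq_mul,
      (ZMod.natCast_eq_zero_iff _ _).mpr hdvd, zero_mul]

/-- The regular module is `F`-central. -/
lemma regular_mem (hF : Fm F) {G : Type} [Group G] [Finite G] (hG : F G) (p : ℕ)
    [hp : Fact p.Prime] (hC : F (Multiplicative (ZMod p)))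
    (hN : ∀ N : Subgroup G, N.Normal → N ≠ ⊥ → p ∣ Nat.card N) : F (SD (Fn p G) G) := by
  classical
  have : NeZero p := ⟨hp.out.ne_zero⟩
  have := Fintype.ofFinite G
  obtain ⟨Q, hQF, hfaith⟩ := exists_Q hF hG p hC hN
  -- the group `X`
  have hX : F (SD (Q.Ty → Q.Ty) G) := by
    obtain ⟨R, hR, hRF, hmin⟩ := hF.exists_res (SD (Q.Ty → Q.Ty) G)
    refine hF.ofbot R ?_ hRF
    rw [eq_bot_iff]
    intro x hx
    have h1 : ∀ i : Q.Ty, x.v i = 0 ∧ x.g = 1 := by
      intro i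
      let f : SD (Q.Ty → Q.Ty) G →* SD Q.Ty G :=
        SD.map (Pi.evalAddMonoidHom (fun _ : Q.Ty => Q.Ty) i) (MonoidHom.id G) (fun g v => rfl)
      have hf : Function.Surjective f := by
        rintro ⟨q, g⟩
        exact ⟨⟨fun _ => q, g⟩, rfl⟩
      have h2 := hmin f.ker (hF.ofker f hf hQF) hx
      rw [MonoidHom.mem_ker] at h2
      exact ⟨congrArg SD.v h2, congrArg SD.g h2⟩
    rw [Subgroup.mem_bot]
    apply SD.ext
    · funext i
      exact (h1 i).1
    · exact (h1 0).2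
  -- the permutation module
  have hBexp : ∀ b : Q.Ty → Q.Ty, p • b = 0 := by
    intro b
    funext i
    show p • b i = 0
    apply Q.ι_inj
    rw [map_nsmul, fn_exp, map_zero]
  have hBp : IsPGroup p (SD.proj (V := Q.Ty → Q.Ty) (G := G)).ker := ker_proj_isPGroup p hBexp
  have hfinB : Finite (Q.Ty → Q.Ty) := inferInstance
  have := Fintype.ofFinite (Q.Ty → Q.Ty)
  have hP : F (SD (Fn p (Q.Ty → Q.Ty)) (SD (Q.Ty → Q.Ty) G)) := by
    refine head_trivial hF p (eps (n := p) (Ω := Q.Ty → Q.Ty)) (fun x v => eps_smul x v) (dl 0)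
      (by rw [eps_dl]; exact one_ne_zero) ?_ hX hC
    intro V₀ hm f hf
    have htriv := normal_p_trivial p (fun v => fn_exp v) _ hBp V₀ hm
    rw [fn_decomp f 0, hf, ZMod.val_zero, zero_smul, add_zero]
    refine V₀.c.sum_mem (fun a _ => V₀.c.nsmul_mem ?_ _)
    have h1 : (⟨a, 1⟩ : SD (Q.Ty → Q.Ty) G) • (dl 0 : Fn p (Q.Ty → Q.Ty)) - dl 0 ∈ V₀.c :=
      htriv _ rfl _
    rw [smul_dl, SD.affine_apply, smul_zero, add_zero] at h1
    exact h1
  -- now the regular module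
  refine hF.satur _ ?_
  intro T hT
  by_cases h : ∃ v : Fn p G, (⟨v, 1⟩ : SD (Fn p G) G) ∉ T
  swap
  · push Not at h
    refine ⟨G, inferInstance, SD.proj, SD.proj_surj, hG, ?_⟩
    rintro ⟨v, g⟩ hg
    have hg1 : g = 1 := hg
    subst hg1
    exact h v
  obtain ⟨V₀, hV₀T, hm⟩ := coatom_inter T hT h
  let ω₀ : Q.Ty → Q.Ty := fun i => i
  have hinj : Function.Injective (fun g : G => g • ω₀) := by
    intro g h hgh
    have h1 : ∀ q : Q.Ty, (h⁻¹ * g) • q = q := by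
      intro q
      have h2 : g • q = h • q := congrFun hgh q
      rw [mul_smul, h2, inv_smul_smul]
    have h3 := hfaith _ h1
    rw [inv_mul_eq_one] at h3
    exact h3.symm
  let θP : Fn p (Q.Ty → Q.Ty) →+ Fn p G :=
    { toFun := fun f g => f (g • ω₀)
      map_zero' := rfl
      map_add' := fun _ _ => rfl }
  let θS : Fn p (Q.Ty → Q.Ty) →+ V₀.Qt := V₀.π.comp θP
  have hθPs : Function.Surjective θP := by
    intro w
    refine ⟨Function.extend (fun g : G => g • ω₀) w 0, ?_⟩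
    funext g
    exact hinj.extend_apply w 0 g
  have hθSs : Function.Surjective θS := V₀.π_surj.comp hθPs
  have hθeq : ∀ (g : G) (f : Fn p (Q.Ty → Q.Ty)),
      θS ((⟨0, g⟩ : SD (Q.Ty → Q.Ty) G) • f) = g • θS f := by
    intro g f
    show V₀.π (θP _) = g • V₀.π (θP f)
    rw [ISub.smul_π]
    congr 1
    funext h
    show f ((⟨0, g⟩ : SD (Q.Ty → Q.Ty) G)⁻¹ • (h • ω₀)) = f ((g⁻¹ * h) • ω₀)
    congr 1
    rw [SD.affine_apply, SD.inv_v, SD.inv_g, smul_zero, neg_zero, zero_add, mul_smul]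
  -- minimal invariant subgroup with nonzero image
  have hQtne : ∃ s : V₀.Qt, s ≠ 0 := by
    by_contra hcon
    push Not at hcon
    apply hm.1
    rw [eq_top_iff]
    intro v _
    rw [← ISub.π_eq_zero]
    exact hcon _
  have hne : ({C : AddSubgroup (Fn p (Q.Ty → Q.Ty)) |
      (∀ (g : SD (Q.Ty → Q.Ty) G) (v : Fn p (Q.Ty → Q.Ty)), v ∈ C → g • v ∈ C) ∧
      ∃ q ∈ C, θS q ≠ 0}).Nonempty := by
    obtain ⟨s, hs⟩ := hQtne
    obtain ⟨f, rfl⟩ := hθSs s
    exact ⟨⊤, fun _ _ _ => trivial, f, trivial, hs⟩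
  obtain ⟨C, ⟨hC1, q₀, hq₀, hq₀e⟩, hmin⟩ := (Set.toFinite _).exists_minimal hne
  let P₁ : ISub (SD (Q.Ty → Q.Ty) G) (Fn p (Q.Ty → Q.Ty)) := ⟨C, hC1⟩
  have hBtriv : ∀ b ∈ (SD.proj (V := Q.Ty → Q.Ty) (G := G)).ker, ∀ f ∈ C, θS (b • f) = θS f := by
    let U₀ : ISub (SD (Q.Ty → Q.Ty) G) P₁.Ty :=
      ⟨⊥, by
        intro g v hv
        rw [AddSubgroup.mem_bot] at hv ⊢
        rw [hv, smul_zero]⟩
    have hU₀ : U₀.c ≠ ⊤ := by
      intro h
      have h1 : P₁.mk' q₀ hq₀ ∈ U₀.c := by rw [h]; trivial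
      have h2 : P₁.mk' q₀ hq₀ = 0 := h1
      apply hq₀e
      have h3 : q₀ = 0 := congrArg P₁.ι h2
      rw [h3, map_zero]
    obtain ⟨V₁, -, hm₁⟩ := exists_IMax U₀ hU₀
    have hP₁exp : ∀ v : P₁.Ty, p • v = 0 := by
      intro v
      apply P₁.ι_inj
      rw [map_nsmul, fn_exp, map_zero]
    have htriv := normal_p_trivial p hP₁exp _ hBp V₁ hm₁
    have hV₁ : ∀ v ∈ V₁.c, θS (P₁.ι v) = 0 := by
      by_contra hcon
      push Not at hcon
      obtain ⟨w, hw, hwe⟩ := hcon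
      have h1 : V₁.c.map P₁.ι ∈ {C : AddSubgroup (Fn p (Q.Ty → Q.Ty)) |
          (∀ (g : SD (Q.Ty → Q.Ty) G) (v : Fn p (Q.Ty → Q.Ty)), v ∈ C → g • v ∈ C) ∧
          ∃ q ∈ C, θS q ≠ 0} := by
        refine ⟨?_, P₁.ι w, ⟨w, hw, rfl⟩, hwe⟩
        rintro g _ ⟨u, hu, rfl⟩
        exact ⟨g • u, V₁.inv g u hu, rfl⟩
      have h2 : V₁.c.map P₁.ι ≤ C := by
        rintro _ ⟨u, hu, rfl⟩
        exact P₁.ι_mem u
      have h3 := hmin h1 h2
      apply hm₁.1
      rw [eq_top_iff]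
      intro u _
      obtain ⟨u', hu', hu'e⟩ := h3 (P₁.ι_mem u)
      rw [← P₁.ι_inj hu'e]
      exact hu'
    intro b hb f hf
    have h1 := hV₁ _ (htriv b hb (P₁.mk' f hf))
    rw [map_sub, map_sub, sub_eq_zero] at h1
    exact h1
  have hθeq' : ∀ (x : SD (Q.Ty → Q.Ty) G) (f : Fn p (Q.Ty → Q.Ty)), f ∈ C →
      θS (x • f) = x.g • θS f := by
    intro x f hf
    have h1 : x = (⟨x.v, 1⟩ : SD (Q.Ty → Q.Ty) G) * ⟨0, x.g⟩ := by
      apply SD.ext
      · simp
      · simp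
    have h2 : x • f = (⟨x.v, 1⟩ : SD (Q.Ty → Q.Ty) G) • ((⟨0, x.g⟩ : SD (Q.Ty → Q.Ty) G) • f) := by
      rw [← mul_smul, ← h1]
    rw [h2, hBtriv _ rfl _ (hC1 _ _ hf), hθeq]
  -- the section is onto
  have honto : ∀ s : V₀.Qt, ∃ f ∈ C, θS f = s := by
    let U : ISub G (Fn p G) :=
      { c := ((C.map θS).comap V₀.π)
        inv := by
          intro g v hv
          obtain ⟨f, hf, hfe⟩ := hv
          refine ⟨(⟨0, g⟩ : SD (Q.Ty → Q.Ty) G) • f, hC1 _ _ hf, ?_⟩
          rw [hθeq, hfe, ISub.smul_π] }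
    have hUV : V₀.c ≤ U.c := by
      intro v hv
      refine ⟨0, C.zero_mem, ?_⟩
      rw [map_zero, (V₀.π_eq_zero v).mpr hv]
    rcases hm.2 U hUV with h | h
    · exfalso
      obtain ⟨w, hw⟩ := V₀.π_surj (θS q₀)
      have h1 : w ∈ U.c := ⟨q₀, hq₀, hw.symm⟩
      rw [h] at h1
      apply hq₀e
      rw [← hw]
      exact (V₀.π_eq_zero w).mpr h1
    · intro s
      obtain ⟨w, rfl⟩ := V₀.π_surj s
      have h1 : w ∈ U.c := by rw [h]; trivial
      exact h1
  let A : Subgroup (SD (Fn p (Q.Ty → Q.Ty)) (SD (Q.Ty → Q.Ty) G)) :=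
    { carrier := {z | z.g = 1 ∧ z.v ∈ C}
      one_mem' := ⟨rfl, C.zero_mem⟩
      mul_mem' := by
        rintro a b ⟨ha1, ha2⟩ ⟨hb1, hb2⟩
        refine ⟨?_, ?_⟩
        · rw [SD.mul_g, ha1, hb1, mul_one]
        · rw [SD.mul_v, ha1, one_smul]
          exact C.add_mem ha2 hb2
      inv_mem' := by
        rintro a ⟨ha1, ha2⟩
        refine ⟨?_, ?_⟩
        · rw [SD.inv_g, ha1, inv_one]
        · rw [SD.inv_v, ha1, inv_one, one_smul]
          exact C.neg_mem ha2 }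
  have hA : ∀ a ∈ A, a = ⟨a.v, 1⟩ := fun a ha => SD.ext rfl ha.1
  have hAn : A.Normal := by
    refine ⟨?_⟩
    intro a ha g
    rw [hA a ha, SD.conj_inl]
    exact ⟨rfl, hC1 _ _ ha.2⟩
  have hS : F (SD V₀.Qt G) := by
    refine hF.fiber (H := SD (Fn p (Q.Ty → Q.Ty)) (SD (Q.Ty → Q.Ty) G)) (G := G) A
      (SD.proj.comp SD.proj) (SD.proj_surj.comp SD.proj_surj) (fun a => θS a.1.v) ?_ ?_ ?_ hP
    · rintro ⟨a, ha⟩ ⟨b, hb⟩
      show θS (a.v + a.g • b.v) = θS a.v + θS b.v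
      rw [ha.1, one_smul, map_add]
    · intro s
      obtain ⟨f, hf, rfl⟩ := honto s
      exact ⟨⟨⟨f, 1⟩, rfl, hf⟩, rfl⟩
    · rintro h ⟨a, ha⟩ ⟨b, hb⟩ hab
      have h1 : b = h * a * h⁻¹ := hab
      rw [hA a ha, SD.conj_inl] at h1
      show θS b.v = h.g.g • θS a.v
      rw [h1]
      exact hθeq' h.g a.v ha.2
  refine ⟨SD V₀.Qt G, inferInstance, SD.map V₀.π (MonoidHom.id _) (fun g v => rfl), ?_, hS, ?_⟩
  · rintro ⟨q, x⟩
    obtain ⟨f, rfl⟩ := V₀.π_surj q
    exact ⟨⟨f, x⟩, rfl⟩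
  · rintro ⟨f, x⟩ hx
    have h1 : V₀.π f = 0 := congrArg SD.v hx
    have h2 : x = 1 := congrArg SD.g hx
    subst h2
    exact (hV₀T f).mp ((V₀.π_eq_zero f).mp h1)

end Pool.Agent.Helper907.Lat
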