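import Mathlib
import Pool.Agent.Helper907.LatE

set_option autoImplicit false

namespace Pool.Agent.Helper907.Lat

variable {F : (G : Type) → [Group G] → Prop}

section sds

variable {V G : Type} [AddCommGroup V] [Group G] [DistribMulAction G V]

/-- invariant subgroups extended by a subgroup of `G` -/
def sds (C : AddSubgroup V) (H : Subgroup G) (h : ∀ g ∈ H, ∀ v ∈ C, g • v ∈ C) :
    Subgroup (SD V G) where
  carrier := {z | z.v ∈ C ∧ z.g ∈ H}
  one_mem' := ⟨C.zero_mem, H.one_mem⟩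
  mul_mem' := by
    rintro a b ⟨ha1, ha2⟩ ⟨hb1, hb2⟩
    exact ⟨C.add_mem ha1 (h _ ha2 _ hb1), H.mul_mem ha2 hb2⟩
  inv_mem' := by
    rintro a ⟨ha1, ha2⟩
    exact ⟨C.neg_mem (h _ (H.inv_mem ha2) _ ha1), H.inv_mem ha2⟩

lemma mem_sds {C : AddSubgroup V} {H : Subgroup G} {h : ∀ g ∈ H, ∀ v ∈ C, g • v ∈ C}
    {z : SD V G} : z ∈ sds C H h ↔ z.v ∈ C ∧ z.g ∈ H := Iff.rfl

/-- all the subgroups `U G` are in the class -/
lemma sds_mem (hF : Fm F) [Finite V] [Finite G] (hZ : F (SD V G)) (U : ISub G V)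
    (h : ∀ g ∈ (⊤ : Subgroup G), ∀ v ∈ U.c, g • v ∈ U.c) : F (sds U.c (⊤ : Subgroup G) h) := by
  let A : Subgroup (SD V G) :=
    { carrier := {z | z.g = 1 ∧ z.v ∈ U.c}
      one_mem' := ⟨rfl, U.c.zero_mem⟩
      mul_mem' := by
        rintro a b ⟨ha1, ha2⟩ ⟨hb1, hb2⟩
        refine ⟨?_, ?_⟩
        · rw [SD.mul_g, ha1, hb1, mul_one]
        · rw [SD.mul_v, ha1, one_smul]
          exact U.c.add_mem ha2 hb2
      inv_mem' := by
        rintro a ⟨ha1, ha2⟩
        refine ⟨?_, ?_⟩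
        · rw [SD.inv_g, ha1, inv_one]
        · rw [SD.inv_v, ha1, inv_one, one_smul]
          exact U.c.neg_mem ha2 }
  have hA : ∀ a ∈ A, a = ⟨a.v, 1⟩ := fun a ha => SD.ext rfl ha.1
  have hAn : A.Normal := by
    refine ⟨?_⟩
    intro a ha g
    rw [hA a ha, SD.conj_inl]
    exact ⟨rfl, U.inv _ _ ha.2⟩
  have hS : F (SD U.Ty G) := by
    refine hF.fiber (H := SD V G) (G := G) A SD.proj SD.proj_surj
      (fun a => U.mk' a.1.v a.2.2) ?_ ?_ ?_ hZ
    · rintro ⟨a, ha⟩ ⟨b, hb⟩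
      apply U.ι_inj
      show a.v + a.g • b.v = a.v + b.v
      rw [ha.1, one_smul]
    · intro s
      exact ⟨⟨⟨U.ι s, 1⟩, rfl, U.ι_mem s⟩, U.ι_inj rfl⟩
    · rintro h ⟨a, ha⟩ ⟨b, hb⟩ hab
      have h1 : b = h * a * h⁻¹ := hab
      rw [hA a ha, SD.conj_inl] at h1
      apply U.ι_inj
      show b.v = h.g • a.v
      rw [h1]
  let f : SD U.Ty G →* sds U.c (⊤ : Subgroup G) h :=
    { toFun := fun z => ⟨⟨U.ι z.v, z.g⟩, U.ι_mem z.v, trivial⟩
      map_one' := rfl
      map_mul' := by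
        intro x y
        apply Subtype.ext
        apply SD.ext
        · show U.ι (x.v + x.g • y.v) = U.ι x.v + x.g • U.ι y.v
          rw [map_add, ISub.ι_smul]
        · rfl }
  refine hF.surj f ?_ hS
  rintro ⟨z, hz⟩
  exact ⟨⟨U.mk' z.v hz.1, z.g⟩, rfl⟩

lemma sds_TT (hF : Fm F) [Finite V] [Finite G] (hZ : F (SD V G)) :
    ∀ (C : AddSubgroup V) (h : ∀ g ∈ (⊤ : Subgroup G), ∀ v ∈ C, g • v ∈ C),
      sds C (⊤ : Subgroup G) h ∈ TT F (SD V G) := by
  classical
  by_contra hcon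
  push Not at hcon
  have hne : ({C : AddSubgroup V | ∃ (h : ∀ g ∈ (⊤ : Subgroup G), ∀ v ∈ C, g • v ∈ C),
      sds C (⊤ : Subgroup G) h ∉ TT F (SD V G)}).Nonempty := hcon
  obtain ⟨C, ⟨hCi, hC⟩, hmax⟩ := (Set.toFinite _).exists_maximal hne
  have hCtop : C ≠ ⊤ := by
    intro hCt
    apply hC
    have : sds C (⊤ : Subgroup G) hCi = ⊤ := by
      rw [eq_top_iff]
      intro z _
      refine ⟨?_, trivial⟩
      rw [hCt]; trivial
    rw [this]
    exact TT_top
  have hne2 : ({C' : AddSubgroup V | (∀ g ∈ (⊤ : Subgroup G), ∀ v ∈ C', g • v ∈ C') ∧ C < C'}).Nonempty :=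
    ⟨⊤, fun _ _ _ _ => trivial, lt_top_iff_ne_top.mpr hCtop⟩
  obtain ⟨C', ⟨hC'i, hCC'⟩, hmin⟩ := (Set.toFinite _).exists_minimal hne2
  have hC' : sds C' (⊤ : Subgroup G) hC'i ∈ TT F (SD V G) := by
    by_contra h
    have := hmax ⟨hC'i, h⟩ hCC'.le
    exact absurd this (not_le_of_gt hCC')
  apply hC
  refine TT_step' hF hC' ?_ ?_ (sds_mem hF hZ ⟨C', fun g v hv => hC'i g trivial v hv⟩ hC'i)
  · refine lt_of_le_of_ne ?_ ?_
    · intro z hz
      exact ⟨hCC'.le hz.1, hz.2⟩
    · intro heq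
      apply absurd hCC'.le.antisymm
      intro h
      obtain ⟨v, hv, hvC⟩ := Set.exists_of_ssubset hCC'
      have h1 : (⟨v, 1⟩ : SD V G) ∈ sds C' (⊤ : Subgroup G) hC'i := ⟨hv, trivial⟩
      rw [← heq] at h1
      exact hvC h1.1
  · intro M h1 h2
    let U : AddSubgroup V :=
      { carrier := {v | (⟨v, 1⟩ : SD V G) ∈ M}
        zero_mem' := M.one_mem
        add_mem' := by
          intro v w hv hw
          have := M.mul_mem hv hw
          have h2 : (⟨v, 1⟩ : SD V G) * ⟨w, 1⟩ = ⟨v + w, 1⟩ := by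
            apply SD.ext <;> simp
          rw [h2] at this
          exact this
        neg_mem' := by
          intro v hv
          have := M.inv_mem hv
          have h2 : (⟨v, 1⟩ : SD V G)⁻¹ = ⟨-v, 1⟩ := by
            apply SD.ext <;> simp
          rw [h2] at this
          exact this }
    have hG : ∀ g : G, (⟨0, g⟩ : SD V G) ∈ M := fun g => h1 ⟨C.zero_mem, trivial⟩
    have hUi : ∀ g ∈ (⊤ : Subgroup G), ∀ v ∈ U, g • v ∈ U := by
      intro g _ v hv
      have := M.mul_mem (M.mul_mem (hG g) hv) (M.inv_mem (hG g))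
      rw [SD.conj_inl] at this
      exact this
    have hCU : C ≤ U := fun v hv => h1 ⟨hv, trivial⟩
    have hMU : ∀ z : SD V G, z ∈ M ↔ z.v ∈ U := by
      intro z
      have h3 : z = (⟨z.v, 1⟩ : SD V G) * ⟨0, z.g⟩ := by
        apply SD.ext <;> simp
      constructor
      · intro hz
        have h4 : (⟨z.v, 1⟩ : SD V G) = z * (⟨0, z.g⟩ : SD V G)⁻¹ := by
          rw [eq_mul_inv_iff_mul_eq]; exact h3.symm
        show (⟨z.v, 1⟩ : SD V G) ∈ M
        rw [h4]
        exact M.mul_mem hz (M.inv_mem (hG _))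
      · intro hz
        rw [h3]
        exact M.mul_mem hz (hG _)
    by_cases hU : C = U
    · left
      apply le_antisymm _ h1
      intro z hz
      refine ⟨?_, trivial⟩
      rw [hU]
      exact (hMU z).mp hz
    · right
      apply le_antisymm h2
      have h3 := hmin ⟨hUi, lt_of_le_of_ne hCU hU⟩ (fun v hv => (h2 hv).1)
      intro z hz
      exact (hMU z).mpr (h3 hz.1)

lemma inr_TT (hF : Fm F) [Finite V] [Finite G] (hZ : F (SD V G)) (hG : F G) (M : Subgroup G)
    (hM : IsCoatom M) :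
    sds (⊥ : AddSubgroup V) M (by
      intro g _ v hv
      rw [AddSubgroup.mem_bot] at hv ⊢
      rw [hv, smul_zero]) ∈ TT F (SD V G) := by
  have hb : ∀ g ∈ (⊤ : Subgroup G), ∀ v ∈ (⊥ : AddSubgroup V), g • v ∈ (⊥ : AddSubgroup V) := by
    intro g _ v hv
    rw [AddSubgroup.mem_bot] at hv ⊢
    rw [hv, smul_zero]
  have h1 := sds_TT hF hZ ⊥ hb
  have h2 : F (sds (⊥ : AddSubgroup V) (⊤ : Subgroup G) hb) := by
    let f : G →* sds (⊥ : AddSubgroup V) (⊤ : Subgroup G) hb :=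
      { toFun := fun g => ⟨⟨0, g⟩, rfl, trivial⟩
        map_one' := rfl
        map_mul' := by
          intro x y
          apply Subtype.ext
          apply SD.ext
          · show (0 : V) = 0 + x • (0 : V)
            rw [smul_zero, add_zero]
          · rfl }
    refine hF.surj f ?_ hG
    rintro ⟨⟨v, g⟩, hz1, hz2⟩
    have : v = 0 := hz1
    subst this
    exact ⟨g, rfl⟩
  refine TT_step' hF h1 ?_ ?_ h2
  · refine lt_of_le_of_ne ?_ ?_
    · intro z hz
      exact ⟨hz.1, trivial⟩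
    · intro heq
      apply hM.1
      rw [eq_top_iff]
      intro g _
      have h3 : (⟨0, g⟩ : SD V G) ∈ sds (⊥ : AddSubgroup V) (⊤ : Subgroup G) hb := ⟨rfl, trivial⟩
      rw [← heq] at h3
      exact h3.2
  · intro K hK1 hK2
    let L : Subgroup G :=
      { carrier := {g | (⟨0, g⟩ : SD V G) ∈ K}
        one_mem' := K.one_mem
        mul_mem' := by
          intro a b ha hb
          have := K.mul_mem ha hb
          have h3 : (⟨0, a⟩ : SD V G) * ⟨0, b⟩ = ⟨0, a * b⟩ := by apply SD.ext <;> simp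
          rw [h3] at this
          exact this
        inv_mem' := by
          intro a ha
          have := K.inv_mem ha
          have h3 : (⟨0, a⟩ : SD V G)⁻¹ = ⟨0, a⁻¹⟩ := by apply SD.ext <;> simp
          rw [h3] at this
          exact this }
    have hML : M ≤ L := fun g hg => hK1 ⟨rfl, hg⟩
    have hKv : ∀ z ∈ K, z = ⟨0, z.g⟩ := fun z hz => SD.ext (hK2 hz).1 rfl
    by_cases h : L = M
    · left
      apply le_antisymm _ hK1
      intro z hz
      refine ⟨(hK2 hz).1, ?_⟩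
      rw [← h]
      show (⟨0, z.g⟩ : SD V G) ∈ K
      rw [← hKv z hz]; exact hz
    · right
      have hLt : L = ⊤ := hM.2 L (lt_of_le_of_ne hML (Ne.symm h))
      apply le_antisymm hK2
      intro z hz
      have h3 : z.g ∈ L := by rw [hLt]; trivial
      have h4 : z = ⟨0, z.g⟩ := SD.ext hz.1 rfl
      rw [h4]
      exact h3

end sds

/-- The join of two conjugates of a maximal subgroup is not `F`-subnormal unless chief factors are
central. -/
lemma step_lemma (hF : Fm F)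
    (hjoin : ∀ (G : Type) [Group G] [Finite G], ∀ A ∈ TT F G, ∀ B ∈ TT F G, A ⊔ B ∈ TT F G)
    {G : Type} [Group G] [Finite G] (hG : F G) (p : ℕ) [hp : Fact p.Prime]
    (hZ : F (SD (Fn p G) G)) (M : Subgroup G) (hM : IsCoatom M) (good : Fn p G → Prop)
    (h1 : ∀ C : AddSubgroup (Fn p G), (∀ (g : G) (v : Fn p G), v ∈ C → g • v ∈ C) →
      (∀ m ∈ M, (dl 1 - dl m : Fn p G) ∈ C) → ∃ w ∈ C, good w)
    (h2 : ∀ K L : Subgroup (SD (Fn p G) G), L ≤ K → (∀ m ∈ M, (⟨0, m⟩ : SD (Fn p G) G) ∈ L) →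
      (∀ z ∈ K, z.g ∈ M) → Fn1 F K L → (∃ w, (⟨w, 1⟩ : SD (Fn p G) G) ∈ K ∧ good w) →
      ∃ w, (⟨w, 1⟩ : SD (Fn p G) G) ∈ L ∧ good w)
    (h3 : ∀ w : Fn p G, (∀ x, x ∉ M → w x = 0) → ¬ good w) : False := by
  classical
  have : NeZero p := ⟨hp.out.ne_zero⟩
  have hbi : ∀ g ∈ M, ∀ v ∈ (⊥ : AddSubgroup (Fn p G)), g • v ∈ (⊥ : AddSubgroup (Fn p G)) := by
    intro g _ v hv
    rw [AddSubgroup.mem_bot] at hv ⊢
    rw [hv, smul_zero]
  have hMT : sds (⊥ : AddSubgroup (Fn p G)) M hbi ∈ TT F (SD (Fn p G) G) := inr_TT hF hZ hG M hM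
  let z₀ : SD (Fn p G) G := ⟨dl 1, 1⟩
  have hMT' := TT_map hF (MulAut.conj z₀) hMT
  have hJ := hjoin _ _ hMT _ hMT'
  set J := sds (⊥ : AddSubgroup (Fn p G)) M hbi ⊔
    (sds (⊥ : AddSubgroup (Fn p G)) M hbi).map (MulAut.conj z₀).toMonoidHom with hJdef
  have hconj : ∀ m ∈ M, (⟨dl 1 - dl m, m⟩ : SD (Fn p G) G) ∈
      (sds (⊥ : AddSubgroup (Fn p G)) M hbi).map (MulAut.conj z₀).toMonoidHom := by
    intro m hm
    refine ⟨⟨0, m⟩, ⟨rfl, hm⟩, ?_⟩
    show z₀ * ⟨0, m⟩ * z₀⁻¹ = _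
    apply SD.ext
    · show (dl 1 + (1 : G) • (0 : Fn p G)) + (1 * m) • (-((1 : G)⁻¹ • (dl 1 : Fn p G))) = _
      rw [smul_zero, add_zero, one_mul, inv_one, one_smul, smul_neg, smul_dl, ← sub_eq_add_neg]
      congr 2
      exact mul_one m
    · show (1 * m) * (1 : G)⁻¹ = m
      simp
  have hJ1 : ∀ m ∈ M, (⟨0, m⟩ : SD (Fn p G) G) ∈ J := fun m hm =>
    (le_sup_left : sds (⊥ : AddSubgroup (Fn p G)) M hbi ≤ J) ⟨rfl, hm⟩
  have hJ2 : ∀ m ∈ M, (⟨dl 1 - dl m, 1⟩ : SD (Fn p G) G) ∈ J := by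
    intro m hm
    have ha : (⟨dl 1 - dl m, m⟩ : SD (Fn p G) G) ∈ J :=
      (le_sup_right : _ ≤ J) (hconj m hm)
    have hb := J.mul_mem ha (J.inv_mem (hJ1 m hm))
    have hc : (⟨dl 1 - dl m, m⟩ : SD (Fn p G) G) * (⟨0, m⟩ : SD (Fn p G) G)⁻¹ = ⟨dl 1 - dl m, 1⟩ := by
      apply SD.ext <;> simp
    rw [hc] at hb
    exact hb
  -- the join is supported on `M`
  let S : AddSubgroup (Fn p G) :=
    { carrier := {w | ∀ x, x ∉ M → w x = 0}
      zero_mem' := fun _ _ => rfl
      add_mem' := by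
        intro a b ha hb x hx
        show a x + b x = 0
        rw [ha x hx, hb x hx, add_zero]
      neg_mem' := by
        intro a ha x hx
        show - a x = 0
        rw [ha x hx, neg_zero] }
  have hSi : ∀ g ∈ M, ∀ v ∈ S, g • v ∈ S := by
    intro g hg v hv x hx
    show v (g⁻¹ • x) = 0
    apply hv
    intro h
    apply hx
    have := M.mul_mem hg h
    rwa [smul_eq_mul, mul_inv_cancel_left] at this
  have hJ3 : J ≤ sds S M hSi := by
    rw [hJdef]
    refine sup_le ?_ ?_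
    · rintro z ⟨hz1, hz2⟩
      refine ⟨?_, hz2⟩
      have : z.v = 0 := hz1
      rw [this]; exact S.zero_mem
    · rintro _ ⟨z, ⟨hz1, hz2⟩, rfl⟩
      have hzv : z.v = 0 := hz1
      show z₀ * z * z₀⁻¹ ∈ sds S M hSi
      have h4 : z₀ * z * z₀⁻¹ = ⟨dl 1 - dl z.g, z.g⟩ := by
        apply SD.ext
        · show (dl 1 + (1 : G) • z.v) + (1 * z.g) • (-((1 : G)⁻¹ • (dl 1 : Fn p G))) = _
          rw [hzv, smul_zero, add_zero, one_mul, inv_one, one_smul, smul_neg, smul_dl,
            ← sub_eq_add_neg]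
          congr 2
          exact mul_one z.g
        · show (1 * z.g) * (1 : G)⁻¹ = z.g
          simp
      rw [h4]
      refine ⟨?_, hz2⟩
      intro x hx
      show (dl 1 : Fn p G) x - (dl z.g : Fn p G) x = 0
      have h5 : x ≠ 1 := fun h => hx (by rw [h]; exact M.one_mem)
      have h6 : x ≠ z.g := fun h => hx (by rw [h]; exact hz2)
      rw [dl_ne h5, dl_ne h6, sub_zero]
  -- induction
  have hind := TT_ind hF (fun K => J ≤ K → ∃ w, (⟨w, 1⟩ : SD (Fn p G) G) ∈ K ∧ good w) ?_ ?_ hJ le_rfl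
  · obtain ⟨w, hw, hgw⟩ := hind
    exact h3 w (hJ3 hw).1 hgw
  · intro _
    obtain ⟨w, -, hw⟩ := h1 ⊤ (fun _ _ _ => trivial) (fun _ _ => trivial)
    exact ⟨w, trivial, hw⟩
  · intro K L hK hlt hcov hN hJL
    have hJK : J ≤ K := hJL.trans hlt.le
    obtain ⟨w, hwK, hw⟩ := hK hJK
    by_cases hB : ∃ z ∈ L, z.g ∉ M
    · obtain ⟨z, hzL, hzM⟩ := hB
      have hproj : L.map SD.proj = ⊤ := by
        apply hM.2
        refine lt_of_le_of_ne ?_ ?_
        · intro m hm
          exact ⟨⟨0, m⟩, hJL (hJ1 m hm), rfl⟩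
        · intro heq
          apply hzM
          rw [heq]
          exact ⟨z, hzL, rfl⟩
      let C : AddSubgroup (Fn p G) :=
        { carrier := {v | (⟨v, 1⟩ : SD (Fn p G) G) ∈ L}
          zero_mem' := L.one_mem
          add_mem' := by
            intro v w hv hw
            have := L.mul_mem hv hw
            have h2 : (⟨v, 1⟩ : SD (Fn p G) G) * ⟨w, 1⟩ = ⟨v + w, 1⟩ := by
              apply SD.ext <;> simp
            rw [h2] at this
            exact this
          neg_mem' := by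
            intro v hv
            have := L.inv_mem hv
            have h2 : (⟨v, 1⟩ : SD (Fn p G) G)⁻¹ = ⟨-v, 1⟩ := by
              apply SD.ext <;> simp
            rw [h2] at this
            exact this }
      obtain ⟨w', hw', hgw'⟩ := h1 C (by
        intro g v hv
        have hg : g ∈ L.map SD.proj := by rw [hproj]; trivial
        obtain ⟨l, hl, rfl⟩ := hg
        have := L.mul_mem (L.mul_mem hl hv) (L.inv_mem hl)
        rw [SD.conj_inl] at this
        exact this) (fun m hm => hJL (hJ2 m hm))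
      exact ⟨w', hw', hgw'⟩
    · push Not at hB
      by_cases hA : ∀ u : Fn p G, (⟨u, 1⟩ : SD (Fn p G) G) ∈ K → (⟨u, 1⟩ : SD (Fn p G) G) ∈ L
      · exact ⟨w, hA w hwK, hw⟩
      · push Not at hA
        obtain ⟨u, huK, huL⟩ := hA
        refine h2 K L hlt.le (fun m hm => hJL (hJ1 m hm)) ?_ hN ⟨w, hwK, hw⟩
        let K' : Subgroup (SD (Fn p G) G) :=
          { carrier := {z | ∃ t ∈ L, ∃ u : Fn p G, (⟨u, 1⟩ : SD (Fn p G) G) ∈ K ∧ z = t * ⟨u, 1⟩}
            one_mem' := ⟨1, L.one_mem, 0, K.one_mem, by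
              apply SD.ext <;> simp⟩
            mul_mem' := by
              rintro _ _ ⟨t, ht, u, hu, rfl⟩ ⟨t', ht', u', hu', rfl⟩
              refine ⟨t * t', L.mul_mem ht ht', t'.g⁻¹ • u + u', ?_, ?_⟩
              · have h5 := K.mul_mem (K.mul_mem (K.inv_mem (hlt.le ht')) hu) (K.inv_mem (K.inv_mem (hlt.le ht')))
                rw [SD.conj_inl] at h5
                have h6 := K.mul_mem h5 hu'
                have h7 : (⟨(t'⁻¹).g • u, 1⟩ : SD (Fn p G) G) * ⟨u', 1⟩ = ⟨t'.g⁻¹ • u + u', 1⟩ := by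
                  apply SD.ext <;> simp
                rw [h7] at h6
                exact h6
              · apply SD.ext
                · simp only [SD.mul_v, SD.mul_g, mul_one, smul_add, smul_smul]
                  rw [mul_assoc, mul_inv_cancel, mul_one]
                  abel
                · simp
            inv_mem' := by
              rintro _ ⟨t, ht, u, hu, rfl⟩
              refine ⟨t⁻¹, L.inv_mem ht, -(t.g • u), ?_, ?_⟩
              · have h5 := K.inv_mem (K.mul_mem (K.mul_mem (hlt.le ht) hu) (K.inv_mem (hlt.le ht)))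
                rw [SD.conj_inl] at h5
                have h7 : (⟨t.g • u, 1⟩ : SD (Fn p G) G)⁻¹ = ⟨-(t.g • u), 1⟩ := by
                  apply SD.ext <;> simp
                rw [h7] at h5
                exact h5
              · apply SD.ext
                · simp only [SD.mul_v, SD.mul_g, SD.inv_v, SD.inv_g, mul_one, smul_add, smul_neg,
                    smul_smul, inv_mul_cancel, one_smul]
                  abel
                · simp }
        have hLK' : L ≤ K' := fun t ht => ⟨t, ht, 0, K.one_mem, by apply SD.ext <;> simp⟩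
        have hK'K : K' ≤ K := by
          rintro _ ⟨t, ht, u, hu, rfl⟩
          exact K.mul_mem (hlt.le ht) hu
        rcases hcov K' hLK' hK'K with h | h
        · exfalso
          apply huL
          rw [← h]
          exact ⟨1, L.one_mem, u, huK, by simp⟩
        · intro z hz
          rw [← h] at hz
          obtain ⟨t, ht, u, hu, rfl⟩ := hz
          show t.g * 1 ∈ M
          rw [mul_one]
          exact hB t ht

end Pool.Agent.Helper907.Lat
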