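import Mathlib
import Pool.Agent.Helper907.LatF

set_option autoImplicit false

namespace Pool.Agent.Helper907.Lat

variable {F : (G : Type) → [Group G] → Prop}

/-- coprime action on functions -/
lemma coprime_fix {M : Type} [Group M] (p : ℕ) [hp : Fact p.Prime] (r : M)
    (hr : (orderOf r).Coprime p) (u : M → ZMod p)
    (h : ∀ m, u (r⁻¹ * (r⁻¹ * m)) - u (r⁻¹ * m) = u (r⁻¹ * m) - u m) (m : M) :
    u (r⁻¹ * m) = u m := by
  have h1 : ∀ n : ℕ, u ((r⁻¹) ^ (n + 1) * m) - u ((r⁻¹) ^ n * m) = u (r⁻¹ * m) - u m := by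
    intro n
    induction n with
    | zero => simp
    | succ n ih =>
      rw [← ih]
      have h2 := h ((r⁻¹) ^ n * m)
      have h3 : (r⁻¹) ^ (n + 1 + 1) * m = r⁻¹ * (r⁻¹ * ((r⁻¹) ^ n * m)) := by
        rw [pow_succ', pow_succ', mul_assoc, mul_assoc]
      have h4 : (r⁻¹) ^ (n + 1) * m = r⁻¹ * ((r⁻¹) ^ n * m) := by
        rw [pow_succ', mul_assoc]
      rw [h3, h4]
      exact h2
  have h2 : ∀ n : ℕ, u ((r⁻¹) ^ n * m) = u m + n * (u (r⁻¹ * m) - u m) := by
    intro n
    induction n with
    | zero => simp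
    | succ n ih =>
      have := h1 n
      rw [ih] at this
      push_cast
      linear_combination this
  have h3 := h2 (orderOf r)
  rw [inv_pow, pow_orderOf_eq_one, inv_one, one_mul] at h3
  have h4 : ((orderOf r : ℕ) : ZMod p) * (u (r⁻¹ * m) - u m) = 0 := by
    linear_combination -h3
  rcases mul_eq_zero.mp h4 with h5 | h5
  · exfalso
    rw [ZMod.natCast_eq_zero_iff] at h5
    have h6 := Nat.dvd_gcd h5 (dvd_refl p)
    rw [hr] at h6
    exact hp.out.one_lt.ne' (Nat.dvd_one.mp h6)
  · exact sub_eq_zero.mp h5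

/-- If conjugation by `y` maps `M` into `M`, it maps `M` onto `M`. -/
lemma conj_onto {G : Type} [Group G] [Finite G] (M : Subgroup G) (y : G)
    (h : ∀ m ∈ M, y * m * y⁻¹ ∈ M) (m' : G) (hm' : m' ∈ M) : ∃ m ∈ M, y * m * y⁻¹ = m' := by
  let f : M → M := fun m => ⟨y * m * y⁻¹, h m m.2⟩
  have hf : Function.Injective f := by
    intro a b hab
    have h1 : y * (a : G) * y⁻¹ = y * b * y⁻¹ := congrArg Subtype.val hab
    exact Subtype.ext (by simpa using h1)
  obtain ⟨m, hm⟩ := (Finite.surjective_of_injective hf) ⟨m', hm'⟩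
  exact ⟨m, m.2, congrArg Subtype.val hm⟩

/-- `p'`-elements of the residual of `M` are trivial -/
lemma res_coprime (hF : Fm F)
    (hjoin : ∀ (G : Type) [Group G] [Finite G], ∀ A ∈ TT F G, ∀ B ∈ TT F G, A ⊔ B ∈ TT F G)
    {G : Type} [Group G] [Finite G] (hG : F G) (p : ℕ) [hp : Fact p.Prime]
    (hZ : F (SD (Fn p G) G)) (M : Subgroup G) (hM : IsCoatom M)
    (R : Subgroup M) (hRmin : ∀ (N : Subgroup M) [N.Normal], F (M ⧸ N) → R ≤ N)
    (r : M) (hrR : r ∈ R) (hr : (orderOf r).Coprime p) : r = 1 := by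
  classical
  by_contra hr1
  have hr1' : (r : G) ≠ 1 := fun h => hr1 (Subtype.ext h)
  obtain ⟨y, hy⟩ : ∃ y, y ∉ M := by
    by_contra h
    push Not at h
    exact hM.1 (eq_top_iff.mpr (fun x _ => h x))
  let good : Fn p G → Prop := fun w => ∃ m : M, w ((r⁻¹ * m : M) * y) ≠ w (m * y)
  refine step_lemma hF hjoin hG p hZ M hM good ?_ ?_ ?_
  · -- top
    intro C hC hCm
    by_contra hcon
    push Not at hcon
    have hw : ∀ m ∈ M, ∀ m' : M, (dl y - dl (y * m) : Fn p G) ((r⁻¹ * m' : M) * y)
        = (dl y - dl (y * m) : Fn p G) (m' * y) := by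
      intro m hm m'
      have h1 := hC y _ (hCm m hm)
      rw [smul_sub, smul_dl, smul_dl, smul_eq_mul, smul_eq_mul, mul_one] at h1
      have h2 := hcon _ h1
      by_contra h3
      exact h2 ⟨m', h3⟩
    by_cases hcase : ∀ m ∈ M, y * m * y⁻¹ ∈ M
    · obtain ⟨m, hm, hmr⟩ := conj_onto M y hcase r r.2
      have hym : y * m = r * y := by
        rw [← hmr]; group
      have h1 := hw m hm
      rw [hym] at h1
      let v : M → ZMod p := fun m' => (dl (1 : M) : Fn p M) m'
      have hv : ∀ m' : M, (dl y - dl ((r : G) * y) : Fn p G) (m' * y) = v m' - v (r⁻¹ * m') := by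
        intro m'
        show (dl y : Fn p G) (m' * y) - (dl ((r : G) * y) : Fn p G) (m' * y) = _
        congr 1
        · by_cases h : m' = 1
          · rw [h]
            show (dl y : Fn p G) ((1 : M) * y) = (dl (1 : M) : Fn p M) 1
            rw [dl_self]
            show (dl y : Fn p G) ((1 : G) * y) = 1
            rw [one_mul, dl_self]
          · show _ = (dl (1 : M) : Fn p M) m'
            rw [dl_ne h, dl_ne]
            intro h2
            apply h
            apply Subtype.ext
            show (m' : G) = 1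
            exact mul_eq_right.mp h2
        · by_cases h : r⁻¹ * m' = 1
          · have h' : m' = r := by rw [inv_mul_eq_one] at h; exact h.symm
            rw [h']
            show (dl ((r : G) * y) : Fn p G) ((r : G) * y) = (dl (1 : M) : Fn p M) (r⁻¹ * r)
            rw [dl_self, inv_mul_cancel, dl_self]
          · show _ = (dl (1 : M) : Fn p M) (r⁻¹ * m')
            rw [dl_ne h, dl_ne]
            intro h2
            apply h
            have h3 : (m' : G) = r := mul_right_cancel h2
            have h4 : m' = r := Subtype.ext h3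
            rw [h4, inv_mul_cancel]
      have h2 := coprime_fix p r hr v (by
        intro m'
        have := h1 m'
        rw [hv, hv] at this
        linear_combination -this) r
      have h3 : (dl (1 : M) : Fn p M) (r⁻¹ * r) = (dl (1 : M) : Fn p M) r := h2
      rw [inv_mul_cancel, dl_self, dl_ne hr1] at h3
      exact one_ne_zero h3
    · push Not at hcase
      obtain ⟨m, hm, hmy⟩ := hcase
      have h1 := hw m hm 1
      have h2 : ((r⁻¹ * 1 : M) : G) * y = (r : G)⁻¹ * y := by
        rw [mul_one]; rfl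
      have h3 : ((1 : M) : G) * y = y := one_mul y
      rw [h2, h3] at h1
      have h4 : y ≠ y * m := by
        intro h
        have : m = 1 := (left_eq_mul.mp h)
        apply hmy
        rw [this]
        simp [M.one_mem]
      have h5 : (r : G)⁻¹ * y ≠ y := by
        intro h
        apply hr1'
        have := mul_eq_right.mp h
        rwa [inv_eq_one] at this
      have h6 : (r : G)⁻¹ * y ≠ y * m := by
        intro h
        apply hmy
        rw [← h, mul_assoc, mul_inv_cancel, mul_one]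
        exact M.inv_mem r.2
      have h7 : (dl y : Fn p G) ((r : G)⁻¹ * y) - (dl (y * m) : Fn p G) ((r : G)⁻¹ * y)
          = (dl y : Fn p G) y - (dl (y * m) : Fn p G) y := h1
      rw [dl_ne h5, dl_ne h6, dl_self, dl_ne h4, sub_zero, sub_zero] at h7
      exact zero_ne_one h7
  · -- step
    intro K L hLK hmL hKM hN ⟨w, hwK, hw⟩
    obtain ⟨Q, hQ, f, hf, hFQ, hker⟩ := hN
    let pM : K →* M :=
      { toFun := fun z => ⟨z.1.g, hKM z.1 z.2⟩
        map_one' := rfl
        map_mul' := fun _ _ => rfl }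
    have hpM : Function.Surjective pM := by
      intro m
      exact ⟨⟨⟨0, m⟩, hLK (hmL m m.2)⟩, rfl⟩
    have hNn : (f.ker.map pM).Normal := Subgroup.Normal.map inferInstance pM hpM
    have hFN : F (M ⧸ f.ker.map pM) := by
      refine hF.surj (G := K ⧸ f.ker) (QuotientGroup.map f.ker (f.ker.map pM) pM
        (Subgroup.le_comap_map pM f.ker)) ?_ (hF.ofker f hf hFQ)
      intro x
      obtain ⟨m, rfl⟩ := QuotientGroup.mk_surjective x
      obtain ⟨k, rfl⟩ := hpM m
      exact ⟨QuotientGroup.mk k, rfl⟩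
    obtain ⟨n, hn, hnr⟩ := hRmin _ hFN hrR
    have hng : n.1.g = r := congrArg Subtype.val hnr
    have key : ∀ w : Fn p G, (⟨w, 1⟩ : SD (Fn p G) G) ∈ K →
        (⟨(r : G) • w - w, 1⟩ : SD (Fn p G) G) ∈ L := by
      intro w hw
      have h1 : f (n * ⟨⟨w, 1⟩, hw⟩ * n⁻¹ * (⟨⟨w, 1⟩, hw⟩ : K)⁻¹) = 1 := by
        have hn' : f n = 1 := hn
        rw [map_mul, map_mul, map_mul, map_inv, map_inv, hn', one_mul, inv_one, mul_one,
          mul_inv_cancel]
      have h2 := hker _ h1
      have h3 : ((n * ⟨⟨w, 1⟩, hw⟩ * n⁻¹ * (⟨⟨w, 1⟩, hw⟩ : K)⁻¹ : K) : SD (Fn p G) G)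
          = ⟨(r : G) • w - w, 1⟩ := by
        show n.1 * ⟨w, 1⟩ * n.1⁻¹ * (⟨w, 1⟩ : SD (Fn p G) G)⁻¹ = _
        rw [SD.conj_inl, hng]
        apply SD.ext
        · simp [sub_eq_add_neg]
        · simp
      rw [h3] at h2
      exact h2
    refine ⟨(r : G) • w - w, key w hwK, ?_⟩
    by_contra hbad
    have hbad' : ∀ m : M, ((r : G) • w - w) ((r⁻¹ * m : M) * y) = ((r : G) • w - w) (m * y) := by
      intro m
      by_contra h
      exact hbad ⟨m, h⟩
    obtain ⟨m₀, hm₀⟩ := hw
    apply hm₀
    have hev : ∀ m : M, ((r : G) • w - w) (m * y) = w ((r⁻¹ * m : M) * y) - w (m * y) := by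
      intro m
      show w ((r : G)⁻¹ * (m * y)) - w (m * y) = _
      rw [← mul_assoc]
      rfl
    exact coprime_fix p r hr (fun m : M => w (m * y)) (by
      intro m
      have h1 := hbad' m
      rw [hev, hev] at h1
      exact h1) m₀
  · intro w hw ⟨m, hm⟩
    apply hm
    have h1 : ∀ m : M, (m : G) * y ∉ M := by
      intro m h
      exact hy (by
        have := M.mul_mem (M.inv_mem m.2) h
        rwa [inv_mul_cancel_left] at this)
    rw [hw _ (h1 _), hw _ (h1 _)]

end Pool.Agent.Helper907.Lat
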