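import Mathlib
import Pool.Agent.Helper907.LatG

set_option autoImplicit false

namespace Pool.Agent.Helper907.Lat

variable {F : (G : Type) → [Group G] → Prop}

section theta

variable {G : Type} [Group G] (p : ℕ) (M : Subgroup G) [Fintype M] (y : G) {U : Type}
  [AddCommGroup U] [Module (ZMod p) U] (c : M → U →+ U) (d₀ : U)

/-- the homomorphism from the regular module -/
def theta : Fn p G →+ U where
  toFun w := ∑ m : M, w (m * y) • c m d₀
  map_zero' := by
    show ∑ m : M, (0 : ZMod p) • c m d₀ = 0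
    simp
  map_add' w w' := by
    show ∑ m : M, (w (m * y) + w' (m * y)) • c m d₀ = _
    rw [← Finset.sum_add_distrib]
    exact Finset.sum_congr rfl (fun m _ => add_smul _ _ _)

lemma theta_apply (w : Fn p G) : theta p M y c d₀ w = ∑ m : M, w (m * y) • c m d₀ := rfl

lemma theta_smul (hc : ∀ a b u, c (a * b) u = c a (c b u)) (m₀ : M) (w : Fn p G) :
    theta p M y c d₀ ((m₀ : G) • w) = c m₀ (theta p M y c d₀ w) := by
  rw [theta_apply, theta_apply, map_sum]
  have h1 : ∀ m : M, c m₀ (w (m * y) • c m d₀) = w (m * y) • c (m₀ * m) d₀ := by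
    intro m
    rw [ZMod.map_smul, hc]
  rw [Finset.sum_congr rfl (fun m _ => h1 m)]
  refine Fintype.sum_equiv (Equiv.mulLeft m₀⁻¹) _ _ ?_
  intro m
  show w ((m₀ : G)⁻¹ * (m * y)) • c m d₀ = w (((m₀⁻¹ * m : M) : G) * y) • c (m₀ * (m₀⁻¹ * m)) d₀
  rw [mul_inv_cancel_left, ← mul_assoc]
  rfl

lemma theta_supp (hy : y ∉ M) (w : Fn p G) (hw : ∀ x, x ∉ M → w x = 0) :
    theta p M y c d₀ w = 0 := by
  rw [theta_apply]
  apply Finset.sum_eq_zero
  intro m _
  rw [hw, zero_smul]
  intro h
  apply hy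
  have := M.mul_mem (M.inv_mem m.2) h
  rwa [inv_mul_cancel_left] at this

lemma theta_dl (m' : M) : theta p M y c d₀ (dl ((m' : G) * y)) = c m' d₀ := by
  rw [theta_apply, Finset.sum_eq_single m']
  · rw [dl_self, one_smul]
  · intro m _ hm
    rw [dl_ne, zero_smul]
    intro h
    exact hm (Subtype.ext (mul_right_cancel h))
  · intro h; exact absurd (Finset.mem_univ _) h

lemma theta_dl' (z : G) (hz : z * y⁻¹ ∉ M) : theta p M y c d₀ (dl z) = 0 := by
  rw [theta_apply]
  apply Finset.sum_eq_zero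
  intro m _
  rw [dl_ne, zero_smul]
  intro h
  apply hz
  rw [← h, mul_assoc, mul_inv_cancel, mul_one]
  exact m.2

end theta

/-- A complemented non-central abelian chief factor of `M` is `F`-central. -/
lemma chief_step (hF : Fm F)
    (hjoin : ∀ (G : Type) [Group G] [Finite G], ∀ A ∈ TT F G, ∀ B ∈ TT F G, A ⊔ B ∈ TT F G)
    {G : Type} [Group G] [Finite G] (hG : F G) (p : ℕ) [hp : Fact p.Prime]
    (hZ : F (SD (Fn p G) G)) (M : Subgroup G) (hM : IsCoatom M)
    {Mq : Type} [Group Mq] [Finite Mq] (q : M →* Mq) (hq : Function.Surjective q)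
    (D T : Subgroup Mq) [hD : D.Normal] (hDF : F (Mq ⧸ D))
    (hDc : ∀ a ∈ D, ∀ b ∈ D, a * b = b * a) (hDp : ∀ a ∈ D, a ^ p = 1)
    (hDmin : ∀ N : Subgroup Mq, N.Normal → N ≤ D → N = ⊥ ∨ N = D)
    (hDT : D ⊓ T = ⊥) (hDT' : D ⊔ T = ⊤)
    (hnc : ∃ x : Mq, ∃ d ∈ D, x * d * x⁻¹ ≠ d) : F Mq := by
  classical
  by_contra hnot
  have := Fintype.ofFinite M
  obtain ⟨x₀, d₁, hd₁, hxd⟩ := hnc
  obtain ⟨m₀, rfl⟩ := hq x₀
  letI : CommGroup D := { (inferInstance : Group D) with
    mul_comm := fun a b => Subtype.ext (hDc a.1 a.2 b.1 b.2) }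
  letI : Module (ZMod p) (Additive D) := AddCommGroup.zmodModule (n := p) (by
    intro a
    apply Additive.toMul.injective
    apply Subtype.ext
    exact hDp a.toMul.1 a.toMul.2)
  let cA : Mq → (Additive D →+ Additive D) := fun x =>
    { toFun := fun a => Additive.ofMul ⟨x * a.toMul.1 * x⁻¹, hD.conj_mem _ a.toMul.2 x⟩
      map_zero' := by
        apply Additive.toMul.injective
        apply Subtype.ext
        show x * 1 * x⁻¹ = 1
        simp
      map_add' := by
        intro a b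
        apply Additive.toMul.injective
        apply Subtype.ext
        show x * (a.toMul.1 * b.toMul.1) * x⁻¹ = (x * a.toMul.1 * x⁻¹) * (x * b.toMul.1 * x⁻¹)
        group }
  have hcA : ∀ x x' a, cA (x * x') a = cA x (cA x' a) := by
    intro x x' a
    apply Additive.toMul.injective
    apply Subtype.ext
    show (x * x') * a.toMul.1 * (x * x')⁻¹ = x * (x' * a.toMul.1 * x'⁻¹) * x⁻¹
    group
  let d₀ : Additive D := Additive.ofMul ⟨d₁, hd₁⟩
  have hd₀ : cA (q m₀) d₀ ≠ d₀ := by
    intro h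
    exact hxd (congrArg (fun a : Additive D => (a.toMul.1 : Mq)) h)
  have hd₀0 : d₀ ≠ 0 := by
    intro h
    apply hd₀
    rw [h, map_zero]
  have hcA1 : cA (q 1) d₀ = d₀ := by
    apply Additive.toMul.injective
    apply Subtype.ext
    show q 1 * d₁ * (q 1)⁻¹ = d₁
    rw [map_one]; simp
  obtain ⟨y, hy⟩ : ∃ y, y ∉ M := by
    by_contra h
    push Not at h
    exact hM.1 (eq_top_iff.mpr (fun x _ => h x))
  let θ : Fn p G →+ Additive D := theta p M y (fun m => cA (q m)) d₀
  have hθs : ∀ (m : M) (w : Fn p G), θ ((m : G) • w) = cA (q m) (θ w) := fun m w =>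
    theta_smul p M y (fun m => cA (q m)) d₀ (fun a b u => by rw [map_mul, hcA]) m w
  -- the retraction onto the complement
  let eT : T →* Mq ⧸ D := (QuotientGroup.mk' D).comp T.subtype
  have heT : Function.Bijective eT := by
    constructor
    · rw [injective_iff_map_eq_one]
      intro t ht
      have h1 : (t : Mq) ∈ D := (QuotientGroup.eq_one_iff _).mp ht
      have h2 : (t : Mq) ∈ D ⊓ T := ⟨h1, t.2⟩
      rw [hDT, Subgroup.mem_bot] at h2
      exact Subtype.ext h2
    · intro x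
      obtain ⟨x, rfl⟩ := QuotientGroup.mk_surjective x
      have h1 : x ∈ D ⊔ T := by rw [hDT']; trivial
      rw [Subgroup.mem_sup_of_normal_left] at h1
      obtain ⟨d, hd, t, ht, rfl⟩ := h1
      refine ⟨⟨t, ht⟩, ?_⟩
      show QuotientGroup.mk t = QuotientGroup.mk (d * t)
      rw [QuotientGroup.eq]
      have : t⁻¹ * (d * t) = t⁻¹ * d * (t⁻¹)⁻¹ := by group
      rw [this]
      exact hD.conj_mem d hd _
  let eTe : T ≃* Mq ⧸ D := MulEquiv.ofBijective eT heT
  let τ : Mq →* Mq := (T.subtype.comp eTe.symm.toMonoidHom).comp (QuotientGroup.mk' D)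
  have hτT : ∀ x, τ x ∈ T := fun x => (eTe.symm (QuotientGroup.mk x)).2
  have hτD : ∀ x, ∃ d ∈ D, x = d * τ x := by
    intro x
    have h1 : (QuotientGroup.mk (τ x) : Mq ⧸ D) = QuotientGroup.mk x :=
      eTe.apply_symm_apply (QuotientGroup.mk x)
    rw [QuotientGroup.eq] at h1
    refine ⟨x * (τ x)⁻¹, ?_, by group⟩
    have h2 := hD.conj_mem _ h1 (τ x)
    rwa [mul_inv_cancel_left] at h2
  have hτD1 : ∀ x ∈ D, τ x = 1 := by
    intro x hx
    have h1 : (QuotientGroup.mk x : Mq ⧸ D) = 1 := (QuotientGroup.eq_one_iff x).mpr hx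
    show ((eTe.symm (QuotientGroup.mk x)) : Mq) = 1
    rw [h1, map_one]
    rfl
  have hτt : ∀ t ∈ T, τ t = t := by
    intro t ht
    show ((eTe.symm (QuotientGroup.mk t)) : Mq) = t
    have h1 : (QuotientGroup.mk t : Mq ⧸ D) = eTe ⟨t, ht⟩ := rfl
    rw [h1, MulEquiv.symm_apply_apply]
  have hτc : ∀ (x : Mq) (a : Additive D), (cA x a).toMul.1 * τ x = τ x * a.toMul.1 := by
    intro x a
    obtain ⟨d, hd, hx⟩ := hτD x
    show (x * a.toMul.1 * x⁻¹) * τ x = τ x * a.toMul.1
    have h1 : τ x * a.toMul.1 * (τ x)⁻¹ ∈ D := hD.conj_mem _ a.toMul.2 _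
    have h2 := hDc _ h1 d hd
    have h3 : x * a.toMul.1 * x⁻¹ = d * (τ x * a.toMul.1 * (τ x)⁻¹) * d⁻¹ := by
      conv_lhs => rw [hx]
      group
    rw [h3, ← h2]
    group
  let good : Fn p G → Prop := fun w => θ w ≠ 0
  refine step_lemma hF hjoin hG p hZ M hM good ?_ ?_ ?_
  · intro C hC hCm
    by_cases hcase : ∀ m ∈ M, y * m * y⁻¹ ∈ M
    · obtain ⟨m, hm, hmr⟩ := conj_onto M y hcase m₀ m₀.2
      have h1 := hC y _ (hCm m hm)
      rw [smul_sub, smul_dl, smul_dl, smul_eq_mul, smul_eq_mul, mul_one] at h1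
      have hym : y * m = m₀ * y := by
        rw [← hmr]; group
      rw [hym] at h1
      refine ⟨_, h1, ?_⟩
      show θ (dl y - dl (m₀ * y)) ≠ 0
      rw [map_sub]
      have h2 : θ (dl ((m₀ : G) * y)) = cA (q m₀) d₀ := theta_dl p M y _ d₀ m₀
      have h3 : θ (dl y) = d₀ := by
        have h4 : θ (dl (((1 : M) : G) * y)) = cA (q 1) d₀ := theta_dl p M y _ d₀ 1
        have h5 : ((1 : M) : G) * y = y := one_mul y
        rw [h5, hcA1] at h4
        exact h4
      rw [h2, h3, sub_ne_zero]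
      exact Ne.symm hd₀
    · push Not at hcase
      obtain ⟨m, hm, hmy⟩ := hcase
      have h1 := hC y _ (hCm m hm)
      rw [smul_sub, smul_dl, smul_dl, smul_eq_mul, smul_eq_mul, mul_one] at h1
      refine ⟨_, h1, ?_⟩
      show θ (dl y - dl (y * m)) ≠ 0
      rw [map_sub]
      have h2 : θ (dl (y * m)) = 0 := theta_dl' p M y _ d₀ (y * m) hmy
      have h3 : θ (dl y) = d₀ := by
        have h4 : θ (dl (((1 : M) : G) * y)) = cA (q 1) d₀ := theta_dl p M y _ d₀ 1
        have h5 : ((1 : M) : G) * y = y := one_mul y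
        rw [h5, hcA1] at h4
        exact h4
      rw [h2, h3, sub_zero]
      exact hd₀0
  · intro K L hLK hmL hKM hN ⟨w, hwK, hw⟩
    obtain ⟨Q, hQ, f, hf, hFQ, hker⟩ := hN
    by_contra hbad
    have hbad' : ∀ w, (⟨w, 1⟩ : SD (Fn p G) G) ∈ L → θ w = 0 := by
      intro w hw
      by_contra h
      exact hbad ⟨w, hw, h⟩
    apply hnot
    let pM : K →* M :=
      { toFun := fun z => ⟨z.1.g, hKM z.1 z.2⟩
        map_one' := rfl
        map_mul' := fun _ _ => rfl }
    have hpM : Function.Surjective pM := by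
      intro m
      exact ⟨⟨⟨0, m⟩, hLK (hmL m m.2)⟩, rfl⟩
    let Ψ : K →* Mq :=
      { toFun := fun z => (θ z.1.v).toMul.1 * τ (q (pM z))
        map_one' := by
          show (θ 0).toMul.1 * τ (q (pM 1)) = 1
          rw [map_zero, map_one, map_one, map_one]
          show (1 : Mq) * 1 = 1
          rw [mul_one]
        map_mul' := by
          intro a b
          show (θ (a.1.v + a.1.g • b.1.v)).toMul.1 * τ (q (pM (a * b)))
            = ((θ a.1.v).toMul.1 * τ (q (pM a))) * ((θ b.1.v).toMul.1 * τ (q (pM b)))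
          have h1 : θ (a.1.v + a.1.g • b.1.v) = θ a.1.v + cA (q (pM a)) (θ b.1.v) := by
            rw [map_add]
            congr 1
            exact hθs (pM a) b.1.v
          rw [h1, map_mul, map_mul, map_mul]
          show ((θ a.1.v).toMul.1 * (cA (q (pM a)) (θ b.1.v)).toMul.1) * (τ (q (pM a)) * τ (q (pM b)))
            = _
          have h2 := hτc (q (pM a)) (θ b.1.v)
          calc ((θ a.1.v).toMul.1 * (cA (q (pM a)) (θ b.1.v)).toMul.1) * (τ (q (pM a)) * τ (q (pM b)))
              = (θ a.1.v).toMul.1 * ((cA (q (pM a)) (θ b.1.v)).toMul.1 * τ (q (pM a))) * τ (q (pM b)) := by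
                simp only [mul_assoc]
            _ = _ := by rw [h2]; simp only [mul_assoc] }
    have hΨ : Function.Surjective Ψ := by
      -- the image contains D and T
      have hTle : T ≤ Ψ.range := by
        intro t ht
        obtain ⟨m, hm⟩ := hq t
        obtain ⟨k, hk⟩ := hpM m
        refine ⟨⟨⟨0, m⟩, hLK (hmL m m.2)⟩, ?_⟩
        show (θ 0).toMul.1 * τ (q m) = t
        rw [map_zero, hm, hτt t ht]
        exact one_mul t
      have hDle : D ≤ Ψ.range := by
        -- the set of values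
        let N : Subgroup Mq :=
          { carrier := {x | ∃ w, (⟨w, 1⟩ : SD (Fn p G) G) ∈ K ∧ (θ w).toMul.1 = x}
            one_mem' := ⟨0, K.one_mem, by rw [map_zero]; rfl⟩
            mul_mem' := by
              rintro _ _ ⟨w, hw, rfl⟩ ⟨w', hw', rfl⟩
              refine ⟨w + w', ?_, by rw [map_add]; rfl⟩
              have := K.mul_mem hw hw'
              have h2 : (⟨w, 1⟩ : SD (Fn p G) G) * ⟨w', 1⟩ = ⟨w + w', 1⟩ := by
                apply SD.ext <;> simp
              rw [h2] at this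
              exact this
            inv_mem' := by
              rintro _ ⟨w, hw, rfl⟩
              refine ⟨-w, ?_, by rw [map_neg]; rfl⟩
              have := K.inv_mem hw
              have h2 : (⟨w, 1⟩ : SD (Fn p G) G)⁻¹ = ⟨-w, 1⟩ := by
                apply SD.ext <;> simp
              rw [h2] at this
              exact this }
        have hNn : N.Normal := by
          refine ⟨?_⟩
          rintro _ ⟨w, hw, rfl⟩ x
          obtain ⟨m, rfl⟩ := hq x
          refine ⟨(m : G) • w, ?_, ?_⟩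
          · have h3 : (⟨0, m⟩ : SD (Fn p G) G) ∈ K := hLK (hmL m m.2)
            have := K.mul_mem (K.mul_mem h3 hw) (K.inv_mem h3)
            rw [SD.conj_inl] at this
            exact this
          · rw [hθs]
            rfl
        have hND : N ≤ D := by
          rintro _ ⟨w, _, rfl⟩
          exact (θ w).toMul.2
        rcases hDmin N hNn hND with h | h
        · exfalso
          apply hw
          have h3 : (θ w).toMul.1 ∈ N := ⟨w, hwK, rfl⟩
          rw [h, Subgroup.mem_bot] at h3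
          apply Additive.toMul.injective
          apply Subtype.ext
          exact h3
        · rw [← h]
          rintro _ ⟨w, hw, rfl⟩
          refine ⟨⟨⟨w, 1⟩, hw⟩, ?_⟩
          show (θ w).toMul.1 * τ (q (pM ⟨⟨w, 1⟩, hw⟩)) = _
          have h4 : pM ⟨⟨w, 1⟩, hw⟩ = 1 := rfl
          rw [h4, map_one, map_one, mul_one]
      rw [← MonoidHom.range_eq_top, eq_top_iff, ← hDT']
      exact sup_le hDle hTle
    let g₂ : K →* Mq ⧸ D := (QuotientGroup.mk' D).comp (q.comp pM)
    have hg₂ : Function.Surjective g₂ :=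
      (QuotientGroup.mk'_surjective D).comp (hq.comp hpM)
    have h3 : F (K ⧸ (f.ker ⊓ g₂.ker)) := hF.inf K _ _ (hF.ofker f hf hFQ) (hF.ofker g₂ hg₂ hDF)
    have h4 : f.ker ⊓ g₂.ker ≤ Ψ.ker := by
      rintro z ⟨hz1, hz2⟩
      have h5 : (z : SD (Fn p G) G) ∈ L := hker z hz1
      have h6 : q (pM z) ∈ D := (QuotientGroup.eq_one_iff _).mp hz2
      have h7 : (⟨z.1.v, 1⟩ : SD (Fn p G) G) ∈ L := by
        have h8 := L.mul_mem h5 (L.inv_mem (hmL z.1.g (hKM z.1 z.2)))
        have h9 : (z : SD (Fn p G) G) * (⟨0, z.1.g⟩ : SD (Fn p G) G)⁻¹ = ⟨z.1.v, 1⟩ := by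
          apply SD.ext <;> simp
        rw [h9] at h8
        exact h8
      show (θ z.1.v).toMul.1 * τ (q (pM z)) = 1
      rw [hbad' _ h7, hτD1 _ h6, mul_one]
      rfl
    have h5 := hF.ofle (f.ker ⊓ g₂.ker) Ψ.ker h4 h3
    exact hF.iso _ _ ⟨QuotientGroup.quotientKerEquivOfSurjective Ψ hΨ⟩ h5
  · intro w hw hgood
    exact hgood (theta_supp p M y _ d₀ hy w hw)

end Pool.Agent.Helper907.Lat
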