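import Mathlib
import Pool.Agent.Helper907.LatH

set_option autoImplicit false

namespace Pool.Agent.Helper907.Lat

variable {F : (G : Type) → [Group G] → Prop}

/-- If the residual of `M` is a `p`-group, it is trivial. -/
lemma res_step (hF : Fm F)
    (hjoin : ∀ (G : Type) [Group G] [Finite G], ∀ A ∈ TT F G, ∀ B ∈ TT F G, A ⊔ B ∈ TT F G)
    {G : Type} [Group G] [Finite G] (hG : F G) (p : ℕ) [hp : Fact p.Prime]
    (hZ : F (SD (Fn p G) G)) (hC : F (Multiplicative (ZMod p))) (M : Subgroup G) (hM : IsCoatom M)
    (R : Subgroup M) [hR : R.Normal] (hRF : F (M ⧸ R))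
    (hRmin : ∀ (N : Subgroup M) [N.Normal], F (M ⧸ N) → R ≤ N)
    (hRp : IsPGroup p R) : R = ⊥ := by
  classical
  by_contra hRne
  have hne : ({N : Subgroup M | N.Normal ∧ N < R}).Nonempty :=
    ⟨⊥, inferInstance, bot_lt_iff_ne_bot.mpr hRne⟩
  obtain ⟨R₁, ⟨hR₁n, hR₁R⟩, hmax⟩ := (Set.toFinite _).exists_maximal hne
  let q : M →* M ⧸ R₁ := QuotientGroup.mk' R₁
  have hq : Function.Surjective q := QuotientGroup.mk'_surjective R₁
  let D : Subgroup (M ⧸ R₁) := R.map q
  have hDn : D.Normal := Subgroup.Normal.map hR q hq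
  have hDF : F ((M ⧸ R₁) ⧸ D) := by
    refine hF.surj (G := M ⧸ R) (QuotientGroup.lift R ((QuotientGroup.mk' D).comp q) ?_) ?_ hRF
    · intro r hr
      exact (QuotientGroup.eq_one_iff _).mpr ⟨r, hr, rfl⟩
    · intro x
      obtain ⟨y, rfl⟩ := QuotientGroup.mk_surjective x
      obtain ⟨m, rfl⟩ := hq y
      exact ⟨QuotientGroup.mk m, rfl⟩
  have hDpg : IsPGroup p D := hRp.map q
  have hDne : D ≠ ⊥ := by
    intro h
    apply not_le_of_gt hR₁R
    intro r hr
    have h1 : q r ∈ D := ⟨r, hr, rfl⟩
    rw [h, Subgroup.mem_bot] at h1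
    exact (QuotientGroup.eq_one_iff _).mp h1
  have hDmin : ∀ N : Subgroup (M ⧸ R₁), N.Normal → N ≤ D → N = ⊥ ∨ N = D := by
    intro N hN hND
    have h1 : R₁ ≤ N.comap q := by
      intro x hx
      have hx1 : q x = 1 := (QuotientGroup.eq_one_iff x).mpr hx
      show q x ∈ N
      rw [hx1]
      exact N.one_mem
    have h2 : N.comap q ≤ R := by
      intro x hx
      obtain ⟨r, hr, hrx⟩ := hND hx
      have h3 : r⁻¹ * x ∈ R₁ := QuotientGroup.eq.mp hrx
      have h4 := R.mul_mem hr (hR₁R.le h3)
      rwa [mul_inv_cancel_left] at h4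
    have h5 : (N.comap q).map q = N := Subgroup.map_comap_eq_self_of_surjective hq N
    by_cases h : N.comap q = R
    · right
      rw [← h5, h]
    · left
      have h6 : N.comap q ≤ R₁ := hmax ⟨hN.comap q, lt_of_le_of_ne h2 h⟩ h1
      rw [eq_bot_iff]
      intro x hx
      rw [← h5] at hx
      obtain ⟨y, hy, rfl⟩ := hx
      exact (QuotientGroup.eq_one_iff y).mpr (h6 hy)
  have hDnt : Nontrivial D := (Subgroup.nontrivial_iff_ne_bot D).mpr hDne
  have hDc : ∀ a ∈ D, ∀ b ∈ D, a * b = b * a := by
    have h1 := hDpg.center_nontrivial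
    have h2 : D ⊓ Subgroup.centralizer (D : Set (M ⧸ R₁)) = D := by
      have hn : (D ⊓ Subgroup.centralizer (D : Set (M ⧸ R₁))).Normal := inferInstance
      rcases hDmin _ hn inf_le_left with h | h
      · exfalso
        obtain ⟨z, hz⟩ := exists_ne (1 : Subgroup.center D)
        apply hz
        apply Subtype.ext
        apply Subtype.ext
        have h3 : ((z : D) : M ⧸ R₁) ∈ D ⊓ Subgroup.centralizer (D : Set (M ⧸ R₁)) := by
          refine Subgroup.mem_inf.mpr ⟨(z : D).2, ?_⟩
          rw [Subgroup.mem_centralizer_iff]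
          intro d hd
          have := Subgroup.mem_center_iff.mp z.2 ⟨d, hd⟩
          exact congrArg Subtype.val this
        rw [h, Subgroup.mem_bot] at h3
        exact h3
      · exact h
    intro a ha b hb
    rw [← h2] at ha
    exact (Subgroup.mem_centralizer_iff.mp ha.2 b hb).symm
  have hpD : p ∣ Nat.card D := by
    obtain ⟨n, hn, hcard⟩ := hDpg.nontrivial_iff_card.mp hDnt
    rw [hcard]
    exact dvd_pow_self p hn.ne'
  have hDp : ∀ a ∈ D, a ^ p = 1 := by
    let N : Subgroup (M ⧸ R₁) :=
      { carrier := {a | a ∈ D ∧ a ^ p = 1}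
        one_mem' := ⟨D.one_mem, one_pow p⟩
        mul_mem' := by
          rintro a b ⟨ha, ha'⟩ ⟨hb, hb'⟩
          refine ⟨D.mul_mem ha hb, ?_⟩
          have hcomm : Commute a b := hDc a ha b hb
          rw [hcomm.mul_pow, ha', hb', mul_one]
        inv_mem' := by
          rintro a ⟨ha, ha'⟩
          exact ⟨D.inv_mem ha, by rw [inv_pow, ha', inv_one]⟩ }
    have hNn : N.Normal := by
      refine ⟨?_⟩
      rintro a ⟨ha, ha'⟩ g
      refine ⟨hDn.conj_mem a ha g, ?_⟩
      rw [conj_pow, ha', mul_one, mul_inv_cancel]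
    rcases hDmin N hNn (fun a ha => ha.1) with h | h
    · exfalso
      obtain ⟨z, hz⟩ := exists_prime_orderOf_dvd_card' p hpD
      have h1 : (z : M ⧸ R₁) ∈ N := by
        refine ⟨z.2, ?_⟩
        have := pow_orderOf_eq_one z
        rw [hz] at this
        exact congrArg Subtype.val this
      rw [h, Subgroup.mem_bot] at h1
      have h2 : z = 1 := Subtype.ext h1
      rw [h2, orderOf_one] at hz
      exact hp.out.one_lt.ne hz
    · intro a ha
      rw [← h] at ha
      exact ha.2
  have hFq : F (M ⧸ R₁) := by
    refine hF.satur _ ?_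
    intro T hT
    by_cases hDT : D ≤ T
    · refine ⟨(M ⧸ R₁) ⧸ D, inferInstance, QuotientGroup.mk' D, QuotientGroup.mk'_surjective D, hDF,
        ?_⟩
      intro x hx
      exact hDT ((QuotientGroup.eq_one_iff x).mp hx)
    · have hsup : D ⊔ T = ⊤ := by
        apply hT.2
        refine lt_of_le_of_ne le_sup_right ?_
        intro heq
        apply hDT
        rw [heq]
        exact le_sup_left
      have hdec : ∀ x : M ⧸ R₁, ∃ d ∈ D, ∃ t ∈ T, d * t = x := by
        intro x
        have h1 : x ∈ D ⊔ T := by rw [hsup]; trivial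
        exact Subgroup.mem_sup_of_normal_left.mp h1
      have hinfn : (D ⊓ T).Normal := by
        refine ⟨?_⟩
        rintro a ⟨haD, haT⟩ x
        obtain ⟨d, hd, t, ht, rfl⟩ := hdec x
        have h1 : t * a * t⁻¹ ∈ D := hDn.conj_mem a haD t
        have h2 : d * t * a * (d * t)⁻¹ = t * a * t⁻¹ := by
          have h3 := hDc d hd _ h1
          calc d * t * a * (d * t)⁻¹ = d * (t * a * t⁻¹) * d⁻¹ := by group
            _ = t * a * t⁻¹ := by rw [h3, mul_inv_cancel_right]
        rw [h2]
        exact ⟨h1, T.mul_mem (T.mul_mem ht haT) (T.inv_mem ht)⟩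
      have hinf : D ⊓ T = ⊥ := by
        rcases hDmin _ hinfn inf_le_left with h | h
        · exact h
        · exact absurd (inf_eq_left.mp h) hDT
      have hFMq : F (M ⧸ R₁) := by
        by_cases hnc : ∃ x : M ⧸ R₁, ∃ d ∈ D, x * d * x⁻¹ ≠ d
        · exact chief_step hF hjoin hG p hZ M hM q hq D T hDF hDc hDp hDmin hinf hsup hnc
        · push Not at hnc
          have hTn : T.Normal := by
            refine ⟨?_⟩
            intro a ha x
            obtain ⟨d, hd, t, ht, rfl⟩ := hdec x
            have h1 : t * a * t⁻¹ ∈ T := T.mul_mem (T.mul_mem ht ha) (T.inv_mem ht)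
            have h2 : d * t * a * (d * t)⁻¹ = t * a * t⁻¹ := by
              have h3 := hnc (t * a * t⁻¹) d hd
              calc d * t * a * (d * t)⁻¹ = d * (t * a * t⁻¹) * d⁻¹ := by group
                _ = (t * a * t⁻¹ * d * (t * a * t⁻¹)⁻¹) * (t * a * t⁻¹) * d⁻¹ := by rw [h3]
                _ = (t * a * t⁻¹) := by group
            rw [h2]
            exact h1
          obtain ⟨d, hd, hd1⟩ : ∃ d ∈ D, d ≠ 1 := by
            by_contra h
            push Not at h
            exact hDne (eq_bot_iff.mpr (fun x hx => h x hx))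
          have hzn : (Subgroup.zpowers d).Normal := by
            refine ⟨?_⟩
            intro a ha x
            have h1 : a ∈ D := (Subgroup.zpowers_le.mpr hd) ha
            rw [hnc x a h1]
            exact ha
          have hzD : Subgroup.zpowers d = D := by
            rcases hDmin _ hzn (Subgroup.zpowers_le.mpr hd) with h | h
            · exfalso
              exact hd1 (Subgroup.zpowers_eq_bot.mp h)
            · exact h
          have hcD : Nat.card D = p := by
            rw [← hzD, Nat.card_zpowers]
            exact orderOf_eq_prime (hDp d hd) hd1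
          have hc2 : Nat.card (Multiplicative (ZMod p)) = p := by
            rw [Nat.card_congr Multiplicative.toAdd, Nat.card_zmod]
          have hFD : F D := hF.iso _ _ ⟨mulEquivOfPrimeCardEq hc2 hcD⟩ hC
          have hFT : F ((M ⧸ R₁) ⧸ T) := by
            refine hF.surj (G := D) ((QuotientGroup.mk' T).comp D.subtype) ?_ hFD
            intro x
            obtain ⟨y, rfl⟩ := QuotientGroup.mk_surjective x
            obtain ⟨d', hd', t, ht, rfl⟩ := hdec y
            refine ⟨⟨d', hd'⟩, ?_⟩
            show QuotientGroup.mk d' = QuotientGroup.mk (d' * t)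
            rw [QuotientGroup.eq, inv_mul_cancel_left]
            exact ht
          refine hF.sub2 (QuotientGroup.mk' D) (QuotientGroup.mk' T)
            (QuotientGroup.mk'_surjective D) (QuotientGroup.mk'_surjective T) hDF hFT ?_
          intro x hx1 hx2
          have h1 : x ∈ D ⊓ T :=
            ⟨(QuotientGroup.eq_one_iff x).mp hx1, (QuotientGroup.eq_one_iff x).mp hx2⟩
          rw [hinf, Subgroup.mem_bot] at h1
          exact h1
      exact ⟨M ⧸ R₁, inferInstance, MonoidHom.id _, fun x => ⟨x, rfl⟩, hFMq, fun x hx => by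
        have : x = 1 := hx
        rw [this]; exact T.one_mem⟩
  exact not_le_of_gt hR₁R (hRmin R₁ hFq)

/-- The main theorem: a saturated formation whose `F`-subnormal subgroups are closed under joins
is closed under subgroups. -/
theorem hereditary (hF : Fm F)
    (hjoin : ∀ (G : Type) [Group G] [Finite G], ∀ A ∈ TT F G, ∀ B ∈ TT F G, A ⊔ B ∈ TT F G) :
    ∀ (n : ℕ) (G : Type) [Group G] [Finite G], Nat.card G = n → F G →
      ∀ H : Subgroup G, F H := by
  intro n
  induction n using Nat.strong_induction_on with
  | _ n ih =>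
    intro G _ _ hcard hG
    have hmax : ∀ M : Subgroup G, IsCoatom M → F M := by
      intro M hM
      obtain ⟨R, hR, hRF, hRmin⟩ := hF.exists_res M
      by_cases hRb : R = ⊥
      · exact hF.ofbot R hRb hRF
      exfalso
      -- the residual lies in every nontrivial normal subgroup
      have hRN : ∀ N : Subgroup G, N.Normal → N ≠ ⊥ → R ≤ N.subgroupOf M := by
        intro N hN hNne
        have hlt : Nat.card (G ⧸ N) < n := by
          rw [← hcard, ← Subgroup.card_mul_index N, ← Subgroup.index_eq_card]
          have h1 : 1 < Nat.card N := by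
            rw [Finite.one_lt_card_iff_nontrivial]
            exact (Subgroup.nontrivial_iff_ne_bot N).mpr hNne
          have h2 : 0 < N.index := Nat.pos_of_ne_zero Subgroup.index_ne_zero_of_finite
          nlinarith
        have h1 : F (M.map (QuotientGroup.mk' N)) :=
          ih _ hlt (G ⧸ N) rfl (hF.quot G N hG) (M.map (QuotientGroup.mk' N))
        let f : M →* M.map (QuotientGroup.mk' N) := (QuotientGroup.mk' N).subgroupMap M
        have hf : Function.Surjective f := MonoidHom.subgroupMap_surjective _ M
        have h2 := hRmin f.ker (hF.ofker f hf h1)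
        refine h2.trans ?_
        intro x hx
        have h3 : f x = 1 := hx
        have h4 : (QuotientGroup.mk (x : G) : G ⧸ N) = 1 := congrArg Subtype.val h3
        exact Subgroup.mem_subgroupOf.mpr ((QuotientGroup.eq_one_iff _).mp h4)
      have hRnt : Nontrivial R := (Subgroup.nontrivial_iff_ne_bot R).mpr hRb
      obtain ⟨p, hpp, hpR⟩ := Nat.exists_prime_and_dvd
        (Finite.one_lt_card_iff_nontrivial.mpr hRnt).ne'
      have hp : Fact p.Prime := ⟨hpp⟩
      have hpN : ∀ N : Subgroup G, N.Normal → N ≠ ⊥ → p ∣ Nat.card N := by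
        intro N hN hNne
        have h1 : Nat.card R ∣ Nat.card (N.subgroupOf M) :=
          Subgroup.card_dvd_of_le (hRN N hN hNne)
        have h2 : Nat.card (N.subgroupOf M) ∣ Nat.card N := by
          have h3 : Function.Injective (fun x : N.subgroupOf M => (⟨x.1.1, x.2⟩ : N)) := by
            intro a b hab
            have h4 : (a.1.1 : G) = b.1.1 := congrArg (fun z : N => (z : G)) hab
            exact Subtype.ext (Subtype.ext h4)
          let f : N.subgroupOf M →* N :=
            { toFun := fun x => ⟨x.1.1, x.2⟩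
              map_one' := rfl
              map_mul' := fun _ _ => rfl }
          exact Subgroup.card_dvd_of_injective f h3
        exact hpR.trans (h1.trans h2)
      have hpM : p ∣ Nat.card M := hpR.trans (Subgroup.card_subgroup_dvd_card R)
      have hpG : p ∣ Nat.card G := hpM.trans (Subgroup.card_subgroup_dvd_card M)
      have hC := cp_mem hF G hG p hpG
      have hZ := regular_mem hF hG p hC hpN
      have hcop : ∀ r ∈ R, (orderOf r).Coprime p → r = 1 := fun r hr hrc =>
        res_coprime hF hjoin hG p hZ M hM R (fun N _ h => hRmin N h) r hr hrc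
      have hRp : IsPGroup p R := by
        rintro ⟨r, hr⟩
        obtain ⟨k, m, hm, hkm⟩ := Nat.exists_eq_pow_mul_and_not_dvd (orderOf_pos r).ne' p hpp.ne_one
        refine ⟨k, ?_⟩
        apply Subtype.ext
        show r ^ (p ^ k) = 1
        apply hcop _ (R.pow_mem hr _)
        rw [orderOf_pow, hkm, Nat.gcd_eq_right (Dvd.intro _ rfl),
          Nat.mul_div_cancel_left _ (pow_pos hpp.pos k)]
        exact (Nat.Coprime.symm ((Nat.Prime.coprime_iff_not_dvd hpp).mpr hm))
      exact hRb (res_step hF hjoin hG p hZ hC M hM R hRF (fun N _ h => hRmin N h) hRp)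
    intro H
    rcases eq_top_or_exists_le_coatom H with h | ⟨M, hM, hHM⟩
    · subst h
      exact hF.iso _ _ ⟨Subgroup.topEquiv.symm⟩ hG
    · have hlt : Nat.card M < n := by
        rw [← hcard]
        have h1 := Subgroup.card_le_card_group M
        refine lt_of_le_of_ne h1 ?_
        intro h
        exact hM.1 (Subgroup.eq_top_of_card_eq M h)
      have h1 := ih _ hlt M rfl (hmax M hM) (H.subgroupOf M)
      exact hF.iso _ _ ⟨Subgroup.subgroupOfEquivOfLe hHM⟩ h1

end Pool.Agent.Helper907.Lat
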