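import Mathlib
import Pool.Agent.Helper907.LatI

set_option autoImplicit false

namespace Pool.Agent.Helper907.Loc

/-- The centralizer `C_G(H/K)` of the factor `H/K`. -/
def cenF {G : Type} [Group G] (K H : Subgroup G) [hK : K.Normal] [hH : H.Normal] : Subgroup G where
  carrier := {g | ∀ h ∈ H, g * h * g⁻¹ * h⁻¹ ∈ K}
  one_mem' := by
    intro h _
    rw [one_mul, inv_one, mul_one, mul_inv_cancel]
    exact K.one_mem
  mul_mem' := by
    intro a b ha hb h hh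
    have h1 := hb h hh
    have h2 := ha h hh
    have h3 := K.mul_mem (hK.conj_mem _ h1 a) h2
    have h4 : a * (b * h * b⁻¹ * h⁻¹) * a⁻¹ * (a * h * a⁻¹ * h⁻¹) = a * b * h * (a * b)⁻¹ * h⁻¹ := by
      group
    rw [h4] at h3
    exact h3
  inv_mem' := by
    intro a ha h hh
    have h1 : a⁻¹ * h * (a⁻¹)⁻¹ ∈ H := hH.conj_mem h hh a⁻¹
    have h2 := K.inv_mem (ha _ h1)
    have h3 := hK.conj_mem _ h2 1
    have h4 : (1 : G) * (a * (a⁻¹ * h * (a⁻¹)⁻¹) * a⁻¹ * (a⁻¹ * h * (a⁻¹)⁻¹)⁻¹)⁻¹ * 1⁻¹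
        = (a⁻¹ * h * (a⁻¹)⁻¹) * h⁻¹ := by group
    rw [h4] at h3
    exact h3

lemma mem_cenF {G : Type} [Group G] {K H : Subgroup G} [hK : K.Normal] [hH : H.Normal] {g : G} :
    g ∈ cenF K H ↔ ∀ h ∈ H, g * h * g⁻¹ * h⁻¹ ∈ K := Iff.rfl

instance {G : Type} [Group G] (K H : Subgroup G) [hK : K.Normal] [hH : H.Normal] :
    (cenF K H).Normal := by
  refine ⟨?_⟩
  intro g hg x h hh
  have h1 : x⁻¹ * h * (x⁻¹)⁻¹ ∈ H := hH.conj_mem h hh x⁻¹
  have h2 := hK.conj_mem _ (hg _ h1) x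
  have h4 : x * (g * (x⁻¹ * h * (x⁻¹)⁻¹) * g⁻¹ * (x⁻¹ * h * (x⁻¹)⁻¹)⁻¹) * x⁻¹
      = x * g * x⁻¹ * h * (x * g * x⁻¹)⁻¹ * h⁻¹ := by group
  rw [h4] at h2
  exact h2

/-- `H/K` is a chief factor of `G` (for normal subgroups `K`, `H`). -/
def IsChief {G : Type} [Group G] (K H : Subgroup G) : Prop :=
  K < H ∧ ∀ N : Subgroup G, N.Normal → K ≤ N → N ≤ H → N = K ∨ N = H

lemma exists_chief {G : Type} [Group G] [Finite G] (N A : Subgroup G) [A.Normal] (h : N < A) :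
    ∃ M : Subgroup G, M.Normal ∧ M ≤ A ∧ IsChief N M := by
  classical
  have hne : ({M : Subgroup G | M.Normal ∧ N < M ∧ M ≤ A}).Nonempty := ⟨A, inferInstance, h, le_rfl⟩
  obtain ⟨M, ⟨hM1, hM2, hM3⟩, hmin⟩ := (Set.toFinite _).exists_minimal hne
  refine ⟨M, hM1, hM3, hM2, ?_⟩
  intro K hK hNK hKM
  by_cases hc : N = K
  · left; exact hc.symm
  · right
    exact le_antisymm hKM (hmin ⟨hK, lt_of_le_of_ne hNK hc, hKM.trans hM3⟩ hKM)

/-- an element of `M` whose `p`-th power and coprime power lie in `N` -/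
lemma coprime_pow_mem {G : Type} [Group G] (N : Subgroup G) (x : G) (a b : ℕ) (h : Nat.Coprime a b)
    (ha : x ^ a ∈ N) (hb : x ^ b ∈ N) : x ∈ N := by
  have h1 : x = (x ^ a) ^ (Nat.gcdA a b) * (x ^ b) ^ (Nat.gcdB a b) := by
    rw [← zpow_natCast, ← zpow_natCast, ← zpow_mul, ← zpow_mul, ← zpow_add, ← Nat.gcd_eq_gcd_ab,
      h]
    simp
  rw [h1]
  exact N.mul_mem (N.zpow_mem ha _) (N.zpow_mem hb _)

/-- in a central-by-... chief factor of order divisible by `p`, `p`-th powers vanish -/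
lemma chief_pow {G : Type} [Group G] [Finite G] (p : ℕ) [hp : Fact p.Prime] (N M : Subgroup G)
    [hN : N.Normal] [hM : M.Normal] (hch : IsChief N M) (hdvd : p ∣ N.relIndex M)
    (hab : ∀ x ∈ M, ∀ y ∈ M, x * y * x⁻¹ * y⁻¹ ∈ N) : ∀ x ∈ M, x ^ p ∈ N := by
  classical
  have hmul : ∀ x ∈ M, ∀ y ∈ M, (x * y) ^ p * (x ^ p * y ^ p)⁻¹ ∈ N := by
    intro x hx y hy
    have h1 : Commute (QuotientGroup.mk ⟨x, hx⟩ : M ⧸ N.subgroupOf M)
        (QuotientGroup.mk ⟨y, hy⟩ : M ⧸ N.subgroupOf M) := by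
      show (QuotientGroup.mk (⟨x, hx⟩ * ⟨y, hy⟩) : M ⧸ N.subgroupOf M)
        = QuotientGroup.mk (⟨y, hy⟩ * ⟨x, hx⟩)
      rw [QuotientGroup.eq, Subgroup.mem_subgroupOf]
      show (x * y)⁻¹ * (y * x) ∈ N
      have h2 := hab y⁻¹ (M.inv_mem hy) x⁻¹ (M.inv_mem hx)
      have h3 : (x * y)⁻¹ * (y * x) = y⁻¹ * x⁻¹ * (y⁻¹)⁻¹ * (x⁻¹)⁻¹ := by group
      rw [h3]; exact h2
    have h2 : (QuotientGroup.mk ((⟨x, hx⟩ * ⟨y, hy⟩) ^ p * ((⟨x, hx⟩ : M) ^ p * (⟨y, hy⟩ : M) ^ p)⁻¹) :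
        M ⧸ N.subgroupOf M) = 1 := by
      rw [QuotientGroup.mk_mul, QuotientGroup.mk_inv, QuotientGroup.mk_pow, QuotientGroup.mk_mul,
        QuotientGroup.mk_mul, QuotientGroup.mk_pow, QuotientGroup.mk_pow, h1.mul_pow,
        mul_inv_cancel]
    exact Subgroup.mem_subgroupOf.mp ((QuotientGroup.eq_one_iff _).mp h2)
  let K : Subgroup G :=
    { carrier := {x | x ∈ M ∧ x ^ p ∈ N}
      one_mem' := ⟨M.one_mem, by rw [one_pow]; exact N.one_mem⟩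
      mul_mem' := by
        rintro x y ⟨hx, hx'⟩ ⟨hy, hy'⟩
        refine ⟨M.mul_mem hx hy, ?_⟩
        have h1 := N.mul_mem (hmul x hx y hy) (N.mul_mem hx' hy')
        rwa [inv_mul_cancel_right] at h1
      inv_mem' := by
        rintro x ⟨hx, hx'⟩
        exact ⟨M.inv_mem hx, by rw [inv_pow]; exact N.inv_mem hx'⟩ }
  have hKn : K.Normal := by
    refine ⟨?_⟩
    rintro x ⟨hx, hx'⟩ g
    refine ⟨hM.conj_mem x hx g, ?_⟩
    rw [conj_pow]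
    exact hN.conj_mem _ hx' g
  have hNK : N ≤ K := fun x hx => ⟨hch.1.le hx, N.pow_mem hx p⟩
  rcases hch.2 K hKn hNK (fun x hx => hx.1) with h | h
  · exfalso
    have h1 : p ∣ Nat.card (M ⧸ N.subgroupOf M) := hdvd
    obtain ⟨z, hz⟩ := exists_prime_orderOf_dvd_card' p h1
    obtain ⟨⟨x, hx⟩, rfl⟩ := QuotientGroup.mk_surjective z
    have h2 : (QuotientGroup.mk (⟨x, hx⟩ : M) : M ⧸ N.subgroupOf M) ^ p = 1 := by
      have := pow_orderOf_eq_one (QuotientGroup.mk (⟨x, hx⟩ : M) : M ⧸ N.subgroupOf M)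
      rwa [hz] at this
    have h3 : x ^ p ∈ N := by
      rw [← QuotientGroup.mk_pow] at h2
      exact Subgroup.mem_subgroupOf.mp ((QuotientGroup.eq_one_iff _).mp h2)
    have h4 : x ∈ K := ⟨hx, h3⟩
    rw [h] at h4
    have h5 : (QuotientGroup.mk (⟨x, hx⟩ : M) : M ⧸ N.subgroupOf M) = 1 :=
      (QuotientGroup.eq_one_iff _).mpr (Subgroup.mem_subgroupOf.mpr h4)
    rw [h5, orderOf_one] at hz
    exact hp.out.one_lt.ne hz
  · intro x hx
    rw [← h] at hx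
    exact hx.2

/-- A group acting trivially on all `p`-chief factors is `p`-nilpotent. -/
lemma pnil {G : Type} [Group G] [Finite G] (p : ℕ) [hp : Fact p.Prime] (A : Subgroup G)
    [hA : A.Normal] : ∀ (n : ℕ) (N : Subgroup G) [hN : N.Normal], N ≤ A → N.relIndex A = n →
    (∀ (K H : Subgroup G) [K.Normal] [H.Normal], N ≤ K → H ≤ A → IsChief K H →
      p ∣ K.relIndex H → A ≤ cenF K H) →
    ∃ B : Subgroup G, B.Normal ∧ N ≤ B ∧ B ≤ A ∧ ¬ p ∣ N.relIndex B ∧ ∃ k, B.relIndex A = p ^ k := by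
  intro n
  induction n using Nat.strong_induction_on with
  | _ n ih =>
  intro N hN hNA hn hcen
  rcases eq_or_lt_of_le hNA with heq | hlt
  · subst heq
    refine ⟨N, hN, le_rfl, le_rfl, ?_, 0, ?_⟩
    · rw [Subgroup.relIndex_self]
      exact hp.out.one_lt.ne' ∘ Nat.dvd_one.mp
    · rw [Subgroup.relIndex_self, pow_zero]
  obtain ⟨M, hM, hMA, hch⟩ := exists_chief N A hlt
  have hpos : ∀ K H : Subgroup G, K.relIndex H ≠ 0 := fun K H => Subgroup.index_ne_zero_of_finite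
  have hlt2 : M.relIndex A < n := by
    rw [← hn, ← Subgroup.relIndex_mul_relIndex N M A hch.1.le hMA]
    have h1 : N.relIndex M ≠ 1 := by
      intro h
      rw [Subgroup.relIndex_eq_one] at h
      exact not_le_of_gt hch.1 h
    have h2 := hpos N M
    have h3 := hpos M A
    have h4 : 2 ≤ N.relIndex M := by omega
    have h5 : 1 ≤ M.relIndex A := by omega
    nlinarith
  obtain ⟨B₁, hB₁n, hMB₁, hB₁A, hpB₁, k, hk⟩ := ih _ hlt2 M hMA rfl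
    (fun K H _ _ h1 h2 h3 h4 => hcen K H (hch.1.le.trans h1) h2 h3 h4)
  have hNB₁ : N ≤ B₁ := hch.1.le.trans hMB₁
  by_cases hpM : p ∣ N.relIndex M
  swap
  · refine ⟨B₁, hB₁n, hNB₁, hB₁A, ?_, k, hk⟩
    rw [← Subgroup.relIndex_mul_relIndex N M B₁ hch.1.le hMB₁, hp.out.dvd_mul]
    push Not
    exact ⟨hpM, hpB₁⟩
  have hcenM := hcen N M le_rfl hMA hch hpM
  have hMab : ∀ x ∈ M, ∀ y ∈ M, x * y * x⁻¹ * y⁻¹ ∈ N := fun x hx y hy => hcenM (hMA hx) y hy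
  have hMpow := chief_pow p N M hch hpM hMab
  -- the quotient group
  let Gh : Type := B₁ ⧸ N.subgroupOf B₁
  let Mh : Subgroup (B₁ ⧸ N.subgroupOf B₁) := (M.subgroupOf B₁).map (QuotientGroup.mk' (N.subgroupOf B₁))
  have hMhn : Mh.Normal := Subgroup.Normal.map inferInstance _ (QuotientGroup.mk'_surjective _)
  have hMhc : Mh ≤ Subgroup.center (B₁ ⧸ N.subgroupOf B₁) := by
    rintro _ ⟨⟨y, hyB⟩, hy, rfl⟩
    rw [Subgroup.mem_center_iff]
    intro g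
    obtain ⟨⟨x, hx⟩, rfl⟩ := QuotientGroup.mk_surjective g
    show (QuotientGroup.mk ((⟨x, hx⟩ : B₁) * ⟨y, hyB⟩) : B₁ ⧸ N.subgroupOf B₁)
      = QuotientGroup.mk (⟨y, hyB⟩ * ⟨x, hx⟩)
    rw [QuotientGroup.eq, Subgroup.mem_subgroupOf]
    show (x * y)⁻¹ * (y * x) ∈ N
    have hy' : y ∈ M := hy
    have h1 := hcenM (A.inv_mem (hB₁A hx)) y⁻¹ (M.inv_mem hy')
    have h2 := hN.conj_mem _ h1 y⁻¹
    have h3 : y⁻¹ * (x⁻¹ * y⁻¹ * (x⁻¹)⁻¹ * (y⁻¹)⁻¹) * (y⁻¹)⁻¹ = (x * y)⁻¹ * (y⁻¹ * x * y * y) := by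
      group
    have h4 := hcenM (A.inv_mem (hB₁A hx)) y hy'
    have h5 : (x * y)⁻¹ * (y * x) = (x⁻¹ * y * (x⁻¹)⁻¹ * y⁻¹) → (x * y)⁻¹ * (y * x) ∈ N := by
      intro h; rw [h]; exact h4
    have h6 : (x * y)⁻¹ * (y * x) = y⁻¹ * (x⁻¹ * y * (x⁻¹)⁻¹ * y⁻¹) * (y⁻¹)⁻¹ := by group
    rw [h6]
    exact hN.conj_mem _ h4 y⁻¹
  let m : ℕ := Mh.index
  have hm : ¬ p ∣ m := by
    intro h
    apply hpB₁
    exact h.trans (Subgroup.index_map_dvd _ (QuotientGroup.mk'_surjective _))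
  have hpowmul : ∀ x y : B₁ ⧸ N.subgroupOf B₁, (x * y) ^ m = x ^ m * y ^ m := by
    intro x y
    obtain ⟨c, hc⟩ : (Subgroup.center (B₁ ⧸ N.subgroupOf B₁)).index ∣ m :=
      Subgroup.index_dvd_of_le hMhc
    have h1 : ∀ z : B₁ ⧸ N.subgroupOf B₁,
        z ^ (Subgroup.center (B₁ ⧸ N.subgroupOf B₁)).index
          = (MonoidHom.transferCenterPow (B₁ ⧸ N.subgroupOf B₁) z : B₁ ⧸ N.subgroupOf B₁) :=
      fun z => (MonoidHom.transferCenterPow_apply z).symm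
    have h2 : Commute (x ^ (Subgroup.center (B₁ ⧸ N.subgroupOf B₁)).index)
        (y ^ (Subgroup.center (B₁ ⧸ N.subgroupOf B₁)).index) := by
      have h3 := (MonoidHom.transferCenterPow (B₁ ⧸ N.subgroupOf B₁) x).2
      rw [h1 x]
      exact (Subgroup.mem_center_iff.mp h3 _).symm
    rw [hc, pow_mul, pow_mul, pow_mul, h1 (x * y), map_mul, Subgroup.coe_mul, ← h1, ← h1,
      h2.mul_pow]
  let B : Subgroup G :=
    { carrier := {x | x ∈ B₁ ∧ x ^ m ∈ N}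
      one_mem' := ⟨B₁.one_mem, by rw [one_pow]; exact N.one_mem⟩
      mul_mem' := by
        rintro x y ⟨hx, hx'⟩ ⟨hy, hy'⟩
        refine ⟨B₁.mul_mem hx hy, ?_⟩
        have h1 := hpowmul (QuotientGroup.mk ⟨x, hx⟩) (QuotientGroup.mk ⟨y, hy⟩)
        have h2 : (QuotientGroup.mk (⟨x, hx⟩ : B₁) : B₁ ⧸ N.subgroupOf B₁) ^ m = 1 := by
          rw [← QuotientGroup.mk_pow]
          exact (QuotientGroup.eq_one_iff _).mpr (Subgroup.mem_subgroupOf.mpr hx')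
        have h3 : (QuotientGroup.mk (⟨y, hy⟩ : B₁) : B₁ ⧸ N.subgroupOf B₁) ^ m = 1 := by
          rw [← QuotientGroup.mk_pow]
          exact (QuotientGroup.eq_one_iff _).mpr (Subgroup.mem_subgroupOf.mpr hy')
        rw [h2, h3, mul_one, ← QuotientGroup.mk_mul, ← QuotientGroup.mk_pow] at h1
        exact Subgroup.mem_subgroupOf.mp ((QuotientGroup.eq_one_iff _).mp h1)
      inv_mem' := by
        rintro x ⟨hx, hx'⟩
        exact ⟨B₁.inv_mem hx, by rw [inv_pow]; exact N.inv_mem hx'⟩ }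
  have hBB₁ : B ≤ B₁ := fun x hx => hx.1
  have hNB : N ≤ B := fun x hx => ⟨hNB₁ hx, N.pow_mem hx m⟩
  have hBn : B.Normal := by
    refine ⟨?_⟩
    rintro x ⟨hx, hx'⟩ g
    refine ⟨hB₁n.conj_mem x hx g, ?_⟩
    rw [conj_pow]
    exact hN.conj_mem _ hx' g
  have hcop : Nat.Coprime p m := (Nat.Prime.coprime_iff_not_dvd hp.out).mpr hm
  refine ⟨B, hBn, hNB, hBB₁.trans hB₁A, ?_, ?_⟩
  · intro hdvd
    have h1 : p ∣ Nat.card (B ⧸ N.subgroupOf B) := hdvd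
    obtain ⟨z, hz⟩ := exists_prime_orderOf_dvd_card' p h1
    obtain ⟨⟨x, hx⟩, rfl⟩ := QuotientGroup.mk_surjective z
    have h2 : (QuotientGroup.mk (⟨x, hx⟩ : B) : B ⧸ N.subgroupOf B) ^ p = 1 := by
      have := pow_orderOf_eq_one (QuotientGroup.mk (⟨x, hx⟩ : B) : B ⧸ N.subgroupOf B)
      rwa [hz] at this
    have h3 : x ^ p ∈ N := by
      rw [← QuotientGroup.mk_pow] at h2
      exact Subgroup.mem_subgroupOf.mp ((QuotientGroup.eq_one_iff _).mp h2)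
    have h4 : x ∈ N := coprime_pow_mem N x p m hcop h3 hx.2
    have h5 : (QuotientGroup.mk (⟨x, hx⟩ : B) : B ⧸ N.subgroupOf B) = 1 :=
      (QuotientGroup.eq_one_iff _).mpr (Subgroup.mem_subgroupOf.mpr h4)
    rw [h5, orderOf_one] at hz
    exact hp.out.one_lt.ne hz
  · have hpg : IsPGroup p (B₁ ⧸ B.subgroupOf B₁) := by
      intro z
      obtain ⟨⟨x, hx⟩, rfl⟩ := QuotientGroup.mk_surjective z
      refine ⟨1, ?_⟩
      rw [pow_one, ← QuotientGroup.mk_pow]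
      refine (QuotientGroup.eq_one_iff _).mpr (Subgroup.mem_subgroupOf.mpr ?_)
      show x ^ p ∈ B
      refine ⟨B₁.pow_mem hx p, ?_⟩
      have h1 : (QuotientGroup.mk (⟨x, hx⟩ : B₁) : B₁ ⧸ N.subgroupOf B₁) ^ m ∈ Mh :=
        Subgroup.pow_index_mem Mh _
      rw [← QuotientGroup.mk_pow] at h1
      obtain ⟨y, hy, hyx⟩ := h1
      have h2 : y⁻¹ * (⟨x, hx⟩ : B₁) ^ m ∈ N.subgroupOf B₁ := QuotientGroup.eq.mp hyx
      have h3 : x ^ m ∈ M := by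
        have h4 : (y : G)⁻¹ * x ^ m ∈ N := Subgroup.mem_subgroupOf.mp h2
        have h5 := M.mul_mem hy (hch.1.le h4)
        have h6 : (y : G) * ((y : G)⁻¹ * x ^ m) = x ^ m := mul_inv_cancel_left _ _
        rw [← h6]
        exact h5
      rw [← pow_mul, mul_comm, pow_mul]
      exact hMpow _ h3
    obtain ⟨j, hj⟩ := (IsPGroup.iff_card (p := p)).mp hpg
    refine ⟨j + k, ?_⟩
    rw [← Subgroup.relIndex_mul_relIndex B B₁ A hBB₁ hB₁A, hk, pow_add]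
    congr 1

end Pool.Agent.Helper907.Loc
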