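import Mathlib
import Pool.Agent.Helper907.LocA

set_option autoImplicit false

namespace Pool.Agent.Helper907.Loc

open MulOpposite Pointwise in
/-- Complements of an abelian normal Hall subgroup are conjugate. -/
lemma compl_conj {B : Type} [Group B] [Finite B] (N : Subgroup B) [N.Normal] [IsMulCommutative N]
    (hcop : Nat.Coprime (Nat.card N) N.index) (L₁ L₂ : Subgroup B)
    (h₁ : Subgroup.IsComplement' N L₁) (h₂ : Subgroup.IsComplement' N L₂) :
    ∃ e ∈ N, L₂ = L₁.map (MulAut.conj e).toMonoidHom := by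
  classical
  have key : ∀ (L : Subgroup B) (h : Subgroup.IsComplement' N L), ∃ α : N.QuotientDiff,
      L = MulAction.stabilizer B α := by
    intro L h
    let S : N.LeftTransversal := ⟨(L : Set B), h.symm⟩
    let α : N.QuotientDiff := Quotient.mk'' S
    refine ⟨α, ?_⟩
    have hle : L ≤ MulAction.stabilizer B α := by
      intro l hl
      rw [MulAction.mem_stabilizer_iff]
      have h1 : (op l⁻¹ : Bᵐᵒᵖ) • S = S := by
        apply Subtype.ext
        show (op l⁻¹ : Bᵐᵒᵖ) • (L : Set B) = (L : Set B)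
        ext y
        rw [Set.mem_smul_set]
        constructor
        · rintro ⟨x, hx, rfl⟩
          exact L.mul_mem hx (L.inv_mem hl)
        · intro hy
          refine ⟨y * l, L.mul_mem hy hl, ?_⟩
          show y * l * l⁻¹ = y
          rw [mul_inv_cancel_right]
      show (Quotient.mk'' ((op l⁻¹ : Bᵐᵒᵖ) • S) : N.QuotientDiff) = Quotient.mk'' S
      rw [h1]
    have hst := Subgroup.isComplement'_stabilizer_of_coprime (α := α) hcop
    have hc1 := h.card_mul_card
    have hc2 := hst.card_mul_card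
    have hN : 0 < Nat.card N := Nat.card_pos
    have hc3 : Nat.card (MulAction.stabilizer B α) = Nat.card L := by
      have : Nat.card N * Nat.card (MulAction.stabilizer B α)
        = Nat.card N * Nat.card L := by rw [hc1, hc2]
      exact Nat.eq_of_mul_eq_mul_left hN this
    exact Subgroup.eq_of_le_of_card_ge hle hc3.le
  obtain ⟨α₁, hα₁⟩ := key L₁ h₁
  obtain ⟨α₂, hα₂⟩ := key L₂ h₂
  obtain ⟨e, he⟩ := Subgroup.exists_smul_eq hcop α₁ α₂
  refine ⟨e, e.2, ?_⟩
  rw [hα₂, hα₁, ← he]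
  exact MulAction.stabilizer_smul_eq_stabilizer_map_conj (e : B) α₁

/-- the key lemma for saturation -/
lemma frat_central {G : Type} [Group G] [Finite G] (p : ℕ) [hp : Fact p.Prime] (N : Subgroup G)
    [hN : N.Normal] (hNF : N ≤ frattini G)
    (hmin : ∀ N' : Subgroup G, N'.Normal → N' ≤ N → N' = ⊥ ∨ N' = N) (hNne : N ≠ ⊥)
    (hab : ∀ x ∈ N, ∀ y ∈ N, x * y = y * x) (hexp : ∀ x ∈ N, x ^ p = 1)
    (A : Subgroup G) [hA : A.Normal] (hNA : N ≤ A)
    (hcen : ∀ (K H : Subgroup G) [K.Normal] [H.Normal], N ≤ K → H ≤ A → IsChief K H →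
      p ∣ K.relIndex H → A ≤ cenF K H) : A ≤ cenF ⊥ N := by
  classical
  obtain ⟨B, hBn, hNB, hBA, hpB, k, hk⟩ := pnil p A _ N hNA rfl hcen
  have hNpg : IsPGroup p N := by
    rintro ⟨x, hx⟩
    exact ⟨1, Subtype.ext (by rw [pow_one]; exact hexp x hx)⟩
  have hNnt : Nontrivial N := (Subgroup.nontrivial_iff_ne_bot N).mpr hNne
  let Nb : Subgroup B := N.subgroupOf B
  have hNbc : IsMulCommutative Nb := ⟨⟨fun a b => Subtype.ext (Subtype.ext (hab _ a.2 _ b.2))⟩⟩
  have hcardNb : ∃ j, Nat.card Nb = p ^ j := by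
    have h1 : IsPGroup p Nb := by
      rintro ⟨⟨x, hxB⟩, hx⟩
      exact ⟨1, Subtype.ext (Subtype.ext (by rw [pow_one]; exact hexp x hx))⟩
    exact (IsPGroup.iff_card (p := p)).mp h1
  have hcop : Nat.Coprime (Nat.card Nb) Nb.index := by
    obtain ⟨j, hj⟩ := hcardNb
    rw [hj]
    exact Nat.Coprime.pow_left j ((Nat.Prime.coprime_iff_not_dvd hp.out).mpr hpB)
  obtain ⟨L, hL⟩ := Subgroup.exists_right_complement'_of_coprime hcop
  let LG : Subgroup G := L.map B.subtype
  -- the Frattini argument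
  have hconj : ∀ g : G, ∃ e ∈ N, e⁻¹ * g ∈ Subgroup.normalizer (LG : Set G) := by
    intro g
    let c : B ≃* B := MulAut.conjNormal g
    have hc : ∀ x : B, ((c x : B) : G) = g * x * g⁻¹ := fun x => MulAut.conjNormal_apply g x
    have hNc : Nb.map c.toMonoidHom = Nb := by
      ext x
      constructor
      · rintro ⟨y, hy, rfl⟩
        show ((c y : B) : G) ∈ N
        rw [hc]
        exact hN.conj_mem _ hy g
      · intro hx
        refine ⟨c.symm x, ?_, c.apply_symm_apply x⟩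
        show ((c.symm x : B) : G) ∈ N
        have h1 := hc (c.symm x)
        rw [c.apply_symm_apply] at h1
        have h2 : ((c.symm x : B) : G) = g⁻¹ * x * (g⁻¹)⁻¹ := by rw [h1]; group
        rw [h2]
        exact hN.conj_mem _ hx _
    have hLc : Subgroup.IsComplement' Nb (L.map c.toMonoidHom) := by
      apply Subgroup.isComplement'_of_coprime
      · have h1 := hL.card_mul_card
        rw [← h1]
        congr 1
        exact Nat.card_congr (L.equivMapOfInjective c.toMonoidHom c.injective).symm.toEquiv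
      · have h2 : Nat.card (L.map c.toMonoidHom) = Nat.card L :=
          Nat.card_congr (L.equivMapOfInjective c.toMonoidHom c.injective).symm.toEquiv
        rw [h2, ← hL.symm.index_eq_card]
        exact hcop
    obtain ⟨e, he, heL⟩ := compl_conj Nb hcop L (L.map c.toMonoidHom) hL hLc
    refine ⟨e, he, ?_⟩
    have hmem : ∀ l : G, l ∈ LG ↔ ∃ hl : l ∈ B, (⟨l, hl⟩ : B) ∈ L := by
      intro l
      constructor
      · rintro ⟨x, hx, rfl⟩
        exact ⟨x.2, hx⟩
      · rintro ⟨hl, h⟩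
        exact ⟨⟨l, hl⟩, h, rfl⟩
    have hle : ∀ l ∈ LG, ((e : G)⁻¹ * g) * l * ((e : G)⁻¹ * g)⁻¹ ∈ LG := by
      intro l hl
      obtain ⟨hlB, hlL⟩ := (hmem l).mp hl
      have h1 : c ⟨l, hlB⟩ ∈ L.map c.toMonoidHom := ⟨_, hlL, rfl⟩
      rw [heL] at h1
      obtain ⟨l', hl', hl'e⟩ := h1
      have h2 : e * l' * e⁻¹ = c ⟨l, hlB⟩ := hl'e
      have h3 : (e : G) * l' * (e : G)⁻¹ = g * l * g⁻¹ := by
        have := congrArg (fun z : B => (z : G)) h2
        rw [← hc ⟨l, hlB⟩]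
        exact this
      have h4 : ((e : G)⁻¹ * g) * l * ((e : G)⁻¹ * g)⁻¹ = l' := by
        calc ((e : G)⁻¹ * g) * l * ((e : G)⁻¹ * g)⁻¹ = (e : G)⁻¹ * (g * l * g⁻¹) * e := by group
          _ = (e : G)⁻¹ * ((e : G) * l' * (e : G)⁻¹) * e := by rw [h3]
          _ = l' := by group
      rw [h4]
      exact ⟨l', hl', rfl⟩
    rw [Subgroup.mem_normalizer_iff]
    intro l
    refine ⟨hle l, ?_⟩
    intro hl
    -- finiteness
    let φ : LG → LG := fun l => ⟨_, hle l l.2⟩
    have hφ : Function.Injective φ := by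
      intro a b hab
      have h1 : ((e : G)⁻¹ * g) * a * ((e : G)⁻¹ * g)⁻¹ = ((e : G)⁻¹ * g) * b * ((e : G)⁻¹ * g)⁻¹ :=
        congrArg Subtype.val hab
      exact Subtype.ext (by simpa using h1)
    obtain ⟨⟨x, hx⟩, hxe⟩ := Finite.surjective_of_injective hφ ⟨_, hl⟩
    have h1 : ((e : G)⁻¹ * g) * x * ((e : G)⁻¹ * g)⁻¹ = ((e : G)⁻¹ * g) * l * ((e : G)⁻¹ * g)⁻¹ :=
      congrArg Subtype.val hxe
    have h2 : x = l := by simpa using h1
    rw [← h2]; exact hx
  have hLGn : LG.Normal := by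
    rw [← Subgroup.normalizer_eq_top_iff]
    apply frattini_nongenerating
    rw [eq_top_iff]
    intro g _
    obtain ⟨e, he, heg⟩ := hconj g
    have h1 : g = e * (e⁻¹ * g) := by rw [mul_inv_cancel_left]
    rw [h1]
    exact Subgroup.mul_mem _ ((le_sup_right : frattini G ≤ _) (hNF he))
      ((le_sup_left : Subgroup.normalizer (LG : Set G) ≤ _) heg)
  have hLGN : ∀ l ∈ LG, ∀ n ∈ N, l * n = n * l := by
    intro l hl n hn
    have h1 : l * n * l⁻¹ * n⁻¹ ∈ N := N.mul_mem (hN.conj_mem n hn l) (N.inv_mem hn)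
    have h2 : l * n * l⁻¹ * n⁻¹ ∈ LG := by
      have h3 : l * n * l⁻¹ * n⁻¹ = l * (n * l⁻¹ * n⁻¹) := by group
      rw [h3]
      exact LG.mul_mem hl (hLGn.conj_mem _ (LG.inv_mem hl) n)
    obtain ⟨x, hx, hxe⟩ := h2
    have h3 : x ∈ Nb := by
      show (x : G) ∈ N
      have : (x : G) = l * n * l⁻¹ * n⁻¹ := hxe
      rw [this]; exact h1
    have h4 : x = 1 := by
      have := hL.disjoint
      rw [Subgroup.disjoint_def] at this
      exact this h3 hx
    have h5 : l * n * l⁻¹ * n⁻¹ = 1 := by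
      rw [← hxe, h4]; rfl
    have h6 : l * n * l⁻¹ = n := by
      rwa [mul_inv_eq_one] at h5
    rwa [mul_inv_eq_iff_eq_mul] at h6
  have hBN : ∀ b ∈ B, ∀ n ∈ N, b * n * b⁻¹ = n := by
    intro b hb n hn
    have h1 : (⟨b, hb⟩ : B) ∈ Nb ⊔ L := by rw [hL.sup_eq_top]; trivial
    rw [Subgroup.mem_sup_of_normal_left] at h1
    obtain ⟨x, hx, l, hl, hxl⟩ := h1
    have h2 : b = (x : G) * (l : G) := (congrArg Subtype.val hxl).symm
    have h3 : (l : G) * n = n * l := hLGN l ⟨l, hl, rfl⟩ n hn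
    have h4 : (x : G) * n = n * x := hab x hx n hn
    rw [h2]
    calc (x : G) * (l : G) * n * ((x : G) * (l : G))⁻¹
        = (x : G) * ((l : G) * n) * (l : G)⁻¹ * (x : G)⁻¹ := by group
      _ = (x : G) * (n * (l : G)) * (l : G)⁻¹ * (x : G)⁻¹ := by rw [h3]
      _ = ((x : G) * n) * (x : G)⁻¹ := by group
      _ = n := by rw [h4]; group
  -- the fixed points of A on N
  let ρ : A →* MulAut N := (MulAut.conjNormal (H := N)).comp A.subtype
  have hρ : ∀ (a : A) (n : N), ((ρ a n : N) : G) = a * n * (a : G)⁻¹ := fun a n => rfl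
  have hker : B.subgroupOf A ≤ ρ.ker := by
    intro a ha
    rw [MonoidHom.mem_ker]
    ext n
    show (a : G) * n * (a : G)⁻¹ = n
    exact hBN a ha n n.2
  have hRp : IsPGroup p ρ.range := by
    rw [IsPGroup.iff_card]
    have h1 : Nat.card ρ.range ∣ p ^ k := by
      rw [← hk, ← Subgroup.index_ker]
      exact Subgroup.index_dvd_of_le hker
    obtain ⟨j, -, hj⟩ := (Nat.dvd_prime_pow hp.out).mp h1
    exact ⟨j, hj⟩
  have hpN : p ∣ Nat.card N := by
    obtain ⟨n, hn, hcard⟩ := hNpg.nontrivial_iff_card.mp hNnt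
    rw [hcard]
    exact dvd_pow_self p hn.ne'
  have hfix1 : (1 : N) ∈ MulAction.fixedPoints ρ.range N := by
    rintro ⟨r, a, rfl⟩
    show ρ a 1 = 1
    exact map_one _
  obtain ⟨n₀, hn₀, hn₀1⟩ := hRp.exists_fixed_point_of_prime_dvd_card_of_fixed_point N hpN hfix1
  let C : Subgroup G :=
    { carrier := {n | n ∈ N ∧ ∀ a ∈ A, a * n * a⁻¹ = n}
      one_mem' := ⟨N.one_mem, fun a _ => by rw [mul_one, mul_inv_cancel]⟩
      mul_mem' := by
        rintro x y ⟨hx, hx'⟩ ⟨hy, hy'⟩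
        refine ⟨N.mul_mem hx hy, fun a ha => ?_⟩
        calc a * (x * y) * a⁻¹ = (a * x * a⁻¹) * (a * y * a⁻¹) := by group
          _ = x * y := by rw [hx' a ha, hy' a ha]
      inv_mem' := by
        rintro x ⟨hx, hx'⟩
        refine ⟨N.inv_mem hx, fun a ha => ?_⟩
        calc a * x⁻¹ * a⁻¹ = (a * x * a⁻¹)⁻¹ := by group
          _ = x⁻¹ := by rw [hx' a ha] }
  have hCn : C.Normal := by
    refine ⟨?_⟩
    rintro n ⟨hn, hn'⟩ g
    refine ⟨hN.conj_mem n hn g, fun a ha => ?_⟩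
    have h1 := hn' (g⁻¹ * a * (g⁻¹)⁻¹) (hA.conj_mem a ha g⁻¹)
    calc a * (g * n * g⁻¹) * a⁻¹ = g * ((g⁻¹ * a * (g⁻¹)⁻¹) * n * (g⁻¹ * a * (g⁻¹)⁻¹)⁻¹) * g⁻¹ := by
          group
      _ = g * n * g⁻¹ := by rw [h1]
  rcases hmin C hCn (fun n hn => hn.1) with h | h
  · exfalso
    apply hn₀1
    have h1 : (n₀ : G) ∈ C := by
      refine ⟨n₀.2, fun a ha => ?_⟩
      have h2 := hn₀ ⟨ρ ⟨a, ha⟩, ⟨a, ha⟩, rfl⟩
      exact congrArg (fun z : N => (z : G)) h2
    rw [h, Subgroup.mem_bot] at h1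
    exact (Subtype.ext h1).symm
  · intro a ha n hn
    rw [← h] at hn
    rw [hn.2 a ha, mul_inv_cancel]
    exact Subgroup.one_mem _

end Pool.Agent.Helper907.Loc
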